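import Mathlib
import Pool.Agent.H926.B.Comb

/-!
# Zero sum families
-/

set_option autoImplicit false
set_option linter.unusedSectionVars false

namespace Pool.Agent.H926.C

open Pool.Agent.H926.B

/-- **Small balanced subfamilies.** -/
theorem comb1 {S : Type} [DecidableEq S] (d : S → ℕ) (t : S → ℤ) (g : ℕ) (A : Finset S)
    (hA : A.Nonempty) (h0 : ∑ x ∈ A, t x = 0) (hd0 : ∀ x ∈ A, 0 < d x) (h1 : ∀ x ∈ A, d x ≤ g)
    (h2 : ∀ x ∈ A, t x ≠ 0 → d x ≠ 2 ∧ (t x).natAbs ≤ max 1 (d x - 2))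
    (h3 : ∀ x ∈ A, ∀ y ∈ A, 0 < t x → t y < 0 → d x + d y ≤ g) :
    ∃ B ⊆ A, B.Nonempty ∧ ∑ x ∈ B, t x = 0 ∧ ∑ x ∈ B, d x ≤ bnd g ∧
      ((∃ x, B = {x}) ∨ ∃ x ∈ B, ∃ y ∈ B, 0 < t x ∧ t y < 0) := by
  by_cases hz : ∃ x ∈ A, t x = 0
  · obtain ⟨x, hx, hx0⟩ := hz
    refine ⟨{x}, Finset.singleton_subset_iff.2 hx, Finset.singleton_nonempty x, ?_, ?_,
      Or.inl ⟨x, rfl⟩⟩
    · rw [Finset.sum_singleton, hx0]
    · rw [Finset.sum_singleton]
      exact (h1 x hx).trans (le_max_left _ _)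
  push Not at hz
  -- a minimal subfamily
  obtain ⟨B, hB, hmin⟩ : ∃ B, (B ⊆ A ∧ B.Nonempty ∧ ∑ x ∈ B, t x = 0) ∧
      ∀ B' ⊂ B, B'.Nonempty → ∑ x ∈ B', t x ≠ 0 := by
    have key : ∀ n : ℕ, ∀ B : Finset S, B.card = n → B ⊆ A ∧ B.Nonempty ∧ ∑ x ∈ B, t x = 0 →
        ∃ B, (B ⊆ A ∧ B.Nonempty ∧ ∑ x ∈ B, t x = 0) ∧
          ∀ B' ⊂ B, B'.Nonempty → ∑ x ∈ B', t x ≠ 0 := by
      intro n
      induction n using Nat.strong_induction_on with
      | _ n ih =>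
        intro B hBn hB
        by_cases hc : ∃ B' ⊂ B, B'.Nonempty ∧ ∑ x ∈ B', t x = 0
        · obtain ⟨B', hB', hB'n, hB'0⟩ := hc
          exact ih B'.card (by rw [← hBn]; exact Finset.card_lt_card hB') B' rfl
            ⟨hB'.1.trans hB.1, hB'n, hB'0⟩
        · push Not at hc
          exact ⟨B, hB, hc⟩
    exact key A.card A rfl ⟨Finset.Subset.refl A, hA, h0⟩
  obtain ⟨hBA, hBn, hB0⟩ := hB
  have hne : ∀ x ∈ B, t x ≠ 0 := fun x hx => hz x (hBA hx)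
  obtain ⟨P, hP⟩ : ∃ P, P = B.filter fun x => 0 < t x := ⟨_, rfl⟩
  obtain ⟨N, hN⟩ : ∃ N, N = B.filter fun x => t x < 0 := ⟨_, rfl⟩
  have hPn : P.Nonempty := by
    by_contra hcon
    rw [Finset.not_nonempty_iff_eq_empty] at hcon
    have h4 : ∑ x ∈ B, t x < 0 := by
      refine Finset.sum_neg (fun y hy => ?_) hBn
      refine lt_of_le_of_ne ?_ (hne y hy)
      by_contra h5
      push Not at h5
      have h6 : y ∈ P := by rw [hP]; exact Finset.mem_filter.2 ⟨hy, h5⟩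
      rw [hcon] at h6
      exact absurd h6 (Finset.notMem_empty y)
    omega
  have hNn : N.Nonempty := by
    by_contra hcon
    rw [Finset.not_nonempty_iff_eq_empty] at hcon
    have h4 : 0 < ∑ x ∈ B, t x := by
      refine Finset.sum_pos (fun y hy => ?_) hBn
      refine lt_of_le_of_ne ?_ (hne y hy).symm
      by_contra h5
      push Not at h5
      have h6 : y ∈ N := by rw [hN]; exact Finset.mem_filter.2 ⟨hy, h5⟩
      rw [hcon] at h6
      exact absurd h6 (Finset.notMem_empty y)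
    omega
  obtain ⟨x₀, hx₀, hxm⟩ := Finset.exists_max_image P d hPn
  obtain ⟨y₀, hy₀, hym⟩ := Finset.exists_max_image N d hNn
  have hx₀' : x₀ ∈ B ∧ 0 < t x₀ := by rw [hP] at hx₀; exact Finset.mem_filter.1 hx₀
  have hy₀' : y₀ ∈ B ∧ t y₀ < 0 := by rw [hN] at hy₀; exact Finset.mem_filter.1 hy₀
  have hpq := h3 x₀ (hBA hx₀'.1) y₀ (hBA hy₀'.1) hx₀'.2 hy₀'.2
  have hAb : ∀ x ∈ B, t x ≤ (max 1 (d x₀ - 2) : ℕ) := by
    intro x hx
    rcases lt_or_ge 0 (t x) with h4 | h4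
    · have h5 := (h2 x (hBA hx) h4.ne').2
      have h6 : d x ≤ d x₀ := hxm x (by rw [hP]; exact Finset.mem_filter.2 ⟨hx, h4⟩)
      omega
    · have : (0 : ℤ) ≤ ((max 1 (d x₀ - 2) : ℕ) : ℤ) := Int.natCast_nonneg _
      omega
  have hCb : ∀ x ∈ B, -((max 1 (d y₀ - 2) : ℕ) : ℤ) ≤ t x := by
    intro x hx
    rcases lt_or_ge (t x) 0 with h4 | h4
    · have h5 := (h2 x (hBA hx) h4.ne).2
      have h6 : d x ≤ d y₀ := hym x (by rw [hN]; exact Finset.mem_filter.2 ⟨hx, h4⟩)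
      omega
    · have : (0 : ℤ) ≤ ((max 1 (d y₀ - 2) : ℕ) : ℤ) := Int.natCast_nonneg _
      omega
  obtain ⟨k1, k2⟩ := zs_short t B (max 1 (d x₀ - 2)) (max 1 (d y₀ - 2)) (by omega) hmin hB0 hne hAb hCb
  refine ⟨B, hBA, hBn, hB0, ?_, Or.inr ⟨x₀, hx₀'.1, y₀, hy₀'.1, hx₀'.2, hy₀'.2⟩⟩
  have hsplit : ∑ x ∈ B, d x = ∑ x ∈ P, d x + ∑ x ∈ N, d x := by
    have h4 : B = P ∪ N := by
      ext x
      rw [Finset.mem_union, hP, hN, Finset.mem_filter, Finset.mem_filter]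
      constructor
      · intro hx
        rcases lt_trichotomy (t x) 0 with h5 | h5 | h5
        · exact Or.inr ⟨hx, h5⟩
        · exact absurd h5 (hne x hx)
        · exact Or.inl ⟨hx, h5⟩
      · rintro (h5 | h5) <;> exact h5.1
    have h5 : Disjoint P N := by
      rw [Finset.disjoint_left]
      intro x h6 h7
      rw [hP] at h6
      rw [hN] at h7
      have h8 := (Finset.mem_filter.1 h6).2
      have h9 := (Finset.mem_filter.1 h7).2
      omega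
    conv_lhs => rw [h4]
    exact Finset.sum_union h5
  have hPs : ∑ x ∈ P, d x ≤ max 1 (d y₀ - 2) * d x₀ := by
    calc ∑ x ∈ P, d x ≤ P.card • d x₀ := Finset.sum_le_card_nsmul P d (d x₀) hxm
      _ = P.card * d x₀ := smul_eq_mul _ _
      _ ≤ _ := Nat.mul_le_mul_right _ (by rw [hP]; exact k1)
  have hNs : ∑ x ∈ N, d x ≤ max 1 (d x₀ - 2) * d y₀ := by
    calc ∑ x ∈ N, d x ≤ N.card • d y₀ := Finset.sum_le_card_nsmul N d (d y₀) hym
      _ = N.card * d y₀ := smul_eq_mul _ _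
      _ ≤ _ := Nat.mul_le_mul_right _ (by rw [hN]; exact k2)
  rw [hsplit]
  refine (add_le_add hPs hNs).trans ?_
  exact arith (hd0 _ (hBA hx₀'.1)) (hd0 _ (hBA hy₀'.1))
    (h2 _ (hBA hx₀'.1) hx₀'.2.ne').1 (h2 _ (hBA hy₀'.1) hy₀'.2.ne).1 hpq

end Pool.Agent.H926.C
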