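import Mathlib
import Pool.Agent.H926.T.Jobs3
import Pool.Agent.H926.T.Jobs4

/-!
# The ring generated by divisors and Weil classes for imaginary quadratic fields
-/

set_option linter.unusedSectionVars false

namespace Pool.Agent.H926.C

open Matrix Module Pool.Agent.W437.HC Pool.Agent.W437.HD Pool.Agent.TH504.CB
open Pool.Agent.Y90 hiding mulA exists_lam mulA_altQ
open Pool.Agent.W548.Odd hiding cv
open Pool.Agent.H204R3.CM (IsHodge)
open Pool.Agent.Y4.P (mulA exists_lam mulA_altQ)

noncomputable section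

/-- The abelian variety `Y` of dimension `2 m` with the endomorphism `j = √-D` is of **split Weil type**:
for some polarization `E` with `E (j v) w = -E v (j w)` the determinant of the Hermitian form
`E v (j w) + √-D E v w` on the vector space `H_1(Y, ℚ)` over `K = ℚ(√-D)`, with respect to some vectors
`v 1, ..., v (2 m)` (a basis over `K`), is `(-1) ^ m` times the norm of a nonzero element of `K`. Here
`s = √-D` is one of the square roots of `-D` in `ℂ`; the determinant is a rational number and does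
not depend on this choice. -/
def HasSplitDisc {H T : Type} [AddCommGroup H] [Module ℚ H] [AddCommGroup T] [Module ℂ T]
    (per : H →+ T) (m : ℕ) (D : ℚ) (j : H →ₗ[ℚ] H) : Prop :=
  ∃ (s : ℂ) (E : H → H → ℚ) (v : Fin (2 * m) → H) (x y : ℚ), s * s = -(D : ℂ) ∧
    St.IsPolarization per E ∧ (∀ v w, E (j v) w = -E v (j w)) ∧ (x ≠ 0 ∨ y ≠ 0) ∧
    (Matrix.of fun i k => ((E (v i) (j (v k)) : ℚ) : ℂ) + s * ((E (v i) (v k) : ℚ) : ℂ)).det =
      (-1) ^ m * ((x ^ 2 + D * y ^ 2 : ℚ) : ℂ)

/-- `Y` has **real multiplication**: the endomorphism algebra of `Y` contains a maximal commutative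
subalgebra `ℚ(a)` which is totally real: all endomorphisms of `Y` which commute with `a` are polynomials
in `a`, and all roots of the minimal polynomial of `a` are real (for simple `Y` these are the types I and
II of Albert's classification). -/
def HasRealMultiplication {H T : Type} [AddCommGroup H] [Module ℚ H] [AddCommGroup T] [Module ℂ T]
    (per : H →+ T) : Prop :=
  ∃ a : H →ₗ[ℚ] H, St.IsHom per per a ∧
    (∀ b : H →ₗ[ℚ] H, St.IsHom per per b → b ∘ₗ a = a ∘ₗ b →
      b ∈ Algebra.adjoin ℚ ({a} : Set (Module.End ℚ H))) ∧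
    ∀ z ∈ (minpoly ℚ a).aroots ℂ, z.im = 0

/-- `Y` is simple and has no real multiplication, and no imaginary quadratic subfield of its endomorphism
algebra makes it an abelian sixfold of split Weil type. -/
def SimpleNonSplit {H T : Type} [AddCommGroup H] [Module ℚ H] [AddCommGroup T] [Module ℂ T]
    (per : H →+ T) : Prop :=
  St.IsSimpleSub per ⊤ ∧ ¬HasRealMultiplication per ∧
    ∀ (D : ℚ) (j : H →ₗ[ℚ] H), 0 < D → St.IsHom per per j →
      (∀ v, j (j v) = -(D • v)) → ¬HasSplitDisc per 3 D j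

/-- `f ∈ H^n(Y, ℚ)` is a Weil class for an imaginary quadratic field: `f` is a Hodge class, and there
are a positive rational number `D` and an endomorphism `j` of `Y` (up to isogeny) with `j ^ 2 = -D`, the
dimension of `Y` is `n`, and `j` may be moved in `f` from each variable to each other variable (so `f`
lies in the line `Λ^n_K H¹(Y, ℚ)` over `K = ℚ(√-D)`). If the statement `s` is true and `n > 4` then
moreover `Y` is of split Weil type, or it is a simple sixfold. -/
def IsQWeil (s : Prop) {H T : Type} [AddCommGroup H] [Module ℚ H] [AddCommGroup T] [Module ℂ T]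
    (per : H →+ T) (n : ℕ) (f : H [⋀^Fin n]→ₗ[ℚ] ℚ) : Prop :=
  IsHodge per f ∧ ∃ (D : ℚ) (j : H →ₗ[ℚ] H), 0 < D ∧ St.IsHom per per j ∧
    (∀ v, j (j v) = -(D • v)) ∧ finrank ℚ H = 2 * n ∧
      (∀ (v : Fin n → H) (k l : Fin n),
        f (Function.update v k (j (v k))) = f (Function.update v l (j (v l)))) ∧
      (s → 4 < n → (∃ m, n = 2 * m ∧ HasSplitDisc per m D j) ∨ (n = 6 ∧ SimpleNonSplit per))

/-- The ring generated by the classes of divisors and by the Weil classes for imaginary quadratic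
fields on abelian varieties of dimension at most `B`. -/
inductive QR {H T : Type} [AddCommGroup H] [Module ℚ H] [AddCommGroup T] [Module ℂ T]
    (per : H →+ T) (B : ℕ) (s : Prop) : (κ : Type) → (H [⋀^κ]→ₗ[ℚ] ℚ) → Prop
  | unit {κ : Type} [IsEmpty κ] (f : H [⋀^κ]→ₗ[ℚ] ℚ) : QR per B s κ f
  | divisor {κ : Type} (hκ : Nat.card κ = 2) (f : H [⋀^κ]→ₗ[ℚ] ℚ)
      (hf : IsHodge per f) : QR per B s κ f
  | weil {H' T' : Type} [AddCommGroup H'] [Module ℚ H'] [AddCommGroup T'] [Module ℂ T']
      {per' : H' →+ T'} (hY : St.IsAV per') {n : ℕ} (hn : n ≤ B) (f : H' [⋀^Fin n]→ₗ[ℚ] ℚ)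
      (hf : IsQWeil s per' n f) (h : H →ₗ[ℚ] H') (hh : St.IsHom per per' h) :
      QR per B s (Fin n) (f.compLinearMap h)
  | zero (κ : Type) : QR per B s κ 0
  | add {κ : Type} (f g : H [⋀^κ]→ₗ[ℚ] ℚ) (hf : QR per B s κ f) (hg : QR per B s κ g) :
      QR per B s κ (f + g)
  | smul {κ : Type} (a : ℚ) (f : H [⋀^κ]→ₗ[ℚ] ℚ) (hf : QR per B s κ f) :
      QR per B s κ (a • f)
  | reindex {κ κ' : Type} (e : κ ≃ κ') (f : H [⋀^κ]→ₗ[ℚ] ℚ) (hf : QR per B s κ f) :
      QR per B s κ' (f.domDomCongr e)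
  | cup {κ κ' : Type} [Fintype κ] [DecidableEq κ] [Fintype κ'] [DecidableEq κ']
      (f : H [⋀^κ]→ₗ[ℚ] ℚ) (g : H [⋀^κ']→ₗ[ℚ] ℚ) (hf : QR per B s κ f) (hg : QR per B s κ' g)
      (h : H [⋀^κ ⊕ κ']→ₗ[ℚ] ℚ)
      (hh : ∀ v : κ ⊕ κ' → H, h v = ∑ σ : Equiv.Perm (κ ⊕ κ'), ((Equiv.Perm.sign σ : ℤ) : ℚ) *
        (f (fun k => v (σ (Sum.inl k))) * g (fun k => v (σ (Sum.inr k))))) :
      QR per B s (κ ⊕ κ') h

section rc

variable {H T : Type} [AddCommGroup H] [Module ℚ H] [AddCommGroup T] [Module ℂ T] (per : H →+ T) (B : ℕ) (s : Prop)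

/-- The complex span of the ring. -/
def RCq (κ : Type) : Submodule ℂ ((κ → H) → ℂ) :=
  Submodule.span ℂ {g | ∃ r, QR per B s κ r ∧ g = fun v => ((r v : ℚ) : ℂ)}

variable {per B s}

theorem RCq_of {κ : Type} {r : H [⋀^κ]→ₗ[ℚ] ℚ} (h : QR per B s κ r) :
    (fun v => ((r v : ℚ) : ℂ)) ∈ RCq per B s κ := Submodule.subset_span ⟨r, h, rfl⟩

theorem RCq_reindex {κ κ' : Type} (e : κ ≃ κ') {g : (κ → H) → ℂ} (hg : g ∈ RCq per B s κ) :
    (fun v => g (fun k => v (e k))) ∈ RCq per B s κ' := by
  unfold RCq at hg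
  induction hg using Submodule.span_induction with
  | mem g hg =>
    obtain ⟨r, hr, rfl⟩ := hg
    exact RCq_of (hr.reindex e)
  | zero => exact Submodule.zero_mem _
  | add x y _ _ hx hy => exact Submodule.add_mem _ hx hy
  | smul c x _ hx => exact Submodule.smul_mem _ c hx

theorem RCq_mul {κ κ' : Type} [Fintype κ] [DecidableEq κ] [Fintype κ'] [DecidableEq κ']
    {g : (κ → H) → ℂ} {g' : (κ' → H) → ℂ} (hg : g ∈ RCq per B s κ) (hg' : g' ∈ RCq per B s κ') :
    mulA g g' ∈ RCq per B s (κ ⊕ κ') := by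
  unfold RCq at hg
  induction hg using Submodule.span_induction with
  | mem g hg =>
    obtain ⟨r, hr, rfl⟩ := hg
    unfold RCq at hg'
    induction hg' using Submodule.span_induction with
    | mem g' hg' =>
      obtain ⟨r', hr', rfl⟩ := hg'
      let h : H [⋀^κ ⊕ κ']→ₗ[ℚ] ℚ := MultilinearMap.alternatization
        (prd r.toMultilinearMap r'.toMultilinearMap)
      have hh : ∀ v : κ ⊕ κ' → H, h v = ∑ σ : Equiv.Perm (κ ⊕ κ'),
          ((Equiv.Perm.sign σ : ℤ) : ℚ) *
            (r (fun k => v (σ (Sum.inl k))) * r' (fun k => v (σ (Sum.inr k)))) := by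
        intro v
        rw [MultilinearMap.alternatization_apply]
        refine Finset.sum_congr rfl fun σ _ => ?_
        rw [MultilinearMap.domDomCongr_apply, prd_apply, Units.smul_def, zsmul_eq_mul]
        rfl
      have h1 := RCq_of (QR.cup r r' hr hr' h hh)
      have h2 : (fun v => ((h v : ℚ) : ℂ)) =
          mulA (fun v => ((r v : ℚ) : ℂ)) (fun v => ((r' v : ℚ) : ℂ)) := by
        funext v
        rw [hh]
        unfold mulA
        push_cast
        rfl
      rwa [h2] at h1
    | zero =>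
      have h2 : mulA (fun v => ((r v : ℚ) : ℂ)) (0 : (κ' → H) → ℂ) = 0 := by
        funext v
        simp [mulA]
      rw [h2]
      exact Submodule.zero_mem _
    | add x y _ _ hx hy =>
      have h2 : mulA (fun v => ((r v : ℚ) : ℂ)) (x + y) = mulA (fun v => ((r v : ℚ) : ℂ)) x +
          mulA (fun v => ((r v : ℚ) : ℂ)) y := by
        funext v
        simp only [mulA, Pi.add_apply, mul_add, Finset.sum_add_distrib]
      rw [h2]
      exact Submodule.add_mem _ hx hy
    | smul c x _ hx =>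
      have h2 : mulA (fun v => ((r v : ℚ) : ℂ)) (c • x) =
          c • mulA (fun v => ((r v : ℚ) : ℂ)) x := by
        funext v
        simp only [mulA, Pi.smul_apply, smul_eq_mul, Finset.mul_sum]
        refine Finset.sum_congr rfl fun σ _ => by ring
      rw [h2]
      exact Submodule.smul_mem _ _ hx
  | zero =>
    have h2 : mulA (0 : (κ → H) → ℂ) g' = 0 := by
      funext v
      simp [mulA]
    rw [h2]
    exact Submodule.zero_mem _
  | add x y _ _ hx hy =>
    have h2 : mulA (x + y) g' = mulA x g' + mulA y g' := by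
      funext v
      simp only [mulA, Pi.add_apply, add_mul, mul_add, Finset.sum_add_distrib]
    rw [h2]
    exact Submodule.add_mem _ hx hy
  | smul c x _ hx =>
    have h2 : mulA (c • x) g' = c • mulA x g' := by
      funext v
      simp only [mulA, Pi.smul_apply, smul_eq_mul, Finset.mul_sum]
      refine Finset.sum_congr rfl fun σ _ => by ring
    rw [h2]
    exact Submodule.smul_mem _ _ hx

theorem RCq_lam {κ : Type} {g : (κ → H) → ℂ} (hg : g ∈ RCq per B s κ) :
    ∀ l : ℂ →ₗ[ℚ] ℚ, ∃ r, QR per B s κ r ∧ ∀ v, l (g v) = r v := by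
  unfold RCq at hg
  induction hg using Submodule.span_induction with
  | mem g hg =>
    obtain ⟨r, hr, rfl⟩ := hg
    intro l
    refine ⟨l 1 • r, hr.smul _, fun v => ?_⟩
    have h1 : ((r v : ℚ) : ℂ) = r v • (1 : ℂ) := by rw [Rat.smul_def, mul_one]
    beta_reduce
    rw [h1, map_smul, AlternatingMap.smul_apply, smul_eq_mul, smul_eq_mul, mul_comm]
  | zero =>
    intro l
    refine ⟨0, QR.zero κ, fun v => ?_⟩
    rw [Pi.zero_apply, map_zero]
    rfl
  | add x y _ _ hx hy =>
    intro l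
    obtain ⟨r, hr, h1⟩ := hx l
    obtain ⟨r', hr', h2⟩ := hy l
    refine ⟨r + r', hr.add _ _ hr', fun v => ?_⟩
    rw [Pi.add_apply, map_add, h1, h2]
    rfl
  | smul c x _ hx =>
    intro l
    obtain ⟨r, hr, h1⟩ := hx (l.comp ((LinearMap.mulLeft ℂ c).restrictScalars ℚ))
    exact ⟨r, hr, h1⟩

/-- Rational forms in the complex span belong to the ring. -/
theorem RCq_descent {κ : Type} {f : H [⋀^κ]→ₗ[ℚ] ℚ}
    (hf : (fun v => ((f v : ℚ) : ℂ)) ∈ RCq per B s κ) : QR per B s κ f := by
  obtain ⟨l, hl⟩ := exists_lam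
  obtain ⟨r, hr, h1⟩ := RCq_lam hf l
  have h2 : r = f := by
    ext v
    rw [← h1]
    have h3 : ((f v : ℚ) : ℂ) = f v • (1 : ℂ) := by rw [Rat.smul_def, mul_one]
    rw [h3, map_smul, hl, smul_eq_mul, mul_one]
  rw [← h2]
  exact hr

end rc

section alt

variable {G : ℕ} (Z : Matrix (Fin G) (Fin G) ℂ) (B : ℕ) (s : Prop)

/-- The system of the forms whose alternations belong to the ring. -/
def NQ (κ : Type) [Finite κ] :
    Submodule ℂ (MultilinearMap ℂ (fun _ : κ => Fin G ⊕ Fin G → ℂ) ℂ) where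
  carrier := {F | ∀ (_ : Fintype κ) (_ : DecidableEq κ), altQ F ∈ RCq (perOne Z) B s κ}
  add_mem' := by
    intro F F' hF hF' i1 i2
    have h1 : altQ (F + F') = altQ F + altQ F' := by
      funext v
      simp only [altQ, _root_.add_apply, mul_add, Finset.sum_add_distrib, Pi.add_apply]
    rw [h1]
    exact Submodule.add_mem _ (hF i1 i2) (hF' i1 i2)
  zero_mem' := by
    intro i1 i2
    have h1 : altQ (0 : MultilinearMap ℂ (fun _ : κ => Fin G ⊕ Fin G → ℂ) ℂ) = 0 := by
      funext v
      simp only [altQ, _root_.zero_apply, mul_zero, Finset.sum_const_zero, Pi.zero_apply]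
    rw [h1]
    exact Submodule.zero_mem _
  smul_mem' := by
    intro c F hF i1 i2
    have h1 : altQ (c • F) = c • altQ F := by
      funext v
      simp only [altQ, _root_.smul_apply, smul_eq_mul, Pi.smul_apply, Finset.mul_sum]
      refine Finset.sum_congr rfl fun σ _ => by ring
    rw [h1]
    exact Submodule.smul_mem _ _ (hF i1 i2)

variable {κ κ' : Type} [Fintype κ] [DecidableEq κ] [Fintype κ'] [DecidableEq κ']

theorem clo_NQ : Clo (NQ Z B s) := by
  constructor
  · intro κ _ _ F i1 i2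
    have h1 : altQ F = F 0 • (fun _ => (((1 : ℚ)) : ℂ)) := by
      funext v
      unfold altQ
      rw [Fintype.sum_unique, Pi.smul_apply, smul_eq_mul]
      have h2 : (fun k => cv (v ((default : Equiv.Perm κ) k))) = (0 : κ → Fin G ⊕ Fin G → ℂ) := by
        funext k
        exact isEmptyElim k
      rw [h2, Subsingleton.elim (default : Equiv.Perm κ) 1, Equiv.Perm.sign_one]
      push_cast
      ring
    rw [h1]
    refine Submodule.smul_mem _ _ ?_
    exact RCq_of  (QR.unit (AlternatingMap.constOfIsEmpty ℚ (Fin G ⊕ Fin G → ℚ) κ 1))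
  · intro κ κ' κ'' _ _ _ e φ φ' ψ hφ hφ' hψ i1 i2
    let j1 : Fintype κ := Fintype.ofFinite κ
    let j2 : Fintype κ' := Fintype.ofFinite κ'
    let k1 : DecidableEq κ := Classical.decEq κ
    let k2 : DecidableEq κ' := Classical.decEq κ'
    have h1 := RCq_reindex e (RCq_mul (hφ j1 k1) (hφ' j2 k2))
    have h2 : altQ ψ = ((Fintype.card (Equiv.Perm κ) : ℂ) *
        (Fintype.card (Equiv.Perm κ') : ℂ))⁻¹ •
        fun v : κ'' → (Fin G ⊕ Fin G → ℚ) => mulA  (altQ φ) (altQ φ') (fun k => v (e k)) := by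
      funext v
      rw [Pi.smul_apply, smul_eq_mul, mulA_altQ, ← mul_assoc, inv_mul_cancel₀, one_mul]
      · unfold altQ
        rw [← Equiv.sum_comp (Equiv.permCongr e) (fun σ : Equiv.Perm κ'' =>
          ((Equiv.Perm.sign σ : ℤ) : ℂ) * ψ (fun k => cv (v (σ k))))]
        refine Finset.sum_congr rfl fun σ _ => ?_
        rw [Equiv.Perm.sign_permCongr, hψ]
        simp only [Equiv.permCongr_apply, Equiv.symm_apply_apply]
      · refine mul_ne_zero ?_ ?_ <;> exact_mod_cast Fintype.card_ne_zero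
    rw [h2]
    exact Submodule.smul_mem _ _ h1

end alt

end

end Pool.Agent.H926.C
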