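import Mathlib
import Pool.Agent.H926.C.Q0
import Pool.Agent.H926.A.Jobs

/-!
# Weil classes of split type: lemma statements
-/

set_option linter.unusedSectionVars false

namespace Pool.Agent.H926.C

open Matrix Module Pool.Agent.W437.HC Pool.Agent.W437.HD Pool.Agent.TH504.CB Pool.Agent.W522.U
open Pool.Agent.Y90 hiding mulA exists_lam mulA_altQ
open Pool.Agent.W548.Odd hiding cv
open Pool.Agent.W437.HP (cK cK_mul cK_one)
open Pool.Agent.H204R3.CM (IsHodge)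
open Pool.Agent.H204R3.SP (Kills bil2 IsTate)
open Pool.Agent.Y4.P (MaxM EigM cx WD JB)
open Pool.Agent.Y4.Q (IsMaxEndo)
open Pool.Agent.H926.A (PDq AltE RQM QF Sg)

noncomputable section

/-- Products of determinants, one imaginary quadratic field. -/
def S_QWEIL : Prop :=
  ∀ (B G : ℕ) (Z : Matrix (Fin G) (Fin G) ℂ) (_h : PM Z) (w : ℂ) (D : ℚ) (_hD : 0 < D)
    (_hw : w * w = -(D : ℂ)) (S : Type) [Fintype S] [DecidableEq S] (d : S → ℕ)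
    (P : ∀ x, Matrix (Fin G ⊕ Fin G) (Fin (d x)) (IntermediateField.adjoin ℚ {w}))
    (Q : ∀ x, Matrix (Fin (d x)) (Fin G ⊕ Fin G) (IntermediateField.adjoin ℚ {w}))
    (_hQP : ∀ x, Q x * P x = 1)
    (_hc : ∀ x, ∀ X ∈ LZ Z, X * cx (P x * Q x) = cx (P x * Q x) * X)
    (_htr : ∀ X ∈ LZ Z, ∑ x, Matrix.trace (X * cx (P x * Q x)) = 0)
    (R : ∀ k : (Σ x, Fin (d x)), Matrix (Fin (d k.1)) (Fin G ⊕ Fin G) ℂ)
    (_hR : ∀ k, ∀ X ∈ LZ Z, R k * X = (cx (Q k.1) * X * cx (P k.1)) * R k)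
    (ψ : MultilinearMap ℂ (fun _ : (Σ x, Fin (d x)) => Fin G ⊕ Fin G → ℂ) ℂ)
    (_hψ : ∀ v, ψ v = ∏ x, Matrix.det (Matrix.of fun y j : Fin (d x) =>
      (R ⟨x, y⟩ *ᵥ v ⟨x, y⟩) j)) (_hB : ∑ x, d x ≤ B)
    (c : Prop) (_hs : c → 4 < ∑ x, d x → ∃ x, Odd (d x)),
    ψ ∈ NQ Z B c (Σ x, Fin (d x))

/-- Weil classes on simple sixfolds. -/
def S_Q6 : Prop :=
  ∀ (B G : ℕ) (_hB : 6 ≤ B) (Z : Matrix (Fin G) (Fin G) ℂ) (_h : PM Z) (_hq : QF Z)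
    (U : Submodule ℂ (Fin G ⊕ Fin G → ℂ)) (_hU : IrS (LZ Z) U) (_h6 : finrank ℂ U = 6)
    (_hA : ¬AltE (LZ Z) U) (_htr : tr Z U = 0) (ι : Type) [Fintype ι] [DecidableEq ι]
    (f : Basis ι ℂ U) (q : ι → (Fin G ⊕ Fin G → ℂ) →ₗ[ℂ] U)
    (_hq : ∀ y, ∀ X ∈ LZ Z, ∀ v, (q y (X *ᵥ v) : Fin G ⊕ Fin G → ℂ) =
      X *ᵥ (q y v : Fin G ⊕ Fin G → ℂ))
    (ψ : MultilinearMap ℂ (fun _ : ι => Fin G ⊕ Fin G → ℂ) ℂ)
    (_hψ : ∀ v, ψ v = f.det (fun y => q y (v y))) (c : Prop),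
    ψ ∈ NQ Z B c ι

/-- The sign of the determinant. -/
def S_DPOS : Prop :=
  ∀ (r : ℂ) (D : ℚ) (_hD : 0 < D) (_hr : r * r = -(D : ℂ)) (V N : Type) [Fintype V]
    [DecidableEq V] [Fintype N] [DecidableEq N] (m : ℕ) (_hN : Fintype.card N = 2 * m)
    (J : Matrix V V ℝ)
    (M : Matrix V V ℚ) (P : Matrix V N (IntermediateField.adjoin ℚ {r}))
    (Q : Matrix N V (IntermediateField.adjoin ℚ {r})) (_w : WD J M P Q),
    ∃ δ : ℚ, 0 < δ ∧ Matrix.det (Sg M P) = δ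

/-- The discriminant. -/
def S_DISC : Prop :=
  ∀ (r : ℂ) (D : ℚ) (_hD : 0 < D) (_hr : r * r = -(D : ℂ)) (V N : Type) [Fintype V]
    [DecidableEq V] [Fintype N] [DecidableEq N] (m : ℕ) (_hN : Fintype.card N = 2 * m)
    (J : Matrix V V ℝ)
    (M : Matrix V V ℚ) (P : Matrix V N (IntermediateField.adjoin ℚ {r}))
    (Q : Matrix N V (IntermediateField.adjoin ℚ {r})) (_w : WD J M P Q)
    (β : Basis (Fin 2) ℚ (IntermediateField.adjoin ℚ {r})) (_h0 : ((β 0 : _) : ℂ) = 1)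
    (_h1 : ((β 1 : _) : ℂ) = r) (δ a : ℚ) (_hδ : Matrix.det (Sg M P) = δ) (_ha : a ≠ 0)
    (_hda : D ^ m * δ = a ^ 2) (T : Type) [AddCommGroup T] [Module ℂ T]
    (per : (N × Fin 2 → ℚ) →+ T) (_ch : Cht per (JB β J P Q))
    (r' : IntermediateField.adjoin ℚ {r}) (_hr' : (r' : ℂ) = r),
    HasSplitDisc per m D (Pool.Agent.Y220.P.actK β N r')

end

end Pool.Agent.H926.C
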