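import Mathlib
import Pool.Agent.H926.C.Jobs
import Pool.Agent.H926.A.Disc

/-!
# The discriminant
-/

set_option linter.unusedSectionVars false

namespace Pool.Agent.H926.C

open Matrix Module Pool.Agent.Y90
open Pool.Agent.W437.HP (cK cK_mul cK_one)
open Pool.Agent.Y4.P (cx co reg kap blow WD JB MB)
open Pool.Agent.Y141.P (reg_mul reg_one blow_mul blow_one blow_neg cK_blow cK_neg reg_comm)
open Pool.Agent.Y291.P (kap_reg)
open Pool.Agent.H926.A (Sg)
open Pool.Agent.H926.A.H720D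

noncomputable section

/-- The discriminant, over a field `K` with the basis `1, r`. -/
theorem disc_aux {r : ℂ} {D : ℚ} (hD : 0 < D) (hr : r * r = -(D : ℂ)) (V N : Type) [Fintype V]
    [DecidableEq V] [Fintype N] [DecidableEq N] (m : ℕ) (hN : Fintype.card N = 2 * m)
    (K : IntermediateField ℚ ℂ) (J : Matrix V V ℝ)
    (M : Matrix V V ℚ) (P : Matrix V N K) (Q : Matrix N V K) (w : WD J M P Q)
    (β : Basis (Fin 2) ℚ K) (h0 : ((β 0 : K) : ℂ) = 1)
    (h1 : ((β 1 : K) : ℂ) = r) (δ a : ℚ) (hδ : Matrix.det (Sg M P) = δ) (ha : a ≠ 0)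
    (hda : D ^ m * δ = a ^ 2) (T : Type) [AddCommGroup T] [Module ℂ T]
    (per : (N × Fin 2 → ℚ) →+ T) (ch : Cht per (JB β J P Q)) (r' : K) (hr' : (r' : ℂ) = r) :
    HasSplitDisc per m D (Pool.Agent.Y220.P.actK β N r') := by
  obtain ⟨p1, p2, p3⟩ := wpol V N _ J M P Q w 2 β (wt D) (wt_pos hD)
  have hF := form_N β hD hr h0 h1 M P
  obtain ⟨M', hM'⟩ : ∃ X, X = MW β (wt D) M P := ⟨_, rfl⟩
  obtain ⟨I', hI'⟩ : ∃ X, X = (reg β P)ᵀ * IX M * reg β P := ⟨_, rfl⟩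
  obtain ⟨R, hR⟩ : ∃ X, X = reg β (r' • (1 : Matrix N N K)) := ⟨_, rfl⟩
  have hact : ∀ v : N × Fin 2 → ℚ, Pool.Agent.Y220.P.actK β N r' v = R *ᵥ v := by
    intro v
    rw [hR]
    rfl
  rw [← hM'] at p1 p2 p3 hF
  rw [← hI'] at hF
  have hpol := ch.polar M' p1 p2 p3
  have hcr := conj_r hD hr
  -- the multiplication by `r`
  have hcx : cx (r' • (1 : Matrix N N K)) = r • (1 : Matrix N N ℂ) := by
    ext i j
    show algebraMap K ℂ (r' * (1 : Matrix N N K) i j) = r * (1 : Matrix N N ℂ) i j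
    have h2 : algebraMap K ℂ r' = r := hr'
    rw [map_mul, Matrix.one_apply, Matrix.one_apply, h2]
    split_ifs <;> simp
  have hkR : kap β N * cK ℂ R = r • kap β N := by
    rw [hR, kap_reg, hcx, Matrix.smul_mul, Matrix.one_mul]
  have hRT : (cK ℂ R)ᵀ * (kap β N)ᵀ = r • (kap β N)ᵀ := by
    rw [← Matrix.transpose_mul, hkR, Matrix.transpose_smul]
  have hkRc : (kap β N).map (starRingEnd ℂ) * cK ℂ R = (-r) • (kap β N).map (starRingEnd ℂ) := by
    have h2 : (cK ℂ R).map (starRingEnd ℂ) = cK ℂ R := by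
      ext i j
      show starRingEnd ℂ ((R i j : ℚ) : ℂ) = ((R i j : ℚ) : ℂ)
      exact map_ratCast (starRingEnd ℂ) _
    have h3 := congrArg (fun X : Matrix N (N × Fin 2) ℂ => X.map (starRingEnd ℂ)) hkR
    simp only [Matrix.map_mul] at h3
    rw [h2] at h3
    rw [h3]
    ext i j
    show starRingEnd ℂ (r * kap β N i j) = -r * starRingEnd ℂ (kap β N i j)
    rw [map_mul, hcr]
  -- the two relations
  have g1 : (cK ℂ R)ᵀ * (cK ℂ M' + r • cK ℂ I') = r • (cK ℂ M' + r • cK ℂ I') := by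
    rw [← hF, Matrix.mul_assoc, ← Matrix.mul_assoc, hRT, Matrix.smul_mul]
  have g2 : (cK ℂ M' + r • cK ℂ I') * cK ℂ R = (-r) • (cK ℂ M' + r • cK ℂ I') := by
    rw [← hF, Matrix.mul_assoc, hkRc, Matrix.mul_smul]
  have k1 : ∀ i j, (Rᵀ * M') i j = -D * I' i j ∧ (Rᵀ * I') i j = M' i j := by
    intro i j
    have h2 := congrFun (congrFun g1 i) j
    have h3 : ((cK ℂ R)ᵀ * (cK ℂ M' + r • cK ℂ I')) i j =
        (((Rᵀ * M') i j : ℚ) : ℂ) + r * (((Rᵀ * I') i j : ℚ) : ℂ) := by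
      have h4 : (cK ℂ R)ᵀ * (cK ℂ M' + r • cK ℂ I') =
          cK ℂ (Rᵀ * M') + r • cK ℂ (Rᵀ * I') := by
        rw [cK_mul, cK_mul, Matrix.mul_add, Matrix.mul_smul]
        rfl
      rw [h4]
      rfl
    rw [h3] at h2
    have h5 : (r • (cK ℂ M' + r • cK ℂ I')) i j =
        ((-D * I' i j : ℚ) : ℂ) + r * ((M' i j : ℚ) : ℂ) := by
      show r * (((M' i j : ℚ) : ℂ) + r * ((I' i j : ℚ) : ℂ)) = _
      push_cast
      linear_combination ((I' i j : ℚ) : ℂ) * hr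
    rw [h5] at h2
    exact rat_coord hD hr h2
  have k2 : ∀ i j, (M' * R) i j = D * I' i j ∧ (I' * R) i j = -M' i j := by
    intro i j
    have h2 := congrFun (congrFun g2 i) j
    have h3 : ((cK ℂ M' + r • cK ℂ I') * cK ℂ R) i j =
        (((M' * R) i j : ℚ) : ℂ) + r * (((I' * R) i j : ℚ) : ℂ) := by
      have h4 : (cK ℂ M' + r • cK ℂ I') * cK ℂ R =
          cK ℂ (M' * R) + r • cK ℂ (I' * R) := by
        rw [cK_mul, cK_mul, Matrix.add_mul, Matrix.smul_mul]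
      rw [h4]
      rfl
    rw [h3] at h2
    have h5 : ((-r) • (cK ℂ M' + r • cK ℂ I')) i j =
        ((D * I' i j : ℚ) : ℂ) + r * ((-M' i j : ℚ) : ℂ) := by
      show -r * (((M' i j : ℚ) : ℂ) + r * ((I' i j : ℚ) : ℂ)) = _
      push_cast
      linear_combination (-((I' i j : ℚ) : ℂ)) * hr
    rw [h5] at h2
    exact rat_coord hD hr h2
  have m1 : Rᵀ * M' = -(M' * R) := by
    ext i j
    rw [Matrix.neg_apply, (k1 i j).1, (k2 i j).1, neg_mul]
  let e : Fin (2 * m) ≃ N := (finCongr hN.symm).trans (Fintype.equivFin N).symm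
  refine ⟨r, fun v w => v ⬝ᵥ (M' *ᵥ w), fun i => Pi.single (e i, 0) 1, a, 0, hr, hpol, ?_,
    Or.inl ha, ?_⟩
  · intro v u
    show (Pool.Agent.Y220.P.actK β N r' v) ⬝ᵥ (M' *ᵥ u) =
      -(v ⬝ᵥ (M' *ᵥ (Pool.Agent.Y220.P.actK β N r' u)))
    rw [hact, hact, Matrix.mulVec_mulVec]
    have h2 : (R *ᵥ v) ⬝ᵥ (M' *ᵥ u) = v ⬝ᵥ ((Rᵀ * M') *ᵥ u) := by
      rw [← Matrix.mulVec_mulVec, Matrix.dotProduct_mulVec v, Matrix.vecMul_transpose]
    rw [h2, m1, Matrix.neg_mulVec, dotProduct_neg]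
  · have hsing : ∀ (X : Matrix (N × Fin 2) (N × Fin 2) ℚ) (p q : N × Fin 2),
        (Pi.single p 1 : N × Fin 2 → ℚ) ⬝ᵥ (X *ᵥ (Pi.single q 1 : N × Fin 2 → ℚ)) = X p q := by
      intro X p q
      rw [single_dotProduct, one_mul, Matrix.mulVec_single_one]
      rfl
    have hmat : (Matrix.of fun i j : Fin (2 * m) =>
        (((Pi.single (e i, 0) 1 : N × Fin 2 → ℚ) ⬝ᵥ (M' *ᵥ
          (Pool.Agent.Y220.P.actK β N r' (Pi.single (e j, 0) 1 : N × Fin 2 → ℚ))) : ℚ) : ℂ) +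
        r * (((Pi.single (e i, 0) 1 : N × Fin 2 → ℚ) ⬝ᵥ (M' *ᵥ
          (Pi.single (e j, 0) 1 : N × Fin 2 → ℚ)) : ℚ) : ℂ)) =
        r • ((Sg M P).map (starRingEnd ℂ)).submatrix e e := by
      ext i j
      rw [Matrix.of_apply, hact, Matrix.mulVec_mulVec, hsing, hsing, (k2 _ _).1]
      have h2 := congrFun (congrFun hF (e i, 0)) (e j, 0)
      rw [mul_kapC, kapT_mul] at h2
      have h3 : Sg M P (e i) (e j) = ((M' (e i, 0) (e j, 0) : ℚ) : ℂ) +
          r * ((I' (e i, 0) (e j, 0) : ℚ) : ℂ) := by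
        refine Eq.trans ?_ h2
        show Sg M P (e i) (e j) =
          ((β 0 : K) : ℂ) * Sg M P (e i) (e j) * starRingEnd ℂ ((β 0 : K) : ℂ)
        rw [h0, map_one, mul_one, one_mul]
      show _ = r * starRingEnd ℂ (Sg M P (e i) (e j))
      rw [h3, map_add, map_mul, hcr, map_ratCast, map_ratCast]
      push_cast
      linear_combination ((I' (e i, 0) (e j, 0) : ℚ) : ℂ) * hr
    refine (congrArg Matrix.det hmat).trans ?_
    rw [Matrix.det_smul, Fintype.card_fin, Matrix.det_submatrix_equiv_self]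
    have h4 : ((Sg M P).map (starRingEnd ℂ)).det = (δ : ℂ) := by
      have h5 := RingHom.map_det (starRingEnd ℂ) (Sg M P)
      have h6 : (starRingEnd ℂ).mapMatrix (Sg M P) = (Sg M P).map (starRingEnd ℂ) := rfl
      rw [h6] at h5
      rw [← h5, hδ, map_ratCast]
    rw [h4]
    have h7 : r ^ (2 * m) = (-1) ^ m * (D : ℂ) ^ m := by
      rw [pow_mul, sq, hr, neg_pow]
    rw [h7]
    have h9 : ((D ^ m * δ : ℚ) : ℂ) = ((a ^ 2 : ℚ) : ℂ) := by rw [hda]
    push_cast at h9 ⊢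
    linear_combination (-1) ^ m * h9

/-- **S_DISC.** -/
theorem s_disc : S_DISC :=
  fun _r _D hD hr V N _ _ _ _ m hN J M P Q w β h0 h1 δ a hδ ha hda T _ _ per ch r' hr' =>
    disc_aux hD hr V N m hN _ J M P Q w β h0 h1 δ a hδ ha hda T per ch r' hr'

end

end Pool.Agent.H926.C
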