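import Mathlib
import Pool.Agent.H926.C.Jobs
import Pool.Agent.H926.A.Dpos

set_option autoImplicit false

/-!
# The sign of the determinant
-/

namespace Pool.Agent.H926.C

noncomputable section

section det

open Matrix Module

open Pool.Agent.H926.A.H196D (mset)

theorem det_one {N : Type*} [Fintype N] [DecidableEq N] {m : ℕ} (hN : Fintype.card N = 2 * m) (hm : 0 < m)
    (C : Matrix N N ℂ) (hC : C * C = -1) (ht : C.trace = 0) : C.det = 1 := by
  have hroot : ∀ x ∈ C.charpoly.roots, x = Complex.I ∨ x = -Complex.I := by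
    intro x hx
    have hx' : x ∈ spectrum ℂ C :=
      Matrix.mem_spectrum_iff_isRoot_charpoly.2 (Polynomial.isRoot_of_mem_roots hx)
    have h2 : x ^ 2 ∈ spectrum ℂ (C ^ 2) := by
      have := spectrum.pow_mem_pow C 2 hx'
      exact this
    rw [sq C, hC] at h2
    have h3 : (-1 : Matrix N N ℂ) = algebraMap ℂ (Matrix N N ℂ) (-1) := by simp
    have hne : Nonempty N := by
      rw [← Fintype.card_pos_iff, hN]; omega
    rw [h3, spectrum.scalar_eq, Set.mem_singleton_iff] at h2
    have h4 : (x - Complex.I) * (x + Complex.I) = 0 := by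
      have : (x - Complex.I) * (x + Complex.I) = x ^ 2 - Complex.I * Complex.I := by ring
      rw [this, h2, Complex.I_mul_I]; ring
    rcases mul_eq_zero.1 h4 with h5 | h5
    · left; linear_combination h5
    · right; linear_combination h5
  obtain ⟨a, b, h1, h2, h3⟩ := mset hroot
  have hs : C.charpoly.Splits := IsAlgClosed.splits _
  have h4 := Matrix.det_eq_prod_roots_charpoly_of_splits hs
  have h5 := Matrix.trace_eq_sum_roots_charpoly_of_splits hs
  have h6 : Multiset.card C.charpoly.roots = 2 * m := by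
    rw [← hs.natDegree_eq_card_roots, Matrix.charpoly_natDegree_eq_dim, hN]
  rw [ht, h2] at h5
  have h7 : ((a : ℂ) - b) = 0 := by
    rcases mul_eq_zero.1 h5.symm with h | h
    · exact h
    · exact absurd h Complex.I_ne_zero
  have h8 : a = b := by
    have : (a : ℂ) = b := by linear_combination h7
    exact_mod_cast this
  rw [h4, h3, h8, ← mul_pow]
  simp

theorem card_even {N : Type*} [Fintype N] [DecidableEq N] 
    (C : Matrix N N ℂ) (hC : C * C = -1) (ht : C.trace = 0) : ∃ m, Fintype.card N = 2 * m := by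
  rcases Nat.eq_zero_or_pos (Fintype.card N) with h0 | hpos
  · exact ⟨0, by omega⟩
  have hne : Nonempty N := Fintype.card_pos_iff.1 hpos
  have hroot : ∀ x ∈ C.charpoly.roots, x = Complex.I ∨ x = -Complex.I := by
    intro x hx
    have hx' : x ∈ spectrum ℂ C :=
      Matrix.mem_spectrum_iff_isRoot_charpoly.2 (Polynomial.isRoot_of_mem_roots hx)
    have h2 : x ^ 2 ∈ spectrum ℂ (C ^ 2) := by
      have := spectrum.pow_mem_pow C 2 hx'
      exact this
    rw [sq C, hC] at h2
    have h3 : (-1 : Matrix N N ℂ) = algebraMap ℂ (Matrix N N ℂ) (-1) := by simp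
    rw [h3, spectrum.scalar_eq, Set.mem_singleton_iff] at h2
    have h4 : (x - Complex.I) * (x + Complex.I) = 0 := by
      have : (x - Complex.I) * (x + Complex.I) = x ^ 2 - Complex.I * Complex.I := by ring
      rw [this, h2, Complex.I_mul_I]; ring
    rcases mul_eq_zero.1 h4 with h5 | h5
    · left; linear_combination h5
    · right; linear_combination h5
  obtain ⟨a, b, h1, h2, h3⟩ := mset hroot
  have hs : C.charpoly.Splits := IsAlgClosed.splits _
  have h5 := Matrix.trace_eq_sum_roots_charpoly_of_splits hs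
  have h6 : Multiset.card C.charpoly.roots = Fintype.card N := by
    rw [← hs.natDegree_eq_card_roots, Matrix.charpoly_natDegree_eq_dim]
  rw [ht, h2] at h5
  have h7 : ((a : ℂ) - b) = 0 := by
    rcases mul_eq_zero.1 h5.symm with h | h
    · exact h
    · exact absurd h Complex.I_ne_zero
  have h8 : a = b := by
    have : (a : ℂ) = b := by linear_combination h7
    exact_mod_cast this
  exact ⟨a, by omega⟩

end det

open Matrix Module Pool.Agent.W437.HC Pool.Agent.W437.HD Pool.Agent.TH504.CB Pool.Agent.W522.U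
open Pool.Agent.Y90 hiding mulA exists_lam mulA_altQ
open Pool.Agent.W437.HP (cK cK_mul cK_one)
open Pool.Agent.Y4.P (MaxM EigM cx WD JB)
open Pool.Agent.H926.A (Sg)
open Pool.Agent.H926.A
open scoped ComplexOrder

theorem wd_even {V N : Type} [Fintype V] [DecidableEq V] [Fintype N] [DecidableEq N]
    {K : IntermediateField ℚ ℂ} {J : Matrix V V ℝ} {M : Matrix V V ℚ} {P : Matrix V N K}
    {Q : Matrix N V K} (w : WD J M P Q) : ∃ m, Fintype.card N = 2 * m := by
  obtain ⟨Jc, hJc⟩ : ∃ Jc : Matrix V V ℂ, Jc = J.map (fun x : ℝ => (x : ℂ)) := ⟨_, rfl⟩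
  have hcx1 : cx Q * cx P = 1 := by
    have h1 : cx (Q * P) = cx Q * cx P := Matrix.map_mul
    rw [← h1, w.qp]
    exact Matrix.map_one _ (map_zero _) (map_one _)
  have hcx2 : cx (P * Q) = cx P * cx Q := Matrix.map_mul
  have hDJ : (DJ J).map (RingEquiv.refl ℂ) = (-Complex.I) • Jc := by
    rw [hJc]
    ext i j
    rfl
  have hcom : Jc * (cx P * cx Q) = cx P * cx Q * Jc := by
    have h1 := w.com (RingEquiv.refl ℂ)
    rw [hDJ, hcx2, Matrix.smul_mul, Matrix.mul_smul] at h1
    exact smul_right_injective _ (neg_ne_zero.2 Complex.I_ne_zero) h1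
  have htr : Matrix.trace (Jc * (cx P * cx Q)) = 0 := by
    have h1 := w.tr (RingEquiv.refl ℂ)
    rw [hDJ, hcx2, Matrix.smul_mul, Matrix.trace_smul, smul_eq_mul] at h1
    exact (mul_eq_zero.1 h1).resolve_left (neg_ne_zero.2 Complex.I_ne_zero)
  have hJJ : Jc * Jc = -1 := by
    have h1 : (J * J).map (fun x : ℝ => (x : ℂ)) = Jc * Jc := by
      rw [hJc]
      exact Matrix.map_mul (f := Complex.ofRealHom)
    rw [← h1, w.sq]
    ext i j
    rw [Matrix.map_apply, Matrix.neg_apply, Matrix.neg_apply, Matrix.one_apply, Matrix.one_apply]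
    split_ifs <;> simp
  obtain ⟨C, hC⟩ : ∃ C : Matrix N N ℂ, C = cx Q * Jc * cx P := ⟨_, rfl⟩
  have hPC : cx P * C = Jc * cx P := by
    rw [hC]
    calc cx P * (cx Q * Jc * cx P) = (cx P * cx Q * Jc) * cx P := by
          simp only [Matrix.mul_assoc]
      _ = Jc * (cx P * cx Q) * cx P := by rw [hcom]
      _ = Jc * cx P * (cx Q * cx P) := by simp only [Matrix.mul_assoc]
      _ = Jc * cx P := by rw [hcx1, Matrix.mul_one]
  have hCC : C * C = -1 := by
    calc C * C = cx Q * Jc * (cx P * C) := by rw [hC]; simp only [Matrix.mul_assoc]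
      _ = cx Q * (Jc * Jc) * cx P := by rw [hPC]; simp only [Matrix.mul_assoc]
      _ = -(cx Q * cx P) := by
        rw [hJJ, Matrix.mul_neg, Matrix.mul_one, Matrix.neg_mul]
      _ = -1 := by rw [hcx1]
  have hCt : C.trace = 0 := by
    rw [hC, Matrix.trace_mul_comm, ← Matrix.mul_assoc, Matrix.trace_mul_comm]
    exact htr
  exact card_even C hCC hCt

theorem s_dpos : S_DPOS := by
  intro r D hD hr V N _ _ _ _ m hN J M P Q w
  rcases Nat.eq_zero_or_pos m with hm | hm
  · have hE : IsEmpty N := Fintype.card_eq_zero_iff.1 (by rw [hN, hm])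
    exact ⟨1, one_pos, by rw [Matrix.det_isEmpty, Rat.cast_one]⟩
  -- notation
  obtain ⟨Jc, hJc⟩ : ∃ Jc : Matrix V V ℂ, Jc = J.map (fun x : ℝ => (x : ℂ)) := ⟨_, rfl⟩
  have hcx1 : cx Q * cx P = 1 := by
    have h1 : cx (Q * P) = cx Q * cx P := Matrix.map_mul
    rw [← h1, w.qp]
    exact Matrix.map_one _ (map_zero _) (map_one _)
  have hcx2 : cx (P * Q) = cx P * cx Q := Matrix.map_mul
  have hDJ : (DJ J).map (RingEquiv.refl ℂ) = (-Complex.I) • Jc := by
    rw [hJc]
    ext i j
    rfl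
  have hcom : Jc * (cx P * cx Q) = cx P * cx Q * Jc := by
    have h1 := w.com (RingEquiv.refl ℂ)
    rw [hDJ, hcx2, Matrix.smul_mul, Matrix.mul_smul] at h1
    exact smul_right_injective _ (neg_ne_zero.2 Complex.I_ne_zero) h1
  have htr : Matrix.trace (Jc * (cx P * cx Q)) = 0 := by
    have h1 := w.tr (RingEquiv.refl ℂ)
    rw [hDJ, hcx2, Matrix.smul_mul, Matrix.trace_smul, smul_eq_mul] at h1
    exact (mul_eq_zero.1 h1).resolve_left (neg_ne_zero.2 Complex.I_ne_zero)
  have hJJ : Jc * Jc = -1 := by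
    have h1 : (J * J).map (fun x : ℝ => (x : ℂ)) = Jc * Jc := by
      rw [hJc]
      exact Matrix.map_mul (f := Complex.ofRealHom)
    rw [← h1, w.sq]
    ext i j
    rw [Matrix.map_apply, Matrix.neg_apply, Matrix.neg_apply, Matrix.one_apply, Matrix.one_apply]
    split_ifs <;> simp
  obtain ⟨C, hC⟩ : ∃ C : Matrix N N ℂ, C = cx Q * Jc * cx P := ⟨_, rfl⟩
  have hPC : cx P * C = Jc * cx P := by
    rw [hC]
    calc cx P * (cx Q * Jc * cx P) = (cx P * cx Q * Jc) * cx P := by
          simp only [Matrix.mul_assoc]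
      _ = Jc * (cx P * cx Q) * cx P := by rw [hcom]
      _ = Jc * cx P * (cx Q * cx P) := by simp only [Matrix.mul_assoc]
      _ = Jc * cx P := by rw [hcx1, Matrix.mul_one]
  have hCC : C * C = -1 := by
    calc C * C = cx Q * Jc * (cx P * C) := by rw [hC]; simp only [Matrix.mul_assoc]
      _ = cx Q * (Jc * Jc) * cx P := by rw [hPC]; simp only [Matrix.mul_assoc]
      _ = -(cx Q * cx P) := by
        rw [hJJ, Matrix.mul_neg, Matrix.mul_one, Matrix.neg_mul]
      _ = -1 := by rw [hcx1]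
  have hCt : C.trace = 0 := by
    rw [hC, Matrix.trace_mul_comm, ← Matrix.mul_assoc, Matrix.trace_mul_comm]
    exact htr
  have hdet := det_one hN hm C hCC hCt
  -- the positive definite real matrix
  obtain ⟨S, hS⟩ : ∃ S : Matrix V V ℝ, S = Jᵀ * cK ℝ M := ⟨_, rfl⟩
  have hinv : S = -(cK ℝ M * J) := by
    rw [hS]
    exact eq_neg_of_add_eq_zero_left w.inv
  have hMt : (cK ℝ M)ᵀ = -cK ℝ M := by
    have h1 : (cK ℝ M)ᵀ = cK ℝ Mᵀ := rfl
    rw [h1, w.skew]
    ext i j
    show (((-M) i j : ℚ) : ℝ) = -((M i j : ℚ) : ℝ)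
    rw [Matrix.neg_apply]
    push_cast
    rfl
  have hSt : Sᵀ = S := by
    conv_lhs => rw [hS]
    rw [Matrix.transpose_mul, Matrix.transpose_transpose, hMt, Matrix.neg_mul, hinv]
  have hSp : ∀ x, x ≠ 0 → 0 < x ⬝ᵥ (S *ᵥ x) := by
    intro x hx
    have h1 := w.pos x hx
    rw [hS, ← Matrix.mulVec_mulVec, Matrix.dotProduct_mulVec, Matrix.vecMul_transpose]
    exact h1
  have hSc := H196D.posdef_map S hSt hSp
  have hinj : Function.Injective (cx P).mulVec := by
    intro x y hxy
    have h1 := congrArg (fun z => cx Q *ᵥ z) hxy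
    simpa only [Matrix.mulVec_mulVec, hcx1, Matrix.one_mulVec] using h1
  have hH := (hSc.conjTranspose_mul_mul_same (B := cx P) hinj).det_pos
  have hScx : S.map (fun x : ℝ => (x : ℂ)) = -(cK ℂ M * Jc) := by
    have h1 : (cK ℝ M * J).map (fun x : ℝ => (x : ℂ)) = cK ℂ M * Jc := by
      have h2 : (cK ℝ M).map (fun x : ℝ => (x : ℂ)) = cK ℂ M := by
        ext i j
        show (((M i j : ℚ) : ℝ) : ℂ) = ((M i j : ℚ) : ℂ)
        norm_cast
      rw [hJc, ← h2]
      exact Matrix.map_mul (f := Complex.ofRealHom)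
    rw [← h1, hinv]
    ext i j
    show ((-(cK ℝ M * J) i j : ℝ) : ℂ) = -(((cK ℝ M * J) i j : ℝ) : ℂ)
    push_cast
    rfl
  have hMct : (cK ℂ M)ᵀ = -cK ℂ M := by
    have h1 : (cK ℂ M)ᵀ = cK ℂ Mᵀ := rfl
    rw [h1, w.skew]
    ext i j
    show (((-M) i j : ℚ) : ℂ) = -((M i j : ℚ) : ℂ)
    rw [Matrix.neg_apply]
    push_cast
    rfl
  have hHeq : (cx P)ᴴ * S.map (fun x : ℝ => (x : ℂ)) * cx P = (Sg M P)ᵀ * C := by
    have h1 : (Sg M P)ᵀ = (cx P)ᴴ * (-cK ℂ M) * cx P := by
      unfold Sg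
      rw [Matrix.transpose_mul, Matrix.transpose_mul, Matrix.transpose_transpose, hMct,
        Matrix.mul_assoc]
      rfl
    rw [h1, hScx, Matrix.mul_assoc, Matrix.mul_assoc, hPC]
    simp only [Matrix.mul_neg, Matrix.neg_mul, Matrix.mul_assoc]
  rw [hHeq, Matrix.det_mul, Matrix.det_transpose, hdet, mul_one] at hH
  refine H196D.QA_real r D hD hr _ ?_ hH
  refine H196D.QA_det _ _ fun i j => ?_
  have h1 : Sg M P i j = ∑ x, (∑ y, (P y i : ℂ) * ((M y x : ℚ) : ℂ)) *
      (starRingEnd ℂ) (P x j : ℂ) := rfl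
  rw [h1]
  refine Subalgebra.sum_mem _ fun x _ => Subalgebra.mul_mem _ (Subalgebra.sum_mem _ fun y _ =>
    Subalgebra.mul_mem _ (H196D.QA_le r D hr _) ⟨M y x, 0, by simp⟩)
    (H196D.QA_conj r D hD hr _ (H196D.QA_le r D hr _))

end

end Pool.Agent.H926.C
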