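import Mathlib
import Pool.Agent.H926.A.Qfrm
import Pool.Agent.H926.C.Jobs

/-!
# Invariant forms and Weil classes for imaginary quadratic fields
-/

set_option linter.unusedSectionVars false

namespace Pool.Agent.H926.C

open Matrix Module Pool.Agent.W437.HC Pool.Agent.W437.HD Pool.Agent.TH504.CB Pool.Agent.W522.U
open Pool.Agent.Y90 hiding mulA exists_lam mulA_altQ
open Pool.Agent.W548.Odd hiding cv
open Pool.Agent.W437.HP (cK cK_mul cK_one)
open Pool.Agent.H204R3.CM (IsHodge)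
open Pool.Agent.H204R3.SP (Kills bil2 IsTate)
open Pool.Agent.H926.T
open Pool.Agent.H926.A

noncomputable section

variable {G B : ℕ} {c : Prop} {Z : Matrix (Fin G) (Fin G) ℂ}

/-- The alternation of an invariant form is a combination of Hodge classes. -/
theorem altQ_memq (h : PM Z) {κ : Type} [Fintype κ] [DecidableEq κ]
    {F : MultilinearMap ℂ (fun _ : κ => Fin G ⊕ Fin G → ℂ) ℂ}
    (hF : ∀ X ∈ LZ Z, act X (CF F) = 0)
    (hR : ∀ r : (Fin G ⊕ Fin G → ℚ) [⋀^κ]→ₗ[ℚ] ℚ, IsHodge (perOne Z) r → QR (perOne Z) B c κ r) :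
    altQ F ∈ RCq (perOne Z) B c κ := by
  obtain ⟨m, c', l, hl⟩ := altQ_expand F
  have h1 : altQ F = ∑ j, c' j • fun v : κ → (Fin G ⊕ Fin G → ℚ) => ((ratA F (l j) v : ℚ) : ℂ) := by
    funext v
    rw [hl v, Finset.sum_apply]
    rfl
  rw [h1]
  refine Submodule.sum_mem _ fun j _ => Submodule.smul_mem _ _ ?_
  exact RCq_of (hR _ (h.cht.hodge_rat gal_LZ DZ_mem hF (l j)))

theorem pair_memq (h : PM Z) (b : (Fin G ⊕ Fin G → ℂ) →ₗ[ℂ] (Fin G ⊕ Fin G → ℂ) →ₗ[ℂ] ℂ)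
    (hb : ∀ g u v, b (RZ Z g u) (RZ Z g v) = (1 : Gam (GG (LZ Z)) →* ℂ) g * b u v) :
    bil2 b ∈ NQ Z B c (Fin 2) := by
  intro i1 i2
  obtain rfl : i1 = Fin.fintype 2 := Subsingleton.elim _ _
  obtain rfl : i2 = instDecidableEqFin 2 := Subsingleton.elim _ _
  refine altQ_memq h (fun X hX => act_of_kills fun v => ?_) fun r hr =>
    QR.divisor (κ := Fin 2) (Nat.card_fin 2) r hr
  have h1 := (rz_bil h stab_top stab_top b).1 (fun g u _ v _ => by
    rw [hb, MonoidHom.one_apply, one_mul]) X hX (v 0) trivial (v 1) trivial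
  rw [Fin.sum_univ_two]
  exact h1

/-- The alternation of an alternating form. -/
theorem altQ_altq (_h : PM Z) {κ : Type} [Fintype κ] [DecidableEq κ]
    (f : (Fin G ⊕ Fin G → ℚ) [⋀^κ]→ₗ[ℚ] ℚ)
    (hf : altQ (evalM (cst ℂ (CF f.toMultilinearMap))) ∈ RCq (perOne Z) B c κ) :
    QR (perOne Z) B c κ f := by
  refine RCq_descent ?_
  have h1 : (fun v : κ → (Fin G ⊕ Fin G → ℚ) => ((f v : ℚ) : ℂ)) =
      ((Fintype.card (Equiv.Perm κ) : ℂ))⁻¹ • altQ (evalM (cst ℂ (CF f.toMultilinearMap))) := by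
    funext v
    have h2 : ∀ σ : Equiv.Perm κ, ((Equiv.Perm.sign σ : ℤ) : ℂ) *
        evalM (cst ℂ (CF f.toMultilinearMap)) (fun k => cv (v (σ k))) = ((f v : ℚ) : ℂ) := by
      intro σ
      have h3 : evalM (cst ℂ (CF f.toMultilinearMap)) (fun k => cv (v (σ k))) =
          ((f (fun k => v (σ k)) : ℚ) : ℂ) := by
        have h4 := CF_eval f.toMultilinearMap (fun k => v (σ k))
        rw [evalM_apply]
        change _ = ((f.toMultilinearMap (fun k => v (σ k)) : ℚ) : ℂ)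
        rw [h4, evalF_castK]
        rfl
      rw [h3, show (fun k => v (σ k)) = v ∘ σ from rfl, AlternatingMap.map_perm, Units.smul_def,
        zsmul_eq_mul]
      push_cast
      rw [← mul_assoc, ← Int.cast_mul, ← Units.val_mul, Int.units_mul_self, Units.val_one,
        Int.cast_one, one_mul]
    rw [Pi.smul_apply, smul_eq_mul]
    change _ = _ * altQ (evalM (cst ℂ (CF f.toMultilinearMap))) v
    unfold altQ
    rw [Finset.sum_congr rfl fun σ _ => h2 σ, Finset.sum_const, nsmul_eq_mul, Finset.card_univ,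
      ← mul_assoc, inv_mul_cancel₀, one_mul]
    exact_mod_cast Fintype.card_ne_zero
  rw [h1]
  exact Submodule.smul_mem _ _ hf

theorem bil_memq (h : PM Z) (f : (Fin G ⊕ Fin G → ℂ) →ₗ[ℂ] (Fin G ⊕ Fin G → ℂ) →ₗ[ℂ] ℂ)
    (hf : ∀ X ∈ LZ Z, ∀ u v, f (X *ᵥ u) v + f u (X *ᵥ v) = 0) : bil2 f ∈ NQ Z B c (Fin 2) := by
  intro i1 i2
  obtain rfl : i1 = Fin.fintype 2 := Subsingleton.elim _ _
  obtain rfl : i2 = instDecidableEqFin 2 := Subsingleton.elim _ _
  refine altQ_memq h (fun X hX => act_of_kills fun v => ?_) fun r hr =>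
    QR.divisor (κ := Fin 2) (Nat.card_fin 2) r hr
  rw [Fin.sum_univ_two]
  exact hf X hX (v 0) (v 1)


/-- All forms killed by the Lie algebra belong to the system. -/
def AllFq (Z : Matrix (Fin G) (Fin G) ℂ) (B : ℕ) (c : Prop) : Prop :=
  ∀ (κ : Type) [Fintype κ] [DecidableEq κ]
    (ψ : MultilinearMap ℂ (fun _ : κ => Fin G ⊕ Fin G → ℂ) ℂ),
    (∀ X ∈ LZ Z, Kills (ph (Fin G ⊕ Fin G) X) ψ) → ψ ∈ NQ Z B c κ

/-- **Hodge classes belong to the ring: period matrices.** -/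
theorem hodge_pmq (hA : AllFq Z B c) (h : PM Z) {κ : Type} [Finite κ] (f : (Fin G ⊕ Fin G → ℚ) [⋀^κ]→ₗ[ℚ] ℚ)
    (hf : IsHodge (perOne Z) f) : QR (perOne Z) B c κ f := by
  classical
  let _ : Fintype κ := Fintype.ofFinite κ
  refine altQ_altq h f ?_
  have h2 : evalM (cst ℂ (CF f.toMultilinearMap)) ∈ NQ Z B c κ :=
    hA κ _ (hodge_kills h hf)
  exact h2 _ _

end

end Pool.Agent.H926.C
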