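import Mathlib
import Pool.Agent.H926.C.Jobs
import Pool.Agent.H926.A.Qpull

/-!
# Pull-backs of the determinant form: imaginary quadratic fields
-/

set_option linter.unusedSectionVars false

namespace Pool.Agent.H926.C

open Matrix Module Pool.Agent.W437.HC Pool.Agent.W437.HD Pool.Agent.TH504.CB Pool.Agent.W522.U
open Pool.Agent.Y90 hiding mulA exists_lam mulA_altQ
open Pool.Agent.W548.Odd hiding cv
open Pool.Agent.W437.HP (cK cK_mul cK_one)
open Pool.Agent.H204R3.CM (IsHodge)
open Pool.Agent.Y4.P (cx co reg kap blow WD JB MB detK)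
open Pool.Agent.Y220.P
open Pool.Agent.H926.A (Sg sq_ne_rat integral_r minpoly_r fd_adjoin finrank_adjoin_two exists_basis2)

noncomputable section

/-- The pull-backs of the determinant form belong to the ring. -/
theorem pullq (hDisc : S_DISC) {B₀ : ℕ} {r : ℂ} {D : ℚ} (hD : 0 < D) (hr : r * r = -(D : ℂ)) (V N : Type)
    [Fintype V] [DecidableEq V] [Fintype N] [DecidableEq N] (hNB : Fintype.card N ≤ B₀)
    (J : Matrix V V ℝ) (M : Matrix V V ℚ) (P : Matrix V N (IntermediateField.adjoin ℚ {r}))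
    (Q : Matrix N V (IntermediateField.adjoin ℚ {r})) (w : WD J M P Q) (c : Prop)
    (hc : c → 4 < Fintype.card N → ∃ (m : ℕ) (δ a : ℚ), Fintype.card N = 2 * m ∧
      Matrix.det (Sg M P) = δ ∧ a ≠ 0 ∧ D ^ m * δ = a ^ 2) (G : ℕ)
    (Z : Matrix (Fin G) (Fin G) ℂ) (h : PM Z) (A : Matrix V (Fin G ⊕ Fin G) ℚ)
    (hA : cK ℂ A * DZ Z = DJ J * cK ℂ A) :
    (fun v : N → Fin G ⊕ Fin G → ℚ =>
      Matrix.det (Matrix.of fun k j : N => ((cx Q * cK ℂ A) *ᵥ cv (v k)) j)) ∈
        RCq (perOne Z) B₀ c N := by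
  have hS := Pool.Agent.Y141.P.jstr
  have hC := Pool.Agent.Y317.P.Cht.x
  have hKi := Pool.Agent.Y291.P.jkill
  have _ := fd_adjoin hD hr
  obtain ⟨β, hβ0, hβ1⟩ := exists_basis2 hD hr
  obtain ⟨s1, s2, s3, s4, s5, s6, s7⟩ := hS V N _ J M P Q w 2 β
  obtain ⟨T, i1, i2, i3, per, ch⟩ := hC (N × Fin 2) (JB β J P Q) s1
  obtain ⟨⟨L, hL1, hL2, hL3⟩, hbal⟩ := hKi V N _ J M P Q w 2 β
  have hpol : IsPolarization per (fun v w => v ⬝ᵥ (MB β M P *ᵥ w)) :=
    ch.polar (MB β M P) s4 s5 s6
  have hav : St.IsAV per := (ch.av ⟨_, hpol⟩).isAV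
  have hH : ∀ l, IsHodge per (ratA (detK (N := N) β) l) := ch.hodge_rat hL1 hL2 hL3
  let e : N ≃ Fin (Fintype.card N) := Fintype.equivFin N
  obtain ⟨r', hr'⟩ : ∃ r' : IntermediateField.adjoin ℚ {r}, (r' : ℂ) = r :=
    ⟨⟨r, IntermediateField.mem_adjoin_simple_self ℚ r⟩, rfl⟩
  have hrr : r' * r' = algebraMap ℚ _ (-D) := by
    apply Subtype.ext
    change (r' : ℂ) * (r' : ℂ) = _
    rw [hr', hr]
    change -(D : ℂ) = ((-D : ℚ) : ℂ)
    push_cast
    rfl
  have hW : ∀ l, IsQWeil c per (Fintype.card N)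
      ((ratA (detK (N := N) β) l).domDomCongr e) := by
    intro l
    refine ⟨isHodge_congr e (hH l), D, actK β N r', hD, ?_, fun v => ?_, ?_, fun v k k' => ?_,
      fun c1 hN6 => ?_⟩
    · obtain ⟨Ψ, hΨ⟩ := ch.hom ch (R := reg β (r' • (1 : Matrix N N _))) (DJ_of_real' (s7 r'))
      exact ⟨Ψ, fun v => hΨ v⟩
    · have h1 : actK β N r' (actK β N r' v) = actK β N (r' * r') v := by
        rw [map_mul]
        rfl
      rw [h1, hrr]
      have h2 : actK β N (algebraMap ℚ _ (-D)) = (-D) • (1 : Module.End ℚ (N × Fin 2 → ℚ)) := by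
        rw [Algebra.algebraMap_eq_smul_one, map_rat_smul, map_one]
      rw [h2, LinearMap.smul_apply, neg_smul]
      rfl
    · rw [finrank_fintype_fun_eq_card, Fintype.card_prod, Fintype.card_fin, mul_comm]
    · have key : ∀ k, (ratA (detK (N := N) β) l).domDomCongr e
          (Function.update v k (actK β N r' (v k))) =
          ratA (detK (N := N) β) l (Function.update (fun j => v (e j)) (e.symm k)
            (reg β (r' • (1 : Matrix N N _)) *ᵥ (fun j => v (e j)) (e.symm k))) := by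
        intro k
        rw [AlternatingMap.domDomCongr_apply]
        congr 1
        funext j
        rw [Function.comp_apply]
        by_cases hj : j = e.symm k
        · subst hj
          rw [Equiv.apply_symm_apply, Function.update_self, Function.update_self]
          show _ = reg β (r' • (1 : Matrix N N _)) *ᵥ v (e (e.symm k))
          rw [Equiv.apply_symm_apply]
          rfl
        · rw [Function.update_of_ne hj, Function.update_of_ne]
          intro h'
          exact hj (by rw [← h', Equiv.symm_apply_apply])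
      rw [key k, key k']
      exact hbal l r' _ _ _
    · obtain ⟨m, δ, a, e0, e1, e2, e3⟩ := hc c1 hN6
      exact Or.inl ⟨m, e0,
        hDisc r D hD hr V N m e0 J M P Q w β hβ0 hβ1 δ a e1 e2 e3 T per ch r' hr'⟩
  -- the homomorphism
  have hRR : cK ℝ (co β (Q * A.map (algebraMap ℚ (IntermediateField.adjoin ℚ {r})))) * JR Z =
      JB β J P Q * cK ℝ (co β (Q * A.map (algebraMap ℚ (IntermediateField.adjoin ℚ {r})))) := by
    have h1 : cK ℝ A * JR Z = J * cK ℝ A := real_of_DJ (by rw [DJ_JR]; exact hA)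
    rw [reg_mul_co, cK_mul, ← Matrix.mul_assoc, s3, Matrix.mul_assoc, Matrix.mul_assoc,
      blow_co β J (JR Z) A h1]
  obtain ⟨Ψ, hΨ⟩ := h.cht.hom ch (R := co β (Q * A.map (algebraMap ℚ (IntermediateField.adjoin ℚ {r})))) (DJ_of_real' hRR)
  have hpull : ∀ l, QR (perOne Z) B₀ c N ((ratA (detK (N := N) β) l).compLinearMap
      (Matrix.toLin' (co β (Q * A.map (algebraMap ℚ (IntermediateField.adjoin ℚ {r})))))) := by
    intro l
    have h3 := QR.weil (per := perOne Z) hav hNB _ (hW l)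
      (Matrix.toLin' (co β (Q * A.map (algebraMap ℚ (IntermediateField.adjoin ℚ {r}))))) ⟨Ψ, fun v => hΨ v⟩
    have h4 := h3.reindex e.symm
    have h5 : ((((ratA (detK (N := N) β) l).domDomCongr e).compLinearMap
        (Matrix.toLin' (co β (Q * A.map (algebraMap ℚ (IntermediateField.adjoin ℚ {r})))))).domDomCongr e.symm) =
        (ratA (detK (N := N) β) l).compLinearMap
          (Matrix.toLin' (co β (Q * A.map (algebraMap ℚ (IntermediateField.adjoin ℚ {r}))))) := by
      ext v
      rw [AlternatingMap.domDomCongr_apply, AlternatingMap.compLinearMap_apply,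
        AlternatingMap.domDomCongr_apply, AlternatingMap.compLinearMap_apply]
      congr 1
      funext k
      simp
    rw [← h5]
    exact h4
  obtain ⟨r₀, c', l, hl⟩ := altQ_expand (detK (N := N) β)
  have hc0 : (Fintype.card (Equiv.Perm N) : ℂ) ≠ 0 := by exact_mod_cast Fintype.card_ne_zero
  have h1 : (fun v : N → Fin G ⊕ Fin G → ℚ =>
      Matrix.det (Matrix.of fun k j : N => ((cx Q * cK ℂ A) *ᵥ cv (v k)) j)) =
      (Fintype.card (Equiv.Perm N) : ℂ)⁻¹ • ∑ j, c' j • fun v : N → Fin G ⊕ Fin G → ℚ =>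
        ((((ratA (detK (N := N) β) (l j)).compLinearMap
          (Matrix.toLin' (co β (Q * A.map (algebraMap ℚ (IntermediateField.adjoin ℚ {r})))))) v : ℚ) : ℂ) := by
    funext v
    have h2 := altQ_detK β (Q * A.map (algebraMap ℚ (IntermediateField.adjoin ℚ {r}))) v
    rw [cx_mul_cast] at h2
    rw [Pi.smul_apply, Finset.sum_apply, smul_eq_mul]
    have h3 := hl (fun k => co β (Q * A.map (algebraMap ℚ (IntermediateField.adjoin ℚ {r}))) *ᵥ v k)
    rw [h2] at h3
    rw [eq_inv_mul_iff_mul_eq₀ hc0, h3]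
    rfl
  rw [h1]
  refine Submodule.smul_mem _ _ (Submodule.sum_mem _ fun j _ => Submodule.smul_mem _ _ ?_)
  exact RCq_of (hpull (l j))

end

end Pool.Agent.H926.C
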