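import Mathlib
import Pool.Agent.H926.B.Det
import Pool.Agent.H926.A.Q6
import Pool.Agent.H926.C.Q0

/-!
# Real multiplication, and pairs of irreducible submodules which are not symplectic
-/

set_option autoImplicit false
set_option linter.unusedSectionVars false

namespace Pool.Agent.H926.C

open Matrix Module Pool.Agent.W437.HC Pool.Agent.W437.HD Pool.Agent.TH504.CB Pool.Agent.W522.U
open Pool.Agent.Y90 hiding mulA exists_lam mulA_altQ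
open Pool.Agent.W548.Odd hiding cv
open Pool.Agent.W437.HP (cK cK_mul cK_one)
open Pool.Agent.Y4.P (MaxM EigM cx mem_eigM om_real)
open Pool.Agent.H926.A
open Pool.Agent.H926.B (side Sm finrank_inj' tr_equiv)

noncomputable section

section rm

variable {a : ℕ} {Z : Matrix (Fin a) (Fin a) ℂ}

/-- Real multiplication on period matrices. -/
def RMM (Z : Matrix (Fin a) (Fin a) ℂ) : Prop :=
  ∃ φ, MaxM Z φ ∧ ∀ z ∈ (minpoly ℚ φ).aroots ℂ, z.im = 0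

theorem rmm_of (h : PM Z) (hr : HasRealMultiplication (perOne Z)) : RMM Z := by
  obtain ⟨b, ⟨Ψ, hΨ⟩, hmax, hreal⟩ := hr
  obtain ⟨e, he⟩ : ∃ e : ((Fin a ⊕ Fin a → ℚ) →ₗ[ℚ] (Fin a ⊕ Fin a → ℚ)) ≃ₐ[ℚ]
      Matrix (Fin a ⊕ Fin a) (Fin a ⊕ Fin a) ℚ, e = LinearMap.toMatrixAlgEquiv' := ⟨_, rfl⟩
  have hev : ∀ (x : (Fin a ⊕ Fin a → ℚ) →ₗ[ℚ] (Fin a ⊕ Fin a → ℚ)) v, e x *ᵥ v = x v := by
    intro x v
    rw [he]
    exact LinearMap.toMatrix'_mulVec x v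
  refine ⟨e b, ⟨?_, fun ψ hψ hc => ?_⟩, ?_⟩
  · exact Pool.Agent.Y261.P.comm_of_tangent (φ := e b) (Ψ := Ψ) h
      (fun v => by rw [hΨ, hev])
  · obtain ⟨c, rfl⟩ := e.surjective ψ
    have h1 : St.IsHom (perOne Z) (perOne Z) c := by
      obtain ⟨Ψ', hΨ'⟩ := h.cht.hom h.cht (R := e c) (by rw [DJ_JR]; exact hψ)
      exact ⟨Ψ', fun v => by rw [← hev c v]; exact hΨ' v⟩
    have h2 : c ∘ₗ b = b ∘ₗ c := by
      apply e.injective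
      change e (c * b) = e (b * c)
      rw [map_mul, map_mul]
      exact hc
    have h3 := hmax c h1 h2
    have h4 : e c ∈ (Algebra.adjoin ℚ ({b} : Set _)).map (e : _ →ₐ[ℚ] _) := ⟨c, h3, rfl⟩
    rw [AlgHom.map_adjoin, Set.image_singleton] at h4
    exact h4
  · rw [minpoly.algEquiv_eq e b]
    exact hreal

end rm

variable {G : ℕ} {Z : Matrix (Fin G) (Fin G) ℂ} {U U' : Submodule ℂ (Fin G ⊕ Fin G → ℂ)}

/-- Irreducible submodules which belong to a simple factor with real multiplication are symplectic. -/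
theorem alt_of_rmm {a : ℕ} {Z' : Matrix (Fin a) (Fin a) ℂ}
    {E : Matrix (Fin G ⊕ Fin G) (Fin a ⊕ Fin a) ℚ} {F : Matrix (Fin a ⊕ Fin a) (Fin G ⊕ Fin G) ℚ}
    (hf : Fac Z Z' E F) (h' : PM Z') (hs : IsSimpleAV Z') (ha : 0 < a)
    (hU' : IrS (LZ Z') (U.map (ml F))) (hr : RMM Z') : AltE (LZ Z) U := by
  by_contra hA
  obtain ⟨φ, hφ, hreal⟩ := hr
  obtain ⟨hsp, hiso, -⟩ := Pool.Agent.Y261.P.jspec a Z' h' hs ha φ hφ
  obtain ⟨z, hz, T, hT1, hT2, hT3⟩ := hiso _ hU'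
  have hisot : ∀ u ∈ EigM φ z, ∀ v ∈ EigM φ z, om a u v = 0 := by
    intro u hu v hv
    by_contra huv
    refine hA ⟨(om a).compl₁₂ (T.comp (ml F)) (T.comp (ml F)), ?_, ?_, ?_⟩
    · intro X hX u _ v _
      change om a (T (ml F (X *ᵥ u))) (T (ml F v)) + om a (T (ml F u)) (T (ml F (X *ᵥ v))) = 0
      have hX' := (hf.comp hX).1
      rw [hf.act hX, hf.act hX, hT1 _ hX', hT1 _ hX']
      exact h'.om_sp hX' _ _
    · rw [← hT3] at hu hv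
      obtain ⟨_, ⟨u0, hu0, rfl⟩, rfl⟩ := hu
      obtain ⟨_, ⟨v0, hv0, rfl⟩, rfl⟩ := hv
      exact ⟨u0, hu0, v0, hv0, huv⟩
    · intro u _ v _
      exact om_anti _ _
  obtain ⟨u, hu, v, hv, huv⟩ := om_real h' (hreal z hz) (hsp z hz).1
  exact huv (hisot u hu v hv)

/-- Simple factors of `Z` without real multiplication have dimension at most `g`, and the same for the
sum of the dimensions of two such simple factors which are not isogenous. -/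
def SmR {G : ℕ} (Z : Matrix (Fin G) (Fin G) ℂ) (g : ℕ) : Prop :=
  (∀ (a : ℕ) (Z₁ : Matrix (Fin a) (Fin a) ℂ) (E₁ : Matrix (Fin G ⊕ Fin G) (Fin a ⊕ Fin a) ℚ)
    (F₁ : Matrix (Fin a ⊕ Fin a) (Fin G ⊕ Fin G) ℚ), Fac Z Z₁ E₁ F₁ → PM Z₁ → IsSimpleAV Z₁ →
      0 < a → ¬RMM Z₁ → a ≤ g) ∧
  ∀ (a b : ℕ) (Z₁ : Matrix (Fin a) (Fin a) ℂ) (Z₂ : Matrix (Fin b) (Fin b) ℂ)
    (E₁ : Matrix (Fin G ⊕ Fin G) (Fin a ⊕ Fin a) ℚ) (F₁ : Matrix (Fin a ⊕ Fin a) (Fin G ⊕ Fin G) ℚ)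
    (E₂ : Matrix (Fin G ⊕ Fin G) (Fin b ⊕ Fin b) ℚ) (F₂ : Matrix (Fin b ⊕ Fin b) (Fin G ⊕ Fin G) ℚ),
    Fac Z Z₁ E₁ F₁ → Fac Z Z₂ E₂ F₂ → PM Z₁ → PM Z₂ → IsSimpleAV Z₁ → IsSimpleAV Z₂ → 0 < a →
      0 < b → ¬RMM Z₁ → ¬RMM Z₂ →
      (∀ R : Matrix (Fin b ⊕ Fin b) (Fin a ⊕ Fin a) ℚ, cK ℂ R * DZ Z₁ = DZ Z₂ * cK ℂ R →
        R = 0) → a + b ≤ g

theorem Sm.smr {g : ℕ} (h : Sm Z g) : SmR Z g :=
  ⟨fun a Z₁ E₁ F₁ hf h₁ hs ha _ => h.1 a Z₁ E₁ F₁ hf h₁ hs ha,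
    fun a b Z₁ Z₂ E₁ F₁ E₂ F₂ hf₁ hf₂ h₁ h₂ hs₁ hs₂ ha hb _ _ hR =>
      h.2 a b Z₁ Z₂ E₁ F₁ E₂ F₂ hf₁ hf₂ h₁ h₂ hs₁ hs₂ ha hb hR⟩

/-- The simple factor which belongs to an irreducible submodule. -/
theorem sideR (h : PM Z) (hq : QF Z) (hU : IrS (LZ Z) U) (hA : ¬AltE (LZ Z) U) :
    ∃ (a : ℕ) (Z₁ : Matrix (Fin a) (Fin a) ℂ) (E : Matrix (Fin G ⊕ Fin G) (Fin a ⊕ Fin a) ℚ)
      (F : Matrix (Fin a ⊕ Fin a) (Fin G ⊕ Fin G) ℚ)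
      (T : (Fin a ⊕ Fin a → ℂ) →ₗ[ℂ] (Fin a ⊕ Fin a → ℂ)), Fac Z Z₁ E F ∧ PM Z₁ ∧
        IsSimpleAV Z₁ ∧ 0 < a ∧ (∀ u ∈ U, ml F u = 0 → u = 0) ∧
        (∀ X ∈ LZ Z₁, ∀ v, T (X *ᵥ v) = X *ᵥ T v) ∧ (∀ u ∈ U, T (ml F u) = 0 → u = 0) ∧
        finrank ℂ U = a ∧ (∀ u ∈ U, ∀ v ∈ U, om a (T (ml F u)) (T (ml F v)) = 0) ∧ ¬RMM Z₁ := by
  obtain ⟨a, Z', E, F, T, hf, h', hs, ha, hi, hT1, h1, h2, h3⟩ := side h hq hU hA
  refine ⟨a, Z', E, F, T, hf, h', hs, ha, hi, hT1, h1, h2, h3, fun hr => ?_⟩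
  refine hA (alt_of_rmm hf h' hs ha ?_ hr)
  obtain ⟨u, hu, hu0⟩ := Submodule.exists_mem_ne_zero_of_ne_bot hU.1
  exact hf.irr hU ⟨u, hu, fun h4 => hu0 (hi u hu h4)⟩

theorem dim_leR {g : ℕ} (h : PM Z) (hq : QF Z) (hg : SmR Z g) (hU : IrS (LZ Z) U)
    (hA : ¬AltE (LZ Z) U) : finrank ℂ U ≤ g := by
  obtain ⟨a, Z₁, E₁, F₁, T₁, hf₁, h₁, hs₁, ha, hi₁, hT₁, hj₁, hd₁, ho₁, hr₁⟩ := sideR h hq hU hA
  rw [hd₁]
  exact hg.1 a Z₁ E₁ F₁ hf₁ h₁ hs₁ ha hr₁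

/-- **Pairs of submodules** without invariant pairings: they have the same dimension and trace, or the
sum of the dimensions is small. -/
theorem pairR (h : PM Z) (hq : QF Z) {g : ℕ} (hg : SmR Z g) (hU : IrS (LZ Z) U)
    (hU' : IrS (LZ Z) U') (hA : ¬AltE (LZ Z) U) (hA' : ¬AltE (LZ Z) U')
    (hno : ∀ b : (Fin G ⊕ Fin G → ℂ) →ₗ[ℂ] (Fin G ⊕ Fin G → ℂ) →ₗ[ℂ] ℂ,
      (∀ X ∈ LZ Z, ∀ u ∈ U, ∀ v ∈ U', b (X *ᵥ u) v + b u (X *ᵥ v) = 0) →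
        ∀ u ∈ U, ∀ v ∈ U', b u v = 0) :
    (finrank ℂ U = finrank ℂ U' ∧ tr Z U = tr Z U') ∨ finrank ℂ U + finrank ℂ U' ≤ g := by
  obtain ⟨a, Z₁, E₁, F₁, T₁, hf₁, h₁, hs₁, ha, hi₁, hT₁, hj₁, hd₁, ho₁, hr₁⟩ := sideR h hq hU hA
  obtain ⟨b, Z₂, E₂, F₂, T₂, hf₂, h₂, hs₂, hb, hi₂, -, -, hd₂, -, hr₂⟩ := sideR h hq hU' hA'
  by_cases hR : ∀ R : Matrix (Fin b ⊕ Fin b) (Fin a ⊕ Fin a) ℚ,
      cK ℂ R * DZ Z₁ = DZ Z₂ * cK ℂ R → R = 0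
  · right
    rw [hd₁, hd₂]
    exact hg.2 a b Z₁ Z₂ E₁ F₁ E₂ F₂ hf₁ hf₂ h₁ h₂ hs₁ hs₂ ha hb hr₁ hr₂ hR
  left
  push Not at hR
  obtain ⟨R, hR, hR0⟩ := hR
  obtain ⟨hab, N, hN, hNi⟩ := Pool.Agent.H926.isog h₁ h₂ hs₁ hs₂ hR hR0
  subst hab
  -- the map to the first factor
  obtain ⟨S, hS⟩ : ∃ S : (Fin G ⊕ Fin G → ℂ) →ₗ[ℂ] (Fin a ⊕ Fin a → ℂ),
      S = (ml N).comp (ml F₂) := ⟨_, rfl⟩
  have hSv : ∀ v, S v = ml N (ml F₂ v) := fun v => by rw [hS]; rfl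
  have hSi : ∀ u ∈ U', S u = 0 → u = 0 := fun u hu h1 => by
    rw [hSv] at h1
    exact hi₂ u hu (hNi _ h1)
  have hm₂ : ∀ (σ : ℂ ≃+* ℂ) v, ml F₂ (DS Z σ *ᵥ v) = DS Z₂ σ *ᵥ ml F₂ v := fun σ v => by
    rw [ml_apply, ml_apply, mulVec_mulVec, hf₂.fds, ← mulVec_mulVec]
  have hmN : ∀ (σ : ℂ ≃+* ℂ) v, ml N (DS Z₂ σ *ᵥ v) = DS Z₁ σ *ᵥ ml N v := fun σ v => by
    rw [ml_apply, ml_apply, mulVec_mulVec, hN.fds, ← mulVec_mulVec]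
  have hSσ : ∀ (σ : ℂ ≃+* ℂ) v, S (DS Z σ *ᵥ v) = DS Z₁ σ *ᵥ S v := fun σ v => by
    rw [hSv, hSv, hm₂, hmN]
  obtain ⟨P, hP⟩ : ∃ P : (Fin G ⊕ Fin G → ℂ) →ₗ[ℂ] (Fin a ⊕ Fin a → ℂ),
      P = T₁.comp (ml F₁) := ⟨_, rfl⟩
  have hPv : ∀ v, P v = T₁ (ml F₁ v) := fun v => by rw [hP]; rfl
  have hPσ : ∀ (σ : ℂ ≃+* ℂ) v, P (DS Z σ *ᵥ v) = DS Z₁ σ *ᵥ P v := fun σ v => by
    rw [hPv, hPv, ml_apply, ml_apply, mulVec_mulVec, hf₁.fds, ← mulVec_mulVec, hT₁ _ (DS_mem σ)]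
  have hPi : ∀ u ∈ U, P u = 0 → u = 0 := fun u hu h1 => by
    rw [hPv] at h1
    exact hj₁ u hu h1
  -- the pairing is zero
  have h0 : ∀ u ∈ U, ∀ v ∈ U', om a (P u) (S v) = 0 := by
    refine hno ((om a).compl₁₂ P S) ?_
    have key : LZ Z ≤
        { carrier := {X | X ∈ LZ Z ∧ ∀ u ∈ U, ∀ v ∈ U',
            om a (P (X *ᵥ u)) (S v) + om a (P u) (S (X *ᵥ v)) = 0}
          add_mem' := fun {X Y} hX hY => ⟨Submodule.add_mem _ hX.1 hY.1, fun u hu v hv => by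
            rw [add_mulVec, add_mulVec, map_add, map_add, map_add, LinearMap.add_apply, map_add]
            linear_combination hX.2 u hu v hv + hY.2 u hu v hv⟩
          zero_mem' := ⟨Submodule.zero_mem _, fun u _ v _ => by
            rw [zero_mulVec, zero_mulVec, map_zero, map_zero, map_zero, LinearMap.zero_apply,
              map_zero, add_zero]⟩
          smul_mem' := fun c X hX => ⟨Submodule.smul_mem _ c hX.1, fun u hu v hv => by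
            rw [smul_mulVec, smul_mulVec, map_smul, map_smul, map_smul, LinearMap.smul_apply,
              map_smul, smul_eq_mul, smul_eq_mul]
            linear_combination c * hX.2 u hu v hv⟩ : Submodule ℂ _ } := by
      refine LZ_le (fun σ => ⟨DS_mem σ, fun u _ v _ => ?_⟩) fun X hX Y hY => ⟨LZ_br hX.1 hY.1,
        fun u hu v hv => ?_⟩
      · rw [hPσ, hSσ]
        exact h₁.om_sp (DS_mem σ) _ _
      · have k1 := hX.2 (Y *ᵥ u) (hU.2.1 Y hY.1 u hu) v hv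
        have k2 := hX.2 u hu (Y *ᵥ v) (hU'.2.1 Y hY.1 v hv)
        have k3 := hY.2 (X *ᵥ u) (hU.2.1 X hX.1 u hu) v hv
        have k4 := hY.2 u hu (X *ᵥ v) (hU'.2.1 X hX.1 v hv)
        rw [sub_mulVec, sub_mulVec, ← mulVec_mulVec, ← mulVec_mulVec, ← mulVec_mulVec,
          ← mulVec_mulVec, map_sub, map_sub, map_sub, LinearMap.sub_apply, map_sub]
        linear_combination k1 - k3 + k2 - k4
    exact fun X hX => (key hX).2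
  -- the image of the second submodule
  obtain ⟨W, hW⟩ : ∃ W, W = U.map P := ⟨_, rfl⟩
  have hfW : finrank ℂ W = a := by
    rw [hW]
    exact (finrank_inj' P hPi).trans hd₁
  have hWo : ∀ x ∈ W, ∀ y ∈ W, om a x y = 0 := by
    rw [hW]
    rintro _ ⟨u, hu, rfl⟩ _ ⟨v, hv, rfl⟩
    rw [hPv, hPv]
    exact ho₁ u hu v hv
  have hle : U'.map S ≤ W := by
    rintro _ ⟨v, hv, rfl⟩
    have h3 : ∀ x ∈ W, om a x (S v) = 0 := by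
      rw [hW]
      rintro _ ⟨u, hu, rfl⟩
      exact h0 u hu v hv
    have h4 : finrank ℂ ↥(W ⊔ Submodule.span ℂ {S v}) ≤ a := by
      refine Pool.Agent.H926.A.Q643.iso_dim _ ?_
      intro x hx y hy
      obtain ⟨x1, hx1, x2, hx2, rfl⟩ := Submodule.mem_sup.1 hx
      obtain ⟨y1, hy1, y2, hy2, rfl⟩ := Submodule.mem_sup.1 hy
      obtain ⟨c, rfl⟩ := Submodule.mem_span_singleton.1 hx2
      obtain ⟨d, rfl⟩ := Submodule.mem_span_singleton.1 hy2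
      have e1 : om a (S v) y1 = 0 := by
        have e2 := om_anti (g := a) (S v) y1
        rw [h3 y1 hy1, neg_zero] at e2
        exact e2
      have e3 : om a (S v) (S v) = 0 := by
        have e2 := om_anti (g := a) (S v) (S v)
        have e4 : (2 : ℂ) * om a (S v) (S v) = 0 := by linear_combination e2
        exact (mul_eq_zero.1 e4).resolve_left two_ne_zero
      simp only [map_add, LinearMap.add_apply, map_smul, LinearMap.smul_apply, smul_eq_mul,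
        hWo x1 hx1 y1 hy1, h3 x1 hx1, e1, e3, mul_zero, add_zero]
    have h5 : W = W ⊔ Submodule.span ℂ {S v} :=
      Submodule.eq_of_le_of_finrank_le le_sup_left (by rw [hfW]; exact h4)
    rw [h5]
    exact Submodule.mem_sup_right (Submodule.mem_span_singleton_self _)
  have heq : U'.map S = W := by
    refine Submodule.eq_of_le_of_finrank_eq hle ?_
    rw [hfW]
    exact (finrank_inj' S hSi).trans hd₂
  refine ⟨by rw [hd₁, hd₂], ?_⟩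
  have hDZ : DS Z (RingEquiv.refl ℂ) = DZ Z := by
    unfold DS
    ext i j
    rfl
  have hDZ₁ : DS Z₁ (RingEquiv.refl ℂ) = DZ Z₁ := by
    unfold DS
    ext i j
    rfl
  have t1 := tr_equiv (Z₁ := Z₁) hU.2.1 P (fun v _ => by
    have h6 := hPσ (RingEquiv.refl ℂ) v
    rwa [hDZ, hDZ₁] at h6) hPi
  have t2 := tr_equiv (Z₁ := Z₁) hU'.2.1 S (fun v _ => by
    have h6 := hSσ (RingEquiv.refl ℂ) v
    rwa [hDZ, hDZ₁] at h6) hSi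
  rw [← t1, ← t2, heq, hW]

end

end Pool.Agent.H926.C
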