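import Mathlib
import Pool.Agent.H926.B.Pair
import Pool.Agent.H926.B.Det
import Pool.Agent.H926.C.One
import Pool.Agent.H926.C.Comb
import Pool.Agent.H926.C.Rm

/-!
# Products of determinants: splitting into small balanced families
-/

set_option autoImplicit false
set_option linter.unusedSectionVars false

namespace Pool.Agent.H926.C

open Matrix Module Pool.Agent.W437.HC Pool.Agent.W437.HD Pool.Agent.TH504.CB Pool.Agent.W522.U
open Pool.Agent.Y90 hiding mulA exists_lam mulA_altQ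
open Pool.Agent.W548.Odd hiding cv
open Pool.Agent.W437.HP (cK cK_mul cK_one)
open Pool.Agent.H204R3.CM (IsHodge)
open Pool.Agent.H204R3.SP (Kills bil2 IsTate)
open Pool.Agent.Y4.P (MaxM EigM cx)
open Pool.Agent.H926.A
open Pool.Agent.H926.B (bnd small_tr)

noncomputable section

/-- The statement on products of determinants for one period matrix. -/
def QDetZ {G : ℕ} (Z : Matrix (Fin G) (Fin G) ℂ) (B : ℕ) (c : Prop) : Prop :=
  ∀ (s : ℕ)
    (W : Fin s → Submodule ℂ (Fin G ⊕ Fin G → ℂ)) (_hW : ∀ i, IrS (LZ Z) (W i))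
    (st : Fin s → Fin s) (_hst : ∀ i, st (st i) = i) (_hDu : ∀ i, Du (RZ Z) 1 (W i) (W (st i)))
    (_hDu' : ∀ i j, Du (RZ Z) 1 (W i) (W j) → j = st i)
    (a : Fin s → ℤ) (_ha : ∀ i, a (st i) = -a i) (_hPD : ∀ i, a i ≠ 0 → PDq (LZ Z) (W i))
    (_hdet : ∀ (g : Gam (GG (LZ Z))) (hg : ∀ i, ∀ u ∈ W i, RZ Z g u ∈ W i), ∃ M : ℕ, M ≠ 0 ∧
      (∏ i, LinearMap.det ((RZ Z g).restrict (hg i)) ^ a i) ^ M = 1)
    (ι : Fin s → Type) [∀ i, Fintype (ι i)] [∀ i, DecidableEq (ι i)]
    (f : ∀ i, Basis (ι i) ℂ (W i))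
    (q : ∀ x : (Σ i, Fin (a i).toNat), ι x.1 → (Fin G ⊕ Fin G → ℂ) →ₗ[ℂ] W x.1)
    (_hq : ∀ x y g v, (q x y (RZ Z g v) : Fin G ⊕ Fin G → ℂ) = RZ Z g (q x y v))
    (ψ : MultilinearMap ℂ (fun _ : (Σ x : (Σ i, Fin (a i).toNat), ι x.1) =>
      Fin G ⊕ Fin G → ℂ) ℂ)
    (_hψ : ∀ v, ψ v = ∏ x : (Σ i, Fin (a i).toNat), (f x.1).det (fun y => q x y (v ⟨x, y⟩))),
    ψ ∈ NQ Z B c (Σ x : (Σ i, Fin (a i).toNat), ι x.1)

open Pool.Agent.H926.A.Q643 in
/-- **Products of determinants.** -/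
theorem s_det (h6W : S_Q6) {G g : ℕ} {Z : Matrix (Fin G) (Fin G) ℂ} (h : PM Z) (hq : QF Z)
    (hg : SmR Z g) (c₀ : Prop) (hg7 : c₀ → g ≤ 7) : QDetZ Z (min G (bnd g)) c₀ := by
  have hT := s_qtr
  have hI := s_qiso
  intro s W hW st hst hDu hDu' a ha hPD hdet ι _ _ f q hq' ψ hψ
  classical
  have hpos : ∀ x : (Σ i, Fin (a i).toNat), 0 < a x.1 := by
    intro x
    have h1 := x.2.2
    by_contra h0
    push Not at h0
    have h2 : (a x.1).toNat = 0 := Int.toNat_eq_zero.2 h0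
    exact absurd (lt_of_lt_of_eq h1 h2) (Nat.not_lt_zero _)
  have hPx : ∀ x : (Σ i, Fin (a i).toNat), PDq (LZ Z) (W x.1) := fun x => hPD x.1 (hpos x).ne'
  choose w D ε T hD hw e1 e2 e3 e5 e6 e7 using hPx
  have hw0 : ∀ x, w x ≠ 0 := by
    intro x h0
    have h1 := hw x
    rw [h0, mul_zero] at h1
    have h2 : (D x : ℂ) = 0 := by
      rw [eq_comm, neg_eq_zero] at h1
      exact h1
    exact (hD x).ne' (by exact_mod_cast h2)
  have hqX : ∀ x y, ∀ X ∈ LZ Z, ∀ v, (q x y (X *ᵥ v) : Fin G ⊕ Fin G → ℂ) =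
      X *ᵥ (q x y v : Fin G ⊕ Fin G → ℂ) := by
    intro x y X hX v
    exact (rz_equiv h stab_top ((W x.1).subtype.comp (q x y))).1 (fun g u _ => hq' x y g u) X hX v
      trivial
  -- there are no invariant pairings
  have hno : ∀ (x x' : (Σ i, Fin (a i).toNat))
      (b : (Fin G ⊕ Fin G → ℂ) →ₗ[ℂ] (Fin G ⊕ Fin G → ℂ) →ₗ[ℂ] ℂ),
      (∀ X ∈ LZ Z, ∀ u ∈ W x.1, ∀ v ∈ W x'.1, b (X *ᵥ u) v + b u (X *ᵥ v) = 0) →
        ∀ u ∈ W x.1, ∀ v ∈ W x'.1, b u v = 0 := by
    intro x x' b hb u hu v hv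
    by_contra hne
    have h1 : Du (RZ Z) 1 (W x.1) (W x'.1) :=
      (rz_du h (hW x.1).2.1 (hW x'.1).2.1).2 ⟨b, ⟨u, hu, v, hv, hne⟩, hb⟩
    have h2 := hDu' _ _ h1
    have h3 := hpos x'
    rw [h2, ha] at h3
    have h4 := hpos x
    omega
  have hAlt : ∀ x : (Σ i, Fin (a i).toNat), ¬AltE (LZ Z) (W x.1) := by
    rintro x ⟨b, hb, ⟨u, hu, v, hv, hne⟩, -⟩
    exact hne (hno x x b hb u hu v hv)
  -- the traces
  have htr : ∀ σ : ℂ ≃+* ℂ, ∑ x, (σ (w x) / w x) * Matrix.trace (DZ Z * ε x) = 0 := by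
    intro σ
    have h1 : ∀ x, (σ (w x) / w x) * Matrix.trace (DZ Z * ε x) =
        ((tr Z (cjS σ.symm (W x.1)) : ℤ) : ℂ) := by
      intro x
      rw [← hT G Z h (W x.1) (hW x.1) (ε x) (T x) (e1 x) (e2 x) (e5 x) (e6 x) (e7 x) (w x) (D x)
        (hD x) (hw x) (e3 x) σ]
      exact Pool.Agent.Y977.P.jtrace G Z h (W x.1) (hW x.1) (ε x) (T x) (e1 x) (e2 x) (e5 x)
        (e6 x) (e7 x) σ
    rw [Finset.sum_congr rfl fun x _ => h1 x, ← Int.cast_sum,
      Pool.Agent.Y4.P.tr_pos h W hW st hst hDu a ha hdet σ.symm, Int.cast_zero]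
  have htrx : ∀ x, Matrix.trace (DZ Z * ε x) = ((tr Z (W x.1) : ℤ) : ℂ) := by
    intro x
    have h1 := Pool.Agent.Y977.P.jtrace G Z h (W x.1) (hW x.1) (ε x) (T x) (e1 x) (e2 x) (e5 x)
        (e6 x) (e7 x) (RingEquiv.refl ℂ)
    have h2 : DS Z (RingEquiv.refl ℂ) = DZ Z := by
      unfold DS
      ext i j
      rfl
    have h3 : cjS (RingEquiv.refl ℂ).symm (W x.1) = W x.1 := by
      ext v
      rfl
    rwa [h2, h3] at h1
  let χ : (Σ i, Fin (a i).toNat) → ((ℂ ≃+* ℂ) →* ℂ) := fun x => chr (w x) (D x) (hw0 x) (hw x)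
  have htr2 := chr_rel χ (fun x => Matrix.trace (DZ Z * ε x)) htr
  obtain ⟨dd, hdd⟩ : ∃ dd : (Σ i, Fin (a i).toNat) → ℕ, ∀ x, dd x = finrank ℂ (W x.1) :=
    ⟨fun x => finrank ℂ (W x.1), fun _ => rfl⟩
  obtain ⟨tt, htt⟩ : ∃ tt : (Σ i, Fin (a i).toNat) → ℤ, ∀ x, tt x = tr Z (W x.1) :=
    ⟨fun x => tr Z (W x.1), fun _ => rfl⟩
  have hc0 : ∀ x, 0 < dd x := by
    intro x
    rw [hdd, Nat.pos_iff_ne_zero]
    intro h1
    exact (hW x.1).1 (Submodule.finrank_eq_zero.1 h1)
  have hc1 : ∀ x, dd x ≤ g := by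
    intro x
    rw [hdd]
    exact dim_leR h hq hg (hW x.1) (hAlt x)
  have hc2 : ∀ x, dd x ≠ 2 ∧ (tt x).natAbs ≤ max 1 (dd x - 2) := by
    intro x
    rw [hdd, htt]
    exact small_tr h (hW x.1) (hAlt x)
      ⟨w x, D x, ε x, T x, hD x, hw x, e1 x, e2 x, e3 x, e5 x, e6 x, e7 x⟩
  have hc3 : ∀ x y, 0 < tt x → tt y < 0 → dd x + dd y ≤ g := by
    intro x y hx hy
    rw [hdd, hdd]
    rw [htt] at hx hy
    rcases pairR h hq hg (hW x.1) (hW y.1) (hAlt x) (hAlt y) (hno x y) with ⟨-, h1⟩ | h1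
    · exfalso
      omega
    · exact h1
  have hcd : ∀ x, Fintype.card (ι x.1) = dd x := by
    intro x
    rw [hdd]
    exact (finrank_eq_card_basis (f x.1)).symm
  have htrx' : ∀ x, Matrix.trace (DZ Z * ε x) = ((tt x : ℤ) : ℂ) := fun x => by rw [htt, htrx]
  -- the factors
  let gf : ∀ x : (Σ i, Fin (a i).toNat),
      MultilinearMap ℂ (fun _ : ι x.1 => Fin G ⊕ Fin G → ℂ) ℂ := fun x =>
    (f x.1).det.toMultilinearMap.compLinearMap (fun y => q x y)
  have hclass : ∀ c, PA (NQ Z (min G (bnd g)) c₀) gf (Finset.univ.filter fun x => χ x = c) := by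
    intro c
    rcases (Finset.univ.filter fun x => χ x = c).eq_empty_or_nonempty with h0 | ⟨x₀, hx₀⟩
    · rw [h0]
      exact PA_empty (clo_NQ Z (min G (bnd g)) c₀) gf
    obtain ⟨A, hA⟩ : ∃ A, A = Finset.univ.filter fun x => χ x = c := ⟨_, rfl⟩
    have hχ₀ : χ x₀ = c := (Finset.mem_filter.1 hx₀).2
    have hAc : ∀ y ∈ A, χ y = c := by
      intro y hy
      rw [hA] at hy
      exact (Finset.mem_filter.1 hy).2
    have hrat : ∀ x ∈ A, ∃ r : ℚ, w x = r * w x₀ := by
      intro x hxA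
      have hx : χ x = c := hAc x hxA
      apply rat_of_chr (hw0 _) (hw0 _)
      intro σ
      have h2 : χ x σ = χ x₀ σ := by rw [hx, hχ₀]
      exact h2
    have htrA := htr2 c
    rw [← hA] at htrA ⊢
    have key : ∀ A' : Finset (Σ i, Fin (a i).toNat), A' ⊆ A →
        ∑ x ∈ A', tt x = 0 → PA (NQ Z (min G (bnd g)) c₀) gf A' := by
      intro A'
      induction A' using Finset.strongInduction with
      | H A' ih =>
        intro hA' h0
        rcases A'.eq_empty_or_nonempty with he | hne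
        · rw [he]
          exact PA_empty (clo_NQ Z (min G (bnd g)) c₀) gf
        obtain ⟨B', hB', hB'n, hB'0, hB'd, hB'o⟩ := comb1 dd tt g A' hne h0 (fun x _ => hc0 x)
          (fun x _ => hc1 x) (fun x _ _ => hc2 x) (fun x _ y _ => hc3 x y)
        have hPC : PA (NQ Z (min G (bnd g)) c₀) gf (A' \ B') := by
          refine ih (A' \ B') ?_ (Finset.sdiff_subset.trans hA') ?_
          · refine Finset.ssubset_iff_subset_ne.2 ⟨Finset.sdiff_subset, fun h1 => ?_⟩
            obtain ⟨x, hx⟩ := hB'n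
            have h2 : x ∈ A' \ B' := by
              rw [h1]
              exact hB' hx
            exact (Finset.mem_sdiff.1 h2).2 hx
          · have h1 := Finset.sum_sdiff (f := tt) hB'
            rw [h0, hB'0, add_zero] at h1
            exact h1
        have hPB : PA (NQ Z (min G (bnd g)) c₀) gf B' := by
          have hB'A : B' ⊆ A := hB'.trans hA'
          have hcard : ∑ x : {x // x ∈ B'}, Fintype.card (ι x.1.1) ≤ bnd g := by
            rw [Finset.sum_congr rfl fun x _ => hcd x.1, Finset.sum_coe_sort B' dd]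
            exact hB'd
          refine s_one h6W (min G (bnd g)) G Z h (w x₀) (D x₀) (hD x₀) (hw x₀) {x // x ∈ B'}
            (fun x => W x.1.1)
            (fun x => hW x.1.1) (fun x => ε x.1) (fun x => T x.1) (fun x => e1 x.1)
            (fun x => e2 x.1) (fun x i j => ?_) (fun x => e5 x.1) (fun x => e6 x.1)
            (fun x => e7 x.1) ?_ (fun x => ι x.1.1) (fun x => f x.1.1) (fun x => q x.1)
            (fun x => hqX x.1) ?_ _ (fun v => ?_) c₀ (fun _ => ⟨hq, fun x => hAlt x.1⟩)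
            (fun hc₀ _ => ?_)
          · obtain ⟨y, z, hyz⟩ := e3 x.1 i j
            obtain ⟨r, hr⟩ := hrat x.1 (hB'A x.2)
            refine ⟨y, z * r, ?_⟩
            rw [hyz, hr]
            push_cast
            ring
          · rw [Finset.sum_coe_sort B' (fun x => Matrix.trace (DZ Z * ε x)),
              Finset.sum_congr rfl fun x _ => htrx' x, ← Int.cast_sum, hB'0, Int.cast_zero]
          · rcases le_or_gt (∑ x : {x // x ∈ B'}, Fintype.card (ι x.1.1)) G with h1 | h1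
            · exact Or.inl (le_min h1 hcard)
            · exact Or.inr ⟨hI G Z h {x // x ∈ B'} (fun x => W x.1.1) (fun x => hW x.1.1)
                (fun x x' b => hno x.1 x'.1 b) (fun x => ι x.1.1) (fun x => q x.1)
                (fun x => hqX x.1), h1⟩
          · rfl
          · have g7 := hg7 hc₀
            rcases hB'o with ⟨x, hx⟩ | ⟨x, hx, y, hy, hx0, hy0⟩
            · right
              rw [Finset.sum_congr rfl fun x _ => hcd x.1, Finset.sum_coe_sort B' dd, hx,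
                Finset.sum_singleton]
              exact (hc1 x).trans g7
            · left
              have h5 := hc3 x y hx0 hy0
              have h6 := hc2 x
              have h7 := hc2 y
              have h8 := hc0 x
              have h9 := hc0 y
              by_cases ho : Odd (dd x)
              · exact ⟨⟨x, hx⟩, by rw [hcd]; exact ho⟩
              · refine ⟨⟨y, hy⟩, ?_⟩
                rw [hcd]
                change Odd (dd y)
                rw [Nat.not_odd_iff_even] at ho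
                by_contra ho'
                rw [Nat.not_odd_iff_even] at ho'
                obtain ⟨m, hm⟩ := ho
                obtain ⟨m', hm'⟩ := ho'
                have h10 := h6.1
                have h11 := h7.1
                omega
        have h1 := PA_union (clo_NQ Z (min G (bnd g)) c₀) gf B' (A' \ B') Finset.disjoint_sdiff
          hPB hPC
        rwa [Finset.union_sdiff_of_subset hB'] at h1
    refine key A (Finset.Subset.refl A) ?_
    have h1 : ((∑ x ∈ A, tt x : ℤ) : ℂ) = 0 := by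
      rw [← htrA, Int.cast_sum]
      exact Finset.sum_congr rfl fun x _ => (htrx' x).symm
    exact_mod_cast h1
  exact of_PA_univ (clo_NQ Z (min G (bnd g)) c₀) gf (PA_classes (clo_NQ Z (min G (bnd g)) c₀) gf χ
    hclass) ψ hψ

end

end Pool.Agent.H926.C
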