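import Mathlib
import Pool.Agent.H926.C.Det
import Pool.Agent.H926.A.Qasm
import Pool.Agent.H926.C.Qasm

/-!
# Invariant forms: small Weil classes
-/

set_option linter.unusedSectionVars false

namespace Pool.Agent.H926.C

open Matrix Module Pool.Agent.W437.HC Pool.Agent.W437.HD Pool.Agent.TH504.CB Pool.Agent.W522.U
open Pool.Agent.Y90 hiding mulA exists_lam mulA_altQ
open Pool.Agent.W548.Odd hiding cv
open Pool.Agent.W437.HP (cK cK_mul cK_one)
open Pool.Agent.H204R3.CM (IsHodge)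
open Pool.Agent.H204R3.SP (Kills bil2 IsTate)
open Pool.Agent.H926.T
open Pool.Agent.H926.A
open Pool.Agent.H926.B (bnd small_tr)

noncomputable section

/-- The statement on determinants on orthogonal submodules for one period matrix. -/
def QDet1Z {G : ℕ} (Z : Matrix (Fin G) (Fin G) ℂ) (B : ℕ) (c : Prop) : Prop :=
  ∀ (U : Submodule ℂ (Fin G ⊕ Fin G → ℂ)) (_hU : IrS (LZ Z) U) (_hPD : PDq (LZ Z) U)
    (b : (Fin G ⊕ Fin G → ℂ) →ₗ[ℂ] (Fin G ⊕ Fin G → ℂ) →ₗ[ℂ] ℂ)
    (_hb : ∀ X ∈ LZ Z, ∀ u ∈ U, ∀ v ∈ U, b (X *ᵥ u) v + b u (X *ᵥ v) = 0)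
    (_hb0 : ∃ u ∈ U, ∃ v ∈ U, b u v ≠ 0) (_hbs : ∀ u ∈ U, ∀ v ∈ U, b u v = b v u)
    (n : ℕ) (e : Basis (Fin n) ℂ U) (q : Fin n → ((Fin G ⊕ Fin G → ℂ) →ₗ[ℂ] U))
    (_hq : ∀ i, ∀ X ∈ LZ Z, ∀ v, ((q i (X *ᵥ v) : U) : Fin G ⊕ Fin G → ℂ) =
      X *ᵥ (q i v : Fin G ⊕ Fin G → ℂ))
    (ψ : MultilinearMap ℂ (fun _ : Fin n => Fin G ⊕ Fin G → ℂ) ℂ)
    (_hψ : ∀ v, ψ v = e.det fun j => q j (v j)), ψ ∈ NQ Z B c (Fin n)

/-- **Determinants on orthogonal submodules.** -/
theorem s_det1 (h6W : S_Q6) {G g : ℕ} {Z : Matrix (Fin G) (Fin G) ℂ} (h : PM Z) (hqf : QF Z)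
    (hg : SmR Z g) (c : Prop) (hg7 : c → g ≤ 7) : QDet1Z Z (min G (bnd g)) c := by
  intro U hU hPD b hb hb0 hbs n e q hq ψ hψ
  obtain ⟨w, D, ε, T, hD, hw, e1, e2, e3, e5, e6, e7⟩ := hPD
  have hiso : ∀ u ∈ U, ∀ v ∈ U, Pool.Agent.Y90.om G u v = 0 := by
    obtain ⟨s, hs⟩ := Q643.scalar hU b (Pool.Agent.Y90.om G) hb
      (fun X hX u _ v _ => h.om_sp hX u v) hb0
    intro u hu v hv
    have h1 := hs u hu v hv
    have h2 := hs v hv u hu
    rw [hbs v hv u hu] at h2
    have h3 := om_anti (g := G) u v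
    have h4 : (2 : ℂ) * Pool.Agent.Y90.om G u v = 0 := by
      linear_combination h3 + h1 - h2
    exact (mul_eq_zero.1 h4).resolve_left two_ne_zero
  have hn : n ≤ G := by
    have h1 := finrank_eq_card_basis e
    rw [Fintype.card_fin] at h1
    rw [← h1]
    exact Q643.iso_dim U hiso
  have htr : Matrix.trace (DZ Z * ε) = 0 := Q643.trace_zero hU e1 e5 e6 e7 b hb hb0 DZ_mem
  have hAlt : ¬AltE (LZ Z) U := by
    rintro ⟨b', hb', ⟨u, hu, v, hv, hne⟩, hanti⟩
    obtain ⟨s, hs⟩ := Q643.scalar hU b b' hb hb' hb0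
    apply hne
    have h1 := hs u hu v hv
    have h2 := hs v hv u hu
    rw [hbs v hv u hu] at h2
    have h3 := hanti u hu v hv
    have h4 : (2 : ℂ) * b' u v = 0 := by
      linear_combination h3 + h1 - h2
    exact (mul_eq_zero.1 h4).resolve_left two_ne_zero
  have hng : n ≤ bnd g := by
    have h1 := finrank_eq_card_basis e
    rw [Fintype.card_fin] at h1
    rw [← h1]
    exact (dim_leR h hqf hg hU hAlt).trans (le_max_left _ _)
  let E : Fin n ≃ (Σ _ : Unit, Fin n) := (Equiv.uniqueSigma fun _ : Unit => Fin n).symm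
  have h1 := s_one h6W (min G (bnd g)) G Z h w D hD hw Unit (fun _ => U) (fun _ => hU) (fun _ => ε) (fun _ => T)
    (fun _ => e1) (fun _ => e2) (fun _ => e3) (fun _ => e5) (fun _ => e6) (fun _ => e7)
    (by rw [Fintype.sum_unique]; exact htr)
    (fun _ => Fin n) (fun _ => e) (fun _ => q) (fun _ y X hX v => hq y X hX v)
    (Or.inl (by rw [Fintype.sum_unique, Fintype.card_fin]; exact le_min hn hng))
    (ψ.domDomCongr E) (fun v => by
      rw [MultilinearMap.domDomCongr_apply, hψ, Fintype.prod_unique]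
      rfl) c (fun _ => ⟨hqf, fun _ => hAlt⟩) (fun hc _ => Or.inr (by
        rw [Fintype.sum_unique, Fintype.card_fin]
        have h1 := finrank_eq_card_basis e
        rw [Fintype.card_fin] at h1
        rw [← h1]
        exact (dim_leR h hqf hg hU hAlt).trans (hg7 hc)))
  refine (clo_NQ Z (min G (bnd g)) c).reindex E.symm h1 ψ fun v => ?_
  rw [MultilinearMap.domDomCongr_apply]
  congr 1


section asm

variable {G B : ℕ} {c : Prop} {Z : Matrix (Fin G) (Fin G) ℂ}

/-- The part without orthogonal submodules. -/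
theorem nonqZ (hQD : QDetZ Z B c) (h1 : S_FORMQ) (h2 : S_RK1) (h3 : S_TWI) (h : PM Z)
    (hq : ∀ U, IrS (LZ Z) U → AltE (LZ Z) U ∨ PDq (LZ Z) U) (hB : LB (GG (LZ Z)) (om G))
    (Q : End ℂ (Fin G ⊕ Fin G → ℂ)) (hQ : Q * Q = Q)
    (hQC : ∀ T, ComE (GG (LZ Z)) T → T * Q = Q * T) (hQL : ∀ X ∈ GG (LZ Z), X * Q = Q * X)
    (hQω : ∀ u v, om G (Q u) v = om G u (Q v))
    (hno : ∀ U, IrE (GG (LZ Z)) U → U ≤ LinearMap.range Q → ¬OrtE (GG (LZ Z)) U) :
    Supp (GG (LZ Z)) (fun κ _ => NQ Z B c κ) Q := by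
  classical
  intro κ _ _ ψ hψ hsup
  have hSI : ∀ {U}, W522.U.SI (RZ Z) U ↔ IrS (LZ Z) U := fun {U} => si_iff h.genI
  have hinv : ∀ (g : Gam (GG (LZ Z))) (v : κ → Fin G ⊕ Fin G → ℂ),
      ψ (fun k => RZ Z g (v k)) = ψ v := fun g v => inv_gam ψ (fun D hD _ => hψ D hD) g v
  obtain ⟨s, W, st, hW, hWQ, hWW, hall, hst, hDu, hDu'⟩ := exists_repsQ h hQ hQC hQL hQω
  rcases Nat.even_or_odd (Fintype.card κ) with he | ho
  · obtain ⟨m, hm⟩ := he
    have e : κ ≃ Fin m × Fin 2 := Fintype.equivOfCardEq (by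
      rw [Fintype.card_prod, Fintype.card_fin, Fintype.card_fin, hm]
      ring)
    have h5 : ψ.domDomCongr e ∈ NQ Z B c (Fin m × Fin 2) := by
      refine h1 (Fin G ⊕ Fin G → ℂ) (Gam (GG (LZ Z))) (RZ Z) (fun Δ hΔ => fi_top Δ hΔ) (om G) om_nd
        (rz_om h) Q hQ ?_ hQω ?_ ?_ ?_ (rz_proj h) s W hW hWQ hWW hall st hst hDu hDu'
        (fun κ _ => NQ Z B c κ) (clo_NQ Z B c) (pair_memq h) ?_ m _ ?_ ?_
      · intro g v
        exact (rz_equiv h stab_top Q).2 (fun X hX u _ =>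
          (LinearMap.congr_fun (hQL (ph _ X) (mem_GG.2 hX)) u).symm) g v trivial
      · intro U hU hUQ hn
        exact rk1Q h2 h hB (hSI.1 hU) (hno U (irE_iff.2 (hSI.1 hU)) hUQ) hn
      · intro U hU _ hn
        exact rz_line h (hSI.1 hU) hn
      · intro U U' hU hU' hUQ _ hn _ χ hT
        exact twQ h3 h hB (hSI.1 hU) (hSI.1 hU') (hno U (irE_iff.2 (hSI.1 hU)) hUQ) hn χ hT
      · intro a ha hdet ι _ _ f q hq' ψ hψ
        refine hQD s W (fun i => hSI.1 (hW i)) st hst hDu hDu' a ha (fun i h0 => ?_)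
          hdet ι f q hq' ψ hψ
        rcases hq (W i) (hSI.1 (hW i)) with ⟨b, b1, b2, -⟩ | h5
        · exfalso
          have h6 := hDu' i i ((rz_du h (hSI.1 (hW i)).2.1 (hSI.1 (hW i)).2.1).2 ⟨b, b2, b1⟩)
          have h7 := ha i
          rw [← h6] at h7
          omega
        · exact h5
      · intro g v
        rw [MultilinearMap.domDomCongr_apply, MultilinearMap.domDomCongr_apply]
        exact hinv g _
      · intro v
        rw [MultilinearMap.domDomCongr_apply, MultilinearMap.domDomCongr_apply]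
        exact hsup _
    exact (clo_NQ Z B c).reindex e.symm h5 ψ fun v => by
      rw [MultilinearMap.domDomCongr_apply]
      congr 1
      funext k
      simp
  · have h0 : ψ = 0 := by
      refine MultilinearMap.ext fun v => ?_
      have h1 := hinv (gt (D := ph _ (DZ Z)) (by rw [← map_mul, DZ_sq h.det, map_one])
        (mem_GG.2 DZ_mem) (-1)) v
      have h2 : (fun k => RZ Z (gt (D := ph _ (DZ Z)) (by rw [← map_mul, DZ_sq h.det, map_one])
        (mem_GG.2 DZ_mem) (-1)) (v k)) = fun k => (-1 : ℂ) • v k := by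
        funext k
        change torE (ph _ (DZ Z)) (-1) (v k) = _
        rw [torE_apply]
        simp only [Units.val_neg, Units.val_one, inv_neg, inv_one]
        module
      rw [h2, MultilinearMap.map_smul_univ, Finset.prod_const, Finset.card_univ,
        Odd.neg_one_pow ho, neg_one_smul] at h1
      have h3 : ψ v = 0 := by linear_combination (-1 / 2 : ℂ) * h1
      rw [h3]
      rfl
    rw [h0]
    exact Submodule.zero_mem _


theorem supp_allZ (hQD : QDetZ Z B c) (hDet : QDet1Z Z B c) (h1 : S_FORMQ) (h2 : S_RK1)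
    (h3' : S_TWI) (hOrt : S_ORT) (hO3 : S_O3) (h : PM Z)
    (hq : ∀ U, IrS (LZ Z) U → AltE (LZ Z) U ∨ PDq (LZ Z) U)
    (hB : LB (GG (LZ Z)) (om G)) (n : ℕ) :
    ∀ Q : End ℂ (Fin G ⊕ Fin G → ℂ), finrank ℂ (LinearMap.range Q) = n → Q * Q = Q →
      (∀ T, ComE (GG (LZ Z)) T → T * Q = Q * T) → (∀ X ∈ GG (LZ Z), X * Q = Q * X) →
      (∀ u v, om G (Q u) v = om G u (Q v)) → Supp (GG (LZ Z)) (fun κ _ => NQ Z B c κ) Q := by
  induction n using Nat.strong_induction_on with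
  | _ n ih =>
    intro Q hn hQ hQC hQL hQω
    by_cases hex : ∃ U, IrE (GG (LZ Z)) U ∧ U ≤ LinearMap.range Q ∧ OrtE (GG (LZ Z)) U
    · obtain ⟨U, hU, hUQ, hO⟩ := hex
      have hDm : ph (Fin G ⊕ Fin G) (DZ Z) ∈ GG (LZ Z) := mem_GG.2 DZ_mem
      have hD2 : ph (Fin G ⊕ Fin G) (DZ Z) * ph (Fin G ⊕ Fin G) (DZ Z) = 1 := by
        rw [← map_mul, DZ_sq h.det, map_one]
      have h3 := hO3 _ (GG (LZ Z)) U hU hO _ hDm hD2
      obtain ⟨p, pp, pC, pL, pω, pU, pX, pQ, pS⟩ := hOrt _ (GG (LZ Z)) (om G) hB U hU hO h3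
        (fun κ _ => NQ Z B c κ) (clo_NQ Z B c)
        (fun b hb => bil_memq h b fun X hX u v => hb _ (mem_GG.2 hX) u v)
        (fun m e q hq' ψ hψ => by
          obtain ⟨b, hb1, hb2, hb3⟩ := hO
          have hU' := irs_iff.1 hU
          have hPD : PDq (LZ Z) U := by
            rcases hq U hU' with hA | hP
            · exact absurd hA (not_alt_of_sym hU' (fun X hX u hu v hv =>
                hb1 _ (mem_GG.2 hX) u hu v hv) hb2 hb3)
            · exact hP
          exact hDet U hU' hPD b (fun X hX u hu v hv =>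
            hb1 _ (mem_GG.2 hX) u hu v hv) hb2 hb3 m e q
              (fun i X hX v => hq' i _ (mem_GG.2 hX) v) ψ hψ)
      have hQU : ∀ u ∈ U, Q u = u := by
        intro u hu
        obtain ⟨w, rfl⟩ := hUQ hu
        exact LinearMap.congr_fun hQ w
      have hQp : Q * p = p := pQ Q hQC hQU
      have hpQ : p * Q = p := by rw [hQC p pL, hQp]
      have hS := ih (finrank ℂ (LinearMap.range (Q - p))) (by
        rw [← hn]
        refine Submodule.finrank_lt_finrank_of_lt (lt_of_le_of_ne ?_ ?_)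
        · rintro _ ⟨w, rfl⟩
          refine ⟨(Q - p) w, ?_⟩
          have h4 : Q * (Q - p) = Q - p := by rw [mul_sub, hQ, hQp]
          exact LinearMap.congr_fun h4 w
        · intro heq
          obtain ⟨u, hu, hu0⟩ := Submodule.exists_mem_ne_zero_of_ne_bot hU.1
          have h4 : u ∈ LinearMap.range (Q - p) := by
            rw [heq]
            exact hUQ hu
          obtain ⟨w, hw⟩ := h4
          have h5 : p * (Q - p) = 0 := by rw [mul_sub, hpQ, pp, sub_self]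
          apply hu0
          rw [← pU u hu, ← hw]
          exact LinearMap.congr_fun h5 w) (Q - p) rfl
        (by rw [mul_sub, sub_mul, sub_mul, hQ, hQp, hpQ, pp]; abel)
        (fun T hT => by rw [mul_sub, sub_mul, hQC T hT, pC T hT])
        (fun X hX => by rw [mul_sub, sub_mul, hQL X hX, pL X hX])
        (fun u v => by
          rw [LinearMap.sub_apply, LinearMap.sub_apply, map_sub, map_sub, LinearMap.sub_apply,
            hQω, pω])
      have h6 := Supp.add (P := p) (Q := Q - p) (clo_NQ Z B c) pp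
        (by rw [mul_sub, sub_mul, sub_mul, hQ, hQp, hpQ, pp]; abel)
        (by rw [mul_sub, hpQ, pp, sub_self]) (by rw [sub_mul, hQp, pp, sub_self]) pL
        (fun X hX => by rw [mul_sub, sub_mul, hQL X hX, pL X hX])
        (fun X hX => ⟨X * p, pX X hX, by rw [mul_assoc, mul_sub, hpQ, pp, sub_self, mul_zero],
          by rw [mul_assoc, pp]⟩) pS hS
      rwa [add_sub_cancel] at h6
    · exact nonqZ hQD h1 h2 h3' h hq hB Q hQ hQC hQL hQω fun U hU hUQ hO => hex ⟨U, hU, hUQ, hO⟩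

/-- **All forms killed by the Lie algebra belong to the system.** -/
theorem allF_ofZ (hQD : QDetZ Z B c) (hDet : QDet1Z Z B c) (h1 : S_FORMQ) (h2 : S_RK1)
    (h3 : S_TWI) (hOrt : S_ORT) (hO3 : S_O3) (hLB : S_LB) (h : PM Z)
    (hq : ∀ U, IrS (LZ Z) U → AltE (LZ Z) U ∨ PDq (LZ Z) U) (hb : BrH Z) : AllFq Z B c := by
  intro κ _ _ ψ hψ
  refine supp_allZ hQD hDet h1 h2 h3 hOrt hO3 h hq (hLB G Z h hb) _ 1 rfl (one_mul 1)
    (fun T _ => by rw [one_mul, mul_one]) (fun X _ => by rw [one_mul, mul_one]) (fun _ _ => rfl)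
    κ ψ (fun y hy => ?_) fun v => rfl
  obtain ⟨A, hA, rfl⟩ := exists_GG hy
  exact hψ A hA


end asm

end

end Pool.Agent.H926.C
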