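import Mathlib
import Pool.Agent.H926.A.Qloc
import Pool.Agent.H926.A.Q6
import Pool.Agent.H926.C.Jobs
import Pool.Agent.H926.C.Rm

/-!
# Weil classes on simple sixfolds, split or not
-/

set_option autoImplicit false
set_option linter.unusedSectionVars false

namespace Pool.Agent.H926.C

open Matrix Module Pool.Agent.W437.HC Pool.Agent.W437.HD Pool.Agent.TH504.CB Pool.Agent.W522.U
open Pool.Agent.Y90 hiding mulA exists_lam mulA_altQ
open Pool.Agent.W548.Odd hiding cv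
open Pool.Agent.W437.HP (cK cK_mul cK_one)
open Pool.Agent.H204R3.CM (IsHodge)
open Pool.Agent.Y4.P (MaxM EigM cx mem_eigM om_real)
open Pool.Agent.R915 (KW KW.alt_apply irS_map)
open Pool.Agent.N994.PG (N1 N1_mem dl_kill dl_hodge dl_move)
open Pool.Agent.H926.A (AltE QF RQM)

noncomputable section

namespace Six

variable {G a : ℕ} {Z : Matrix (Fin G) (Fin G) ℂ} {Z' : Matrix (Fin a) (Fin a) ℂ}

/-- The last clause of the definition of the Weil classes. -/
def Cl (c : Prop) (Z' : Matrix (Fin a) (Fin a) ℂ) (D : ℚ)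
    (j : Matrix (Fin a ⊕ Fin a) (Fin a ⊕ Fin a) ℚ) : Prop :=
  c → 4 < a → (∃ m, a = 2 * m ∧ HasSplitDisc (perOne Z') m D (Matrix.toLin' j)) ∨
    (a = 6 ∧ SimpleNonSplit (perOne Z'))

/-- Simple abelian varieties. -/
theorem simple_top (h : PM Z') (hs : IsSimpleAV Z') (ha : 0 < a) :
    St.IsSimpleSub (perOne Z') ⊤ := by
  refine ⟨fun x _ => ?_, fun h0 => ?_, fun U' _ hU' => hs U' hU'⟩
  · have h1 : Submodule.span ℝ (Set.range (perOne Z')) = ⊤ := (AVZ h).span
    have h2 : Submodule.span ℝ (perOne Z' '' ((⊤ : Submodule ℚ (Fin a ⊕ Fin a → ℚ)) : Set _)) = ⊤ := by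
      rw [Submodule.top_coe, Set.image_univ]
      exact h1
    rw [h2]
    exact Submodule.mem_top
  · have h1 : finrank ℚ (⊤ : Submodule ℚ (Fin a ⊕ Fin a → ℚ)) = 0 := by
      rw [h0, finrank_bot]
    rw [finrank_top, finrank_fintype_fun_eq_card] at h1
    simp only [Fintype.card_sum, Fintype.card_fin] at h1
    omega

section kw

variable {U : Submodule ℂ (Fin a ⊕ Fin a → ℂ)} {j : Matrix (Fin a ⊕ Fin a) (Fin a ⊕ Fin a) ℚ}
  {w : ℂ} {D : ℚ} (h : PM Z') (k : KW Z' U j w D) {ι : Type} [ι₁ : Fintype ι]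
  [ι₂ : DecidableEq ι] (f : Basis ι ℂ U) (t : tr Z' U = 0)

include h k t in
/-- The rational parts of the determinant form belong to the ring. -/
theorem weil (hj : qm j * DZ Z' = DZ Z' * qm j) (c : Prop) (hcl : Cl c Z' D j) (l : ℂ →ₗ[ℚ] ℚ) {n : ℕ}
    (e : ι ≃ Fin n) (_hn : 0 < n) :
    IsQWeil c (perOne Z') n ((ratA (k.dl f) l).domDomCongr e) := by
  have hc : n = a := by
    rw [← k.dim, finrank_eq_card_basis f, Fintype.card_congr e, Fintype.card_fin]
  refine ⟨isHodge_congr e (dl_hodge h k f t l), D, Matrix.toLin' j, k.pos, ?_, fun v => ?_, ?_,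
    fun v i i' => ?_, ?_⟩
  · obtain ⟨Ψ, hΨ⟩ := h.cht.hom h.cht (R := j) (by rw [DJ_JR]; exact hj)
    exact ⟨Ψ, fun v => by rw [Matrix.toLin'_apply]; exact hΨ v⟩
  · rw [Matrix.toLin'_apply, Matrix.toLin'_apply, mulVec_mulVec, k.sq, neg_mulVec, smul_mulVec,
      one_mulVec]
  · rw [finrank_fintype_fun_eq_card]
    simp only [Fintype.card_sum, Fintype.card_fin]
    omega
  · have key : ∀ i, (ratA (k.dl f) l).domDomCongr e
        (Function.update v i (Matrix.toLin' j (v i))) =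
        ∑ σ : Equiv.Perm ι, ((Equiv.Perm.sign σ : ℤ) : ℚ) *
          l (w * k.dl f (fun j => cv (v (e (σ j))))) := by
      intro i
      rw [AlternatingMap.domDomCongr_apply, toLin'_apply]
      have h1 := dl_move k f l (fun j => v (e j)) (e.symm i)
      rw [Equiv.apply_symm_apply] at h1
      rw [← h1]
      congr 1
      funext j'
      rw [Function.comp_apply]
      by_cases hj' : j' = e.symm i
      · subst hj'
        rw [Equiv.apply_symm_apply, Function.update_self, Function.update_self]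
      · rw [Function.update_of_ne hj', Function.update_of_ne]
        intro h
        exact hj' (by rw [← h, Equiv.symm_apply_apply])
    rw [key i, key i']
  · rw [hc]
    exact hcl

include h k t in
/-- Pull-backs of the rational parts along rational homomorphisms. -/
theorem pull {G : ℕ} {Z : Matrix (Fin G) (Fin G) ℂ} (hZ : PM Z)
    (hj : qm j * DZ Z' = DZ Z' * qm j) (c : Prop) (hcl : Cl c Z' D j) (l : ℂ →ₗ[ℚ] ℚ) {n B : ℕ}
    (e : ι ≃ Fin n) (hn : 0 < n) (hB : n ≤ B) {R : Matrix (Fin a ⊕ Fin a) (Fin G ⊕ Fin G) ℚ}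
    (hR : cK ℂ R * DZ Z = DZ Z' * cK ℂ R) :
    QR (perOne Z) B c ι ((ratA (k.dl f) l).compLinearMap (Matrix.toLin' R)) := by
  obtain ⟨Ψ, hΨ⟩ := hZ.cht.hom h.cht (R := R) (by rw [DJ_JR, DJ_JR]; exact hR)
  have h3 := QR.weil (per := perOne Z) (s := c) (B := B) (per' := perOne Z') h.isAV hB _
    (weil h k f t hj c hcl l e hn) (Matrix.toLin' R)
    ⟨Ψ, fun v => by rw [Matrix.toLin'_apply]; exact hΨ v⟩
  have h4 := h3.reindex e.symm
  have h5 : ((((ratA (k.dl f) l).domDomCongr e).compLinearMap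
      (Matrix.toLin' R)).domDomCongr e.symm) =
      (ratA (k.dl f) l).compLinearMap (Matrix.toLin' R) := by
    ext v
    rw [AlternatingMap.domDomCongr_apply, AlternatingMap.compLinearMap_apply,
      AlternatingMap.domDomCongr_apply, AlternatingMap.compLinearMap_apply]
    congr 1
    funext i
    simp
  rw [← h5]
  exact h4

include h k t in
/-- The determinant form composed with equivariant maps. -/
theorem main {G : ℕ} {Z : Matrix (Fin G) (Fin G) ℂ} (hZ : PM Z)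
    (hj : qm j * DZ Z' = DZ Z' * qm j) (c : Prop) (hcl : Cl c Z' D j) {n B : ℕ} (e : ι ≃ Fin n) (hn : 0 < n)
    (hB : n ≤ B) (R : ι → Matrix (Fin a ⊕ Fin a) (Fin G ⊕ Fin G) ℂ)
    (hR : ∀ y σ, R y * DS Z σ = DS Z' σ * R y)
    (ψ : MultilinearMap ℂ (fun _ : ι => Fin G ⊕ Fin G → ℂ) ℂ)
    (hψ : ∀ v, ψ v = k.alt f (fun y => R y *ᵥ v y)) : ψ ∈ NQ Z B c ι := by
  intro i1 i2
  obtain rfl : i1 = ι₁ := Subsingleton.elim _ _
  obtain rfl : i2 = ι₂ := Subsingleton.elim _ _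
  have h1 : altQ ψ = N1 (k.alt f) R := by
    funext v
    unfold altQ N1
    refine Finset.sum_congr rfl fun σ _ => ?_
    rw [hψ]
  rw [h1]
  refine N1_mem (k.alt f) (RCq (perOne Z) B c ι) (TT Z Z') ?_ _ (fun y => exp_mem (hR y))
  rintro _ ⟨R, rfl, hR⟩
  obtain ⟨m, c', l, hl⟩ := altQ_expand (k.dl f)
  have h3 : N1 (k.alt f) (fun _ => cK ℂ R) =
      ∑ i, c' i • fun v : ι → Fin G ⊕ Fin G → ℚ =>
        ((((ratA (k.dl f) (l i)).compLinearMap (Matrix.toLin' R)) v : ℚ) : ℂ) := by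
    funext v
    have h4 := hl (fun y => R *ᵥ v y)
    rw [Finset.sum_apply]
    refine Eq.trans ?_ (h4.trans ?_)
    · unfold altQ N1
      refine Finset.sum_congr rfl fun σ _ => ?_
      congr 1
      change k.dl f _ = k.dl f _
      congr 1
      funext y i
      simp [cv, mulVec, dotProduct, cK]
    · rfl
  rw [h3]
  exact Submodule.sum_mem _ fun i _ => Submodule.smul_mem _ _
    (RCq_of (pull h k f t hZ hj c hcl (l i) e hn hB hR))

end kw

section fin

variable {U : Submodule ℂ (Fin G ⊕ Fin G → ℂ)} {E : Matrix (Fin G ⊕ Fin G) (Fin a ⊕ Fin a) ℚ}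
  {F : Matrix (Fin a ⊕ Fin a) (Fin G ⊕ Fin G) ℚ}

/-- The image is isotropic. -/
theorem isot (h' : PM Z') (hf : Fac Z Z' E F) (hA : ¬AltE (LZ Z) U)
    {T : (Fin a ⊕ Fin a → ℂ) →ₗ[ℂ] (Fin a ⊕ Fin a → ℂ)}
    (hT1 : ∀ X ∈ LZ Z', ∀ v, T (X *ᵥ v) = X *ᵥ T v) :
    ∀ u ∈ (U.map (ml F)).map T, ∀ v ∈ (U.map (ml F)).map T, om a u v = 0 := by
  intro u hu v hv
  by_contra huv
  refine hA ⟨(om a).compl₁₂ (T.comp (ml F)) (T.comp (ml F)), ?_, ?_, ?_⟩
  · intro X hX u _ v _
    change om a (T (ml F (X *ᵥ u))) (T (ml F v)) + om a (T (ml F u)) (T (ml F (X *ᵥ v))) = 0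
    have hX' := (hf.comp hX).1
    rw [hf.act hX, hf.act hX, hT1 _ hX', hT1 _ hX']
    exact h'.om_sp hX' _ _
  · obtain ⟨_, ⟨u0, hu0, rfl⟩, rfl⟩ := hu
    obtain ⟨_, ⟨v0, hv0, rfl⟩, rfl⟩ := hv
    exact ⟨u0, hu0, v0, hv0, huv⟩
  · intro u _ v _
    exact om_anti _ _

/-- The end of the proof, for each square root of a negative rational number. -/
theorem fin {B : ℕ} (hB : 6 ≤ B) (h : PM Z) (hU : IrS (LZ Z) U) (h6 : finrank ℂ U = 6)
    (hA : ¬AltE (LZ Z) U) (htr : tr Z U = 0) {ι : Type} [Fintype ι] [DecidableEq ι]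
    (f : Basis ι ℂ U) (q : ι → (Fin G ⊕ Fin G → ℂ) →ₗ[ℂ] U)
    (hq' : ∀ y, ∀ X ∈ LZ Z, ∀ v, (q y (X *ᵥ v) : Fin G ⊕ Fin G → ℂ) =
      X *ᵥ (q y v : Fin G ⊕ Fin G → ℂ))
    (ψ : MultilinearMap ℂ (fun _ : ι => Fin G ⊕ Fin G → ℂ) ℂ)
    (hψ : ∀ v, ψ v = f.det (fun y => q y (v y))) (c : Prop)
    (hf : Fac Z Z' E F) (h' : PM Z') (hi : ∀ u ∈ U, ml F u = 0 → u = 0)
    (hU' : IrS (LZ Z') (U.map (ml F))) (ha6 : a = 6)
    {w : ℂ} {D : ℚ} {j : Matrix (Fin a ⊕ Fin a) (Fin a ⊕ Fin a) ℚ}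
    (hD : 0 < D) (hw : w * w = -(D : ℂ))
    (hjj : j * j = -(D • (1 : Matrix (Fin a ⊕ Fin a) (Fin a ⊕ Fin a) ℚ)))
    (hj : qm j * DZ Z' = DZ Z' * qm j)
    (T : (Fin a ⊕ Fin a → ℂ) →ₗ[ℂ] (Fin a ⊕ Fin a → ℂ))
    (hT1 : ∀ X ∈ LZ Z', ∀ v, T (X *ᵥ v) = X *ᵥ T v)
    (hT2 : ∀ u ∈ U.map (ml F), T u = 0 → u = 0)
    (hT3 : (U.map (ml F)).map T = EigM j w) (hcl : Cl c Z' D j) : ψ ∈ NQ Z B c ι := by
  have hisot := isot (U := U) h' hf hA hT1
  rw [hT3] at hisot
  have hmem : ∀ v, v ∈ EigM j w ↔ qm j *ᵥ v = w • v := fun v => mem_eigM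
  have hE : IrS (LZ Z') (EigM j w) := by
    rw [← hT3]
    exact irS_map hU' (fun X hX u _ => hT1 X hX u) hT2
  -- the dimensions
  have hTi : ∀ u ∈ U, (T.comp (ml F)) u = 0 → u = 0 := fun u hu h1 =>
    hi u hu (hT2 _ ⟨u, hu, rfl⟩ h1)
  have hmap : U.map (T.comp (ml F)) = EigM j w := by rw [Submodule.map_comp, hT3]
  have hfr : finrank ℂ (EigM j w) = 6 := by
    rw [← hT3, Pool.Agent.Y977.P.finrank_inj T hT2, finrank_ml hi, h6]
  have k : KW Z' (EigM j w) j w D :=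
    { dim := by rw [hfr, ha6]
      comm := fun X hX => (Pool.Agent.Y261.P.qm_comm hj X hX).symm
      pos := hD
      sq := hjj
      al := hw
      mem := hmem
      isot := hisot }
  -- the trace
  have htr' : tr Z' (EigM j w) = 0 := by
    obtain ⟨ε, hε⟩ : ∃ ε : Matrix (Fin a ⊕ Fin a) (Fin a ⊕ Fin a) ℂ,
        ε = (2 * w)⁻¹ • (qm j + w • (1 : Matrix _ _ ℂ)) := ⟨_, rfl⟩
    have hεv : ∀ v, ε *ᵥ v = pj j w v := fun v => by
      rw [hε, smul_mulVec, add_mulVec, smul_mulVec, one_mulVec, pj_apply]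
    have e1 : ε * ε = ε := by
      apply Matrix.toLin'.injective
      refine LinearMap.ext fun v => ?_
      rw [Matrix.toLin'_apply, Matrix.toLin'_apply, ← mulVec_mulVec, hεv, hεv]
      exact k.pj_of_mem (k.pj_mem v)
    have e2 : ∀ X ∈ LZ Z', X * ε = ε * X := by
      intro X hX
      rw [hε, Matrix.mul_smul, Matrix.smul_mul, Matrix.mul_add, Matrix.add_mul, k.comm X hX,
        Matrix.mul_smul, Matrix.smul_mul, Matrix.mul_one, Matrix.one_mul]
    have e3 : ∀ v, v ∈ EigM j w ↔ ε *ᵥ v = v := fun v => by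
      rw [hεv]
      constructor
      · exact fun hv => k.pj_of_mem hv
      · intro hv
        rw [← hv]
        exact k.pj_mem v
    have t1 := Pool.Agent.Y977.P.jtrace a Z' h' _ hU' ε T e1 e2 (fun X hX u _ => hT1 X hX u) hT2
      (fun v => by rw [hT3]; exact e3 v) (RingEquiv.refl ℂ)
    have t2 := Pool.Agent.Y977.P.jtrace a Z' h' _ hE ε LinearMap.id e1 e2
      (fun X _ u _ => rfl) (fun u _ hu => hu) (fun v => by rw [Submodule.map_id]; exact e3 v)
      (RingEquiv.refl ℂ)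
    have t3 : ∀ V : Submodule ℂ (Fin a ⊕ Fin a → ℂ), cjS (RingEquiv.refl ℂ).symm V = V := by
      intro V
      ext v
      rfl
    rw [t3] at t1 t2
    rw [t1, hf.tr_map hi hU.2.1, htr] at t2
    exact_mod_cast t2.symm
  let e : U ≃ₗ[ℂ] EigM j w := LinearEquiv.ofBijective
    (((T.comp (ml F)).domRestrict U).codRestrict (EigM j w) fun u => by
      rw [← hmap]
      exact Submodule.mem_map_of_mem u.2) (by
      constructor
      · rw [injective_iff_map_eq_zero]
        intro u hu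
        exact Subtype.ext (hTi u u.2 (congrArg Subtype.val hu))
      · rintro ⟨v, hv⟩
        rw [← hmap] at hv
        obtain ⟨u, hu, rfl⟩ := hv
        exact ⟨⟨u, hu⟩, rfl⟩)
  have he : ∀ u : U, (e u : Fin a ⊕ Fin a → ℂ) = T (ml F u) := fun _ => rfl
  have hcard : Fintype.card ι = 6 := by rw [← finrank_eq_card_basis f, h6]
  refine main h' k (f.map e) htr' h hj c hcl (Fintype.equivFinOfCardEq hcard) (by norm_num) hB
    (fun y => LinearMap.toMatrix' ((T.comp (ml F)).comp (U.subtype.comp (q y))))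
    (fun y σ => ?_) ψ fun v => ?_
  · apply Matrix.toLin'.injective
    refine LinearMap.ext fun v => ?_
    rw [Matrix.toLin'_apply, Matrix.toLin'_apply, ← mulVec_mulVec, ← mulVec_mulVec,
      LinearMap.toMatrix'_mulVec, LinearMap.toMatrix'_mulVec]
    change T (ml F (q y (DS Z σ *ᵥ v))) = DS Z' σ *ᵥ T (ml F (q y v))
    rw [hq' y _ (DS_mem σ), ml_apply, mulVec_mulVec, hf.fds, ← mulVec_mulVec,
      hT1 _ (DS_mem σ)]
    rfl
  · rw [hψ, KW.alt_apply, Basis.det_map]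
    congr 1
    funext y
    have h1 : k.pU (((T.comp (ml F)).comp (U.subtype.comp (q y))) (v y)) = e (q y (v y)) :=
      k.pU_of_mem (e (q y (v y))).2
    change _ = e.symm (k.pU _)
    rw [LinearMap.toMatrix'_mulVec, h1, LinearEquiv.symm_apply_apply]

end fin

/-- The conjugate of a square root of a negative number. -/
theorem cc_root {w : ℂ} {D : ℚ} (hD : 0 < D) (hw : w * w = -(D : ℂ)) : cc w = -w := by
  rcases aut_pm hw cc with h1 | h1
  · exfalso
    have h2 : w * (starRingEnd ℂ) w = (Complex.normSq w : ℂ) := Complex.mul_conj w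
    have h3 : (starRingEnd ℂ) w = w := h1
    rw [h3, hw] at h2
    have h4 : (-(D : ℝ)) = Complex.normSq w := by exact_mod_cast h2
    have h5 : (0 : ℝ) < D := by exact_mod_cast hD
    have h6 := Complex.normSq_nonneg w
    linarith
  · exact h1

/-- The dimensions of the eigenspaces. -/
theorem eig_le {j : Matrix (Fin a ⊕ Fin a) (Fin a ⊕ Fin a) ℚ} {w : ℂ} {D : ℚ} (hD : 0 < D)
    (hw : w * w = -(D : ℂ)) : finrank ℂ (EigM j w) ≤ a := by
  have hw0 : w ≠ 0 := by
    rintro rfl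
    rw [mul_zero, eq_comm, neg_eq_zero] at hw
    have h2 : D = 0 := by exact_mod_cast hw
    exact hD.ne' h2
  have hcc : cc w = -w := cc_root hD hw
  have h1 : cjS cc (EigM j w) = EigM j (-w) := by
    have hq : (qm j).map cc = qm j := cK_aut cc j
    have hq' : (qm j).map cc.symm = qm j := cK_aut cc.symm j
    ext v
    rw [mem_cjS, mem_eigM, mem_eigM, ← hcc]
    constructor
    · intro h1
      have h2 := map_mulVec_aut cc (qm j) (fun i => cc.symm (v i))
      rw [h1, hq] at h2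
      have h3 : (fun i => cc (cc.symm (v i))) = v := by
        funext i
        simp
      rw [h3] at h2
      rw [← h2]
      funext i
      simp
    · intro h1
      have h2 := map_mulVec_aut cc.symm (qm j) v
      rw [h1, hq'] at h2
      rw [← h2]
      funext i
      simp
  have h2 : finrank ℂ (EigM j (-w)) = finrank ℂ (EigM j w) := by rw [← h1, finrank_cjS]
  have h3 : Disjoint (EigM j w) (EigM j (-w)) := by
    rw [Submodule.disjoint_def]
    intro v hv hv'
    rw [mem_eigM] at hv hv'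
    rw [hv] at hv'
    have h4 : (2 * w) • v = 0 := by
      have h5 : w • v + w • v = 0 := by
        nth_rewrite 1 [hv']
        rw [← add_smul, neg_add_cancel, zero_smul]
      rw [two_mul, add_smul, h5]
    exact (smul_eq_zero.1 h4).resolve_left (mul_ne_zero two_ne_zero hw0)
  have h4 := Submodule.finrank_add_finrank_le_of_disjoint h3
  rw [h2, finrank_fintype_fun_eq_card] at h4
  simp only [Fintype.card_sum, Fintype.card_fin] at h4
  omega

end Six

/-- **S_Q6.** -/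
theorem s_q6 : S_Q6 := by
  intro B G hB Z h hq U hU h6 hA htr ι _ _ f q hq' ψ hψ c
  obtain ⟨a, Z', E, F, hf, h', hs, ha, h0⟩ := exists_fac h hU.1
  have hi := hf.inj hU h0
  have hU' := hf.irr hU h0
  obtain ⟨φ, hφ, hc⟩ := hq a Z' E F hf h' hs ha
  obtain ⟨hsp, hiso, -⟩ := Pool.Agent.Y261.P.jspec a Z' h' hs ha φ hφ
  obtain ⟨z, hz, T, hT1, hT2, hT3⟩ := hiso _ hU'
  have hisot := Six.isot (U := U) h' hf hA hT1
  rw [hT3] at hisot
  have hzi : z.im ≠ 0 := by
    intro hzi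
    obtain ⟨u, hu, v, hv, huv⟩ := om_real h' hzi (hsp z hz).1
    exact huv (hisot u hu v hv)
  have hd : (minpoly ℚ φ).natDegree = 2 := hc.resolve_left fun hall => hzi (hall z hz)
  obtain ⟨w, D, j, hD, hw, hjj, hj, hmem⟩ := Pool.Agent.H926.A.Six.quad hφ.1 hd hz hzi
  have hfU : finrank ℂ (U.map (ml F)) = 6 := by rw [finrank_ml hi, h6]
  have hfr : finrank ℂ (EigM φ z) = 6 := by
    rw [← hT3, Pool.Agent.Y977.P.finrank_inj T hT2, hfU]
  have ha6 : a = 6 := by
    have h1 := (hsp z hz).2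
    rw [hfr, hd] at h1
    omega
  have hEE : EigM φ z = EigM j w := by
    ext v
    rw [hmem, mem_eigM]
  by_cases hex : ∃ (D' : ℚ) (j' : (Fin a ⊕ Fin a → ℚ) →ₗ[ℚ] (Fin a ⊕ Fin a → ℚ)), 0 < D' ∧
      St.IsHom (perOne Z') (perOne Z') j' ∧ (∀ v, j' (j' v) = -(D' • v)) ∧
      HasSplitDisc (perOne Z') 3 D' j'
  · obtain ⟨D', j', hD', ⟨Ψ, hΨ⟩, hjj', hsd⟩ := hex
    obtain ⟨J, hJ⟩ : ∃ J : Matrix (Fin a ⊕ Fin a) (Fin a ⊕ Fin a) ℚ, Matrix.toLin' J = j' :=
      ⟨LinearMap.toMatrix' j', Matrix.toLin'_toMatrix' j'⟩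
    have hJc : qm J * DZ Z' = DZ Z' * qm J :=
      Pool.Agent.Y261.P.comm_of_tangent (φ := J) (Ψ := Ψ) h'
        (fun v => by rw [hΨ, ← hJ, Matrix.toLin'_apply])
    have hJJ : J * J = -(D' • (1 : Matrix (Fin a ⊕ Fin a) (Fin a ⊕ Fin a) ℚ)) := by
      apply Matrix.toLin'.injective
      refine LinearMap.ext fun v => ?_
      have h1 := hjj' v
      rw [← hJ, Matrix.toLin'_apply, Matrix.toLin'_apply, mulVec_mulVec] at h1
      rw [Matrix.toLin'_apply, Matrix.toLin'_apply, h1, neg_mulVec, smul_mulVec, one_mulVec]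
    obtain ⟨w', hw'⟩ : ∃ w' : ℂ, w' * w' = -(D' : ℂ) := by
      refine ⟨Complex.I * (Real.sqrt (D' : ℝ) : ℂ), ?_⟩
      have h1 : (0 : ℝ) ≤ (D' : ℝ) := by exact_mod_cast hD'.le
      have h2 : ((Real.sqrt (D' : ℝ) : ℝ) : ℂ) * ((Real.sqrt (D' : ℝ) : ℝ) : ℂ) = (D' : ℂ) := by
        rw [← Complex.ofReal_mul, Real.mul_self_sqrt h1]
        simp
      have h3 : Complex.I * Complex.I = -1 := Complex.I_mul_I
      linear_combination (Complex.I * Complex.I) * h2 + (D' : ℂ) * h3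
    have hw0 : w' ≠ 0 := by
      rintro rfl
      rw [mul_zero, eq_comm, neg_eq_zero] at hw'
      have h2 : D' = 0 := by exact_mod_cast hw'
      exact hD'.ne' h2
    have hcl : Six.Cl c Z' D' J := fun _ _ => Or.inl ⟨3, ha6, by rw [hJ]; exact hsd⟩
    have hpc : ∀ X ∈ LZ Z', ∀ v, pj J w' (X *ᵥ v) = X *ᵥ pj J w' v := by
      intro X hX v
      rw [pj_apply, pj_apply, mulVec_mulVec, Pool.Agent.Y261.P.qm_comm hJc X hX, mulVec_smul,
        mulVec_add, mulVec_smul, mulVec_mulVec]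
    have hJv : ∀ v : Fin a ⊕ Fin a → ℂ, qm J *ᵥ (qm J *ᵥ v) = -((D' : ℂ) • v) := by
      intro v
      have h1 : qm J * qm J = cK ℂ (J * J) := by
        rw [cK_mul]
        rfl
      rw [mulVec_mulVec, h1, hJJ]
      have h2 : cK ℂ (-(D' • (1 : Matrix (Fin a ⊕ Fin a) (Fin a ⊕ Fin a) ℚ))) =
          -((D' : ℂ) • (1 : Matrix (Fin a ⊕ Fin a) (Fin a ⊕ Fin a) ℂ)) := by
        ext i k
        by_cases hik : i = k <;> simp [cK, hik]
      rw [h2, neg_mulVec, smul_mulVec, one_mulVec]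
    have hpm : ∀ v, pj J w' v ∈ EigM J w' := by
      intro v
      rw [mem_eigM, pj_apply, mulVec_smul, mulVec_add, mulVec_smul, hJv, smul_comm w']
      congr 1
      rw [smul_add, smul_smul w' w', hw', neg_smul, add_comm]
    by_cases hinj : ∀ u ∈ U.map (ml F), pj J w' u = 0 → u = 0
    · refine Six.fin hB h hU h6 hA htr f q hq' ψ hψ c hf h' hi hU' ha6 hD' hw' hJJ hJc (pj J w')
        hpc hinj ?_ hcl
      apply Submodule.eq_of_le_of_finrank_le
      · rintro _ ⟨u, _, rfl⟩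
        exact hpm u
      · rw [Pool.Agent.Y977.P.finrank_inj (pj J w') hinj, hfU]
        exact (Six.eig_le hD' hw').trans ha6.le
    · have hst : Stab (LZ Z') (U.map (ml F) ⊓ LinearMap.ker (pj J w')) := by
        intro X hX u hu
        refine ⟨hU'.2.1 X hX u hu.1, ?_⟩
        change pj J w' (X *ᵥ u) = 0
        rw [hpc X hX, LinearMap.mem_ker.1 hu.2, mulVec_zero]
      have hle : U.map (ml F) ≤ EigM J (-w') := by
        rcases hU'.2.2 _ inf_le_left hst with h1 | h1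
        · exfalso
          apply hinj
          intro u hu hu0
          have h2 : u ∈ U.map (ml F) ⊓ LinearMap.ker (pj J w') := ⟨hu, LinearMap.mem_ker.2 hu0⟩
          rw [h1, Submodule.mem_bot] at h2
          exact h2
        · intro u hu
          rw [← h1] at hu
          have h2 := LinearMap.mem_ker.1 hu.2
          rw [pj_apply, smul_eq_zero] at h2
          have h3 := h2.resolve_left (inv_ne_zero (mul_ne_zero two_ne_zero hw0))
          rw [mem_eigM, neg_smul]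
          exact eq_neg_of_add_eq_zero_left h3
      have hwn : (-w') * (-w') = -(D' : ℂ) := by rw [neg_mul_neg, hw']
      refine Six.fin hB h hU h6 hA htr f q hq' ψ hψ c hf h' hi hU' ha6 hD' hwn hJJ hJc
        LinearMap.id (fun _ _ _ => rfl) (fun _ _ hu => hu) ?_ hcl
      rw [Submodule.map_id]
      apply Submodule.eq_of_le_of_finrank_le hle
      rw [hfU]
      exact (Six.eig_le hD' hwn).trans ha6.le
  · exact Six.fin hB h hU h6 hA htr f q hq' ψ hψ c hf h' hi hU' ha6 hD hw hjj hj T hT1 hT2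
      (hT3.trans hEE) (fun _ _ => Or.inr ⟨ha6, Six.simple_top h' hs ha,
        fun hr => hA (alt_of_rmm hf h' hs ha hU' (rmm_of h' hr)), fun D' j' e1 e2 e3 e4 =>
        hex ⟨D', j', e1, e2, e3, e4⟩⟩)

end

end Pool.Agent.H926.C
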