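import Mathlib
import Pool.Agent.H926.A.Qkun
import Pool.Agent.H926.C.Qasm
import Pool.Agent.H926.Mum3
import Pool.Graph.R_pool_sql_team_seeded_1acbe0a2.Y275.P.Final3

/-!
# Pull-backs and products for the ring of the imaginary quadratic Weil classes
-/

set_option linter.unusedSectionVars false

namespace Pool.Agent.H926.C

open Matrix Module Pool.Agent.Y90 Pool.Agent.W437.HC Pool.Agent.W437.HD
  Pool.Agent.TH504.CB
open Pool.Agent.W548.Odd hiding cv
open Pool.Agent.H204R3.CM (IsHodge)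
open Pool.Agent.H204R3.SP (Kills bil2)
open Pool.Agent.W437.HP (cK cK_mul cK_one)
open Pool.Agent.H926
open Pool.Agent.H926.A

noncomputable section

section pull

variable {H T : Type} [AddCommGroup H] [Module ℚ H] [AddCommGroup T] [Module ℂ T] {per : H →+ T}
  {B : ℕ} {c : Prop}

/-- Pull-backs of the elements of the ring. -/
theorem pull_q {H' T' : Type} [AddCommGroup H'] [Module ℚ H'] [AddCommGroup T'] [Module ℂ T']
    {per' : H' →+ T'} {κ : Type} {g : H' [⋀^κ]→ₗ[ℚ] ℚ} (hg : QR per' B c κ g)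
    (Φ : H →ₗ[ℚ] H') (Ψ : T →ₗ[ℂ] T') (hΦ : ∀ v, Ψ (per v) = per' (Φ v)) :
    QR per B c κ (g.compLinearMap Φ) := by
  induction hg with
  | unit f => exact QR.unit _
  | divisor hκ f hf => exact QR.divisor hκ _ (isHodge_comp Φ Ψ hΦ hf)
  | weil hY hn f hf h hh =>
    obtain ⟨Ψ', hΨ'⟩ := hh
    exact QR.weil hY hn f hf (h ∘ₗ Φ) ⟨Ψ' ∘ₗ Ψ, fun v => by
      rw [LinearMap.comp_apply, hΦ, hΨ']
      rfl⟩
  | zero κ => exact QR.zero κ
  | add f g _ _ hf hg => exact QR.add _ _ hf hg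
  | smul a f _ hf => exact QR.smul a _ hf
  | reindex e f _ hf => exact QR.reindex e _ hf
  | cup f g _ _ h hh hf hg => exact QR.cup _ _ hf hg _ fun v => hh _

/-- The elements of the ring are Hodge classes. -/
theorem qr_isHodge {κ : Type} {f : H [⋀^κ]→ₗ[ℚ] ℚ} (hf : QR per B c κ f) :
    IsHodge per f := by
  induction hf with
  | @unit κ _ f =>
    refine ⟨MultilinearMap.constOfIsEmpty ℝ (fun _ => T) ((f 0 : ℚ) : ℝ), fun v => ?_,
      fun z _ u => ?_⟩
    · rw [Subsingleton.elim v 0]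
      rfl
    · rfl
  | divisor hκ f hf => exact hf
  | weil hY hn f hf h hh =>
    obtain ⟨Ψ, hΨ⟩ := hh
    exact isHodge_comp h Ψ hΨ hf.1
  | zero κ =>
    refine ⟨0, fun v => ?_, fun z _ u => rfl⟩
    rw [_root_.zero_apply, AlternatingMap.zero_apply, Rat.cast_zero]
  | add f g _ _ hf hg =>
    obtain ⟨ψ, h1, h2⟩ := hf
    obtain ⟨ψ', h3, h4⟩ := hg
    refine ⟨ψ + ψ', fun v => ?_, fun z hz u => ?_⟩
    · rw [_root_.add_apply, h1, h3, AlternatingMap.add_apply, Rat.cast_add]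
    · rw [_root_.add_apply, _root_.add_apply, h2 z hz, h4 z hz]
  | smul a f _ hf =>
    obtain ⟨ψ, h1, h2⟩ := hf
    refine ⟨(a : ℝ) • ψ, fun v => ?_, fun z hz u => ?_⟩
    · rw [_root_.smul_apply, h1, AlternatingMap.smul_apply, smul_eq_mul, smul_eq_mul, Rat.cast_mul]
    · rw [_root_.smul_apply, _root_.smul_apply, h2 z hz]
  | reindex e f _ hf =>
    obtain ⟨ψ, h1, h2⟩ := hf
    refine ⟨ψ.domDomCongr e, fun v => ?_, fun z hz u => ?_⟩
    · rw [MultilinearMap.domDomCongr_apply, AlternatingMap.domDomCongr_apply]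
      exact h1 _
    · rw [MultilinearMap.domDomCongr_apply, MultilinearMap.domDomCongr_apply]
      exact h2 z hz _
  | @cup κ κ' _ _ _ _ f g _ _ h hh hf hg =>
    obtain ⟨ψ, h1, h2⟩ := hf
    obtain ⟨ψ', h3, h4⟩ := hg
    have h5 : h = MultilinearMap.alternatization
        (prd f.toMultilinearMap g.toMultilinearMap) := by
      ext v
      rw [hh, MultilinearMap.alternatization_apply]
      refine Finset.sum_congr rfl fun σ _ => ?_
      rw [MultilinearMap.domDomCongr_apply, prd_apply, Units.smul_def, zsmul_eq_mul]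
      rfl
    rw [h5]
    refine isHodge_alt (prd ψ ψ') (fun v => ?_) fun z hz u => ?_
    · rw [prd_apply, prd_apply, h1, h3]
      push_cast
      rfl
    · rw [prd_apply, prd_apply, h2 z hz, h4 z hz]

end pull

variable {G a B : ℕ} {c : Prop} {Z : Matrix (Fin G) (Fin G) ℂ} {Z' : Matrix (Fin a) (Fin a) ℂ}
  {E : Matrix (Fin G ⊕ Fin G) (Fin a ⊕ Fin a) ℚ} {F : Matrix (Fin a ⊕ Fin a) (Fin G ⊕ Fin G) ℚ}

/-- Pull-backs of the elements of the complex span of the ring. -/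
theorem rcq_pull (h : PM Z) (h' : PM Z') (hf : Fac Z Z' E F) {κ : Type}
    {g : (κ → Fin a ⊕ Fin a → ℚ) → ℂ} (hg : g ∈ RCq (perOne Z') B c κ) :
    (fun v : κ → Fin G ⊕ Fin G → ℚ => g fun k => F *ᵥ v k) ∈
      RCq (perOne Z) B c κ := by
  obtain ⟨Ψ, hΨ⟩ := h.cht.hom h'.cht (R := F) (by rw [DJ_JR, DJ_JR]; exact hf.fd)
  unfold RCq at hg
  induction hg using Submodule.span_induction with
  | mem g hg =>
    obtain ⟨r, hr, rfl⟩ := hg
    exact RCq_of (pull_q hr (Matrix.mulVecLin F) Ψ hΨ)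
  | zero => exact Submodule.zero_mem _
  | add x y _ _ hx hy => exact Submodule.add_mem _ hx hy
  | smul c' x _ hx => exact Submodule.smul_mem _ c' hx

/-- Pull-backs of forms. -/
theorem nq_pull (h : PM Z) (h' : PM Z') (hf : Fac Z Z' E F) {κ : Type} [Finite κ]
    {ψ : MultilinearMap ℂ (fun _ : κ => Fin a ⊕ Fin a → ℂ) ℂ} (hψ : ψ ∈ NQ Z' B c κ) :
    ψ.compLinearMap (fun _ => ml F) ∈ NQ Z B c κ := by
  intro i1 i2
  have h1 := rcq_pull h h' hf (hψ i1 i2)
  have h2 : altQ (ψ.compLinearMap (fun _ => ml F)) =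
      fun v : κ → Fin G ⊕ Fin G → ℚ => altQ ψ fun k => F *ᵥ v k := by
    funext v
    unfold altQ
    refine Finset.sum_congr rfl fun σ _ => ?_
    rw [MultilinearMap.compLinearMap_apply]
    simp only [ml_cv]
  rw [h2]
  exact h1

/-- All alternating forms killed by the Lie algebra belong to the system. -/
def AltFoq (Z : Matrix (Fin G) (Fin G) ℂ) (B : ℕ) (c : Prop) : Prop :=
  ∀ (κ : Type) [Fintype κ] [DecidableEq κ] (ψ : (Fin G ⊕ Fin G → ℂ) [⋀^κ]→ₗ[ℂ] ℂ),
    (∀ X ∈ LZ Z, Kills (ph (Fin G ⊕ Fin G) X) ψ.toMultilinearMap) →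
      ψ.toMultilinearMap ∈ NQ Z B c κ

theorem altFoq_of_all (h : AllFq Z B c) : AltFoq Z B c := fun κ _ _ ψ hψ =>
  h κ ψ.toMultilinearMap hψ

section kunneth

variable {a₁ a₂ : ℕ} {Z₁ : Matrix (Fin a₁) (Fin a₁) ℂ} {Z₂ : Matrix (Fin a₂) (Fin a₂) ℂ}
  {E₁ : Matrix (Fin G ⊕ Fin G) (Fin a₁ ⊕ Fin a₁) ℚ}
  {F₁ : Matrix (Fin a₁ ⊕ Fin a₁) (Fin G ⊕ Fin G) ℚ}
  {E₂ : Matrix (Fin G ⊕ Fin G) (Fin a₂ ⊕ Fin a₂) ℚ}
  {F₂ : Matrix (Fin a₂ ⊕ Fin a₂) (Fin G ⊕ Fin G) ℚ}

variable (d : Dec Z Z₁ Z₂ E₁ F₁ E₂ F₂)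
include d

/-- **Products with independent Lie algebras.** -/
theorem kunnethq (h : PM Z) (h₁ : PM Z₁) (h₂ : PM Z₂)
    (hsp : ∀ X ∈ LZ Z₁, cK ℂ E₁ * X * cK ℂ F₁ ∈ LZ Z) (hA : AltFoq Z₁ B c) (hT : AllFq Z₂ B c) :
    AltFoq Z B c := by
  classical
  intro κ _ _ φ hφ
  obtain ⟨P₁, hP₁⟩ : ∃ P₁, P₁ = (ml E₁).comp (ml F₁) := ⟨_, rfl⟩
  obtain ⟨P₂, hP₂⟩ : ∃ P₂, P₂ = (ml E₂).comp (ml F₂) := ⟨_, rfl⟩
  have hFE₁ : ∀ v, ml F₁ (ml E₁ v) = v := fun v => by
    rw [ml_apply, ml_apply, mulVec_mulVec, d.f₁.fe', one_mulVec]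
  have hFE₂ : ∀ v, ml F₂ (ml E₂ v) = v := fun v => by
    rw [ml_apply, ml_apply, mulVec_mulVec, d.f₂.fe', one_mulVec]
  have hFE₁₂ : ∀ v, ml F₁ (ml E₂ v) = 0 := fun v => by
    rw [ml_apply, ml_apply, mulVec_mulVec, d.c12, zero_mulVec]
  have hFE₂₁ : ∀ v, ml F₂ (ml E₁ v) = 0 := fun v => by
    rw [ml_apply, ml_apply, mulVec_mulVec, d.c21, zero_mulVec]
  have hPP : ∀ v, P₁ v + P₂ v = v := fun v => by
    rw [hP₁, hP₂]
    change ml E₁ (ml F₁ v) + ml E₂ (ml F₂ v) = v
    rw [ml_apply, ml_apply, ml_apply, ml_apply, mulVec_mulVec, mulVec_mulVec, ← add_mulVec,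
      d.csum, one_mulVec]
  have hPP₁ : ∀ v, P₁ (P₁ v) = P₁ v := fun v => by
    rw [hP₁]
    change ml E₁ (ml F₁ (ml E₁ (ml F₁ v))) = ml E₁ (ml F₁ v)
    rw [hFE₁]
  have hPP₂ : ∀ v, P₂ (P₂ v) = P₂ v := fun v => by
    rw [hP₂]
    change ml E₂ (ml F₂ (ml E₂ (ml F₂ v))) = ml E₂ (ml F₂ v)
    rw [hFE₂]
  -- decomposition of the form
  obtain ⟨ψ, hψ⟩ : ∃ ψ : Finset κ → MultilinearMap ℂ (fun _ : κ => Fin G ⊕ Fin G → ℂ) ℂ,
      ∀ s v, ψ s v = φ (s.piecewise (fun k => P₁ (v k)) fun k => P₂ (v k)) := by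
    refine ⟨fun s => φ.toMultilinearMap.compLinearMap
      fun k => if k ∈ s then P₁ else P₂, fun s v => ?_⟩
    rw [MultilinearMap.compLinearMap_apply]
    change φ _ = φ _
    congr 1
    funext k
    by_cases hk : k ∈ s
    · rw [if_pos hk, Finset.piecewise_eq_of_mem _ _ _ hk]
    · rw [if_neg hk, Finset.piecewise_eq_of_notMem _ _ _ hk]
  have h1 : φ.toMultilinearMap = ∑ s : Finset κ, ψ s := by
    refine MultilinearMap.ext fun v => ?_
    rw [_root_.sum_apply]
    have h2 := φ.toMultilinearMap.map_add_univ (fun k => P₁ (v k)) fun k => P₂ (v k)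
    have h3 : ((fun k => P₁ (v k)) + fun k => P₂ (v k)) = v := by
      funext k
      exact hPP (v k)
    rw [h3] at h2
    rw [h2]
    refine Finset.sum_congr rfl fun s _ => ?_
    rw [hψ]
    rfl
  rw [h1]
  refine Submodule.sum_mem _ fun s _ => ?_
  -- the variables of the two kinds
  obtain ⟨α, β, _, _, _, _, ε, hε1, hε2⟩ : ∃ (α β : Type) (_ : Fintype α) (_ : DecidableEq α)
      (_ : Fintype β) (_ : DecidableEq β) (ε : κ ≃ α ⊕ β),
      (∀ x : α, ε.symm (Sum.inl x) ∈ s) ∧ ∀ y : β, ε.symm (Sum.inr y) ∉ s :=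
    ⟨{k // k ∈ s}, {k // k ∉ s}, inferInstance, inferInstance, inferInstance, inferInstance,
      (Equiv.sumCompl (fun k => k ∈ s)).symm, fun x => x.2, fun y => y.2⟩
  obtain ⟨Φ, hΦ⟩ : ∃ Φ : MultilinearMap ℂ (fun _ : β => Fin G ⊕ Fin G → ℂ)
      (MultilinearMap ℂ (fun _ : α => Fin G ⊕ Fin G → ℂ) ℂ),
      ∀ y x, Φ y x = φ fun k => Sum.elim (fun i => P₁ (x i)) (fun j => P₂ (y j)) (ε k) := by
    refine ⟨MultilinearMap.currySum ((φ.toMultilinearMap.compLinearMap
      fun k => Sum.elim (fun _ => P₁) (fun _ => P₂) (ε k)).domDomCongr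
        (ε.trans (Equiv.sumComm α β))), fun y x => ?_⟩
    rw [MultilinearMap.currySum_apply, MultilinearMap.domDomCongr_apply,
      MultilinearMap.compLinearMap_apply]
    change φ _ = φ _
    congr 1
    funext k
    rcases hk : ε k with i | j
    · simp [hk]
    · simp [hk]
  have hψΦ : ∀ v, ψ s v = Φ (fun j => v (ε.symm (Sum.inr j))) (fun i => v (ε.symm (Sum.inl i))) := by
    intro v
    rw [hψ, hΦ]
    congr 1
    funext k
    rcases hk : ε k with i | j
    · have h3 : ε.symm (Sum.inl i) = k := by rw [← hk, Equiv.symm_apply_apply]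
      have h4 : k ∈ s := h3 ▸ hε1 i
      rw [Finset.piecewise_eq_of_mem _ _ _ h4, Sum.elim_inl, h3]
    · have h3 : ε.symm (Sum.inr j) = k := by rw [← hk, Equiv.symm_apply_apply]
      have h4 : k ∉ s := h3 ▸ hε2 j
      rw [Finset.piecewise_eq_of_notMem _ _ _ h4, Sum.elim_inr, h3]
  have hE₁P : ∀ x, P₁ (ml E₁ x) = ml E₁ x := fun x => by
    rw [hP₁]
    change ml E₁ (ml F₁ (ml E₁ x)) = ml E₁ x
    rw [hFE₁]
  have hE₂P : ∀ x, P₂ (ml E₂ x) = ml E₂ x := fun x => by
    rw [hP₂]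
    change ml E₂ (ml F₂ (ml E₂ x)) = ml E₂ x
    rw [hFE₂]
  have hP₁F : ∀ x, P₁ x = ml E₁ (ml F₁ x) := fun x => by rw [hP₁]; rfl
  have hP₂F : ∀ x, P₂ x = ml E₂ (ml F₂ x) := fun x => by rw [hP₂]; rfl
  -- the forms in the first variables
  have hΦ1 : ∀ y, Φ y ∈ NQ Z B c α := by
    intro y
    let ψy : (Fin a₁ ⊕ Fin a₁ → ℂ) [⋀^α]→ₗ[ℂ] ℂ :=
      { (Φ y).compLinearMap (fun _ => ml E₁) with
        map_eq_zero_of_eq' := by
          intro x i i' hx hne
          change Φ y (fun i => ml E₁ (x i)) = 0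
          rw [hΦ]
          refine φ.map_eq_zero_of_eq _ (i := ε.symm (Sum.inl i)) (j := ε.symm (Sum.inl i')) ?_ ?_
          · rw [Equiv.apply_symm_apply, Equiv.apply_symm_apply, Sum.elim_inl, Sum.elim_inl, hx]
          · intro h3
            exact hne (Sum.inl_injective (ε.symm.injective h3)) }
    have hψy : ∀ x, ψy x = Φ y (fun i => ml E₁ (x i)) := fun x => rfl
    have h3 : ψy.toMultilinearMap ∈ NQ Z₁ B c α := by
      refine hA α ψy fun X hX x => ?_
      have h4 := hφ _ (hsp X hX) fun k =>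
        Sum.elim (fun i => P₁ (ml E₁ (x i))) (fun j => P₂ (y j)) (ε k)
      rw [← ε.symm.sum_comp, Fintype.sum_sum_type] at h4
      have h5 : ∀ j : β, φ.toMultilinearMap (Function.update (fun k =>
          Sum.elim (fun i => P₁ (ml E₁ (x i))) (fun j => P₂ (y j)) (ε k)) (ε.symm (Sum.inr j))
            (ph (Fin G ⊕ Fin G) (cK ℂ E₁ * X * cK ℂ F₁)
              (Sum.elim (fun i => P₁ (ml E₁ (x i))) (fun j => P₂ (y j))
                (ε (ε.symm (Sum.inr j)))))) = 0 := by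
        intro j
        refine φ.toMultilinearMap.map_coord_zero (ε.symm (Sum.inr j)) ?_
        rw [Function.update_self, Equiv.apply_symm_apply, Sum.elim_inr, ph_apply', hP₂F,
          ← mulVec_mulVec]
        have h6 : cK ℂ F₁ *ᵥ ml E₂ (ml F₂ (y j)) = 0 := hFE₁₂ _
        rw [h6, mulVec_zero]
      rw [Finset.sum_congr rfl fun j _ => h5 j, Finset.sum_const_zero, add_zero] at h4
      rw [← h4]
      refine Finset.sum_congr rfl fun i _ => ?_
      change ψy _ = φ _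
      rw [hψy, hΦ]
      congr 1
      funext k
      rw [Equiv.apply_symm_apply, Sum.elim_inl]
      by_cases hk : k = ε.symm (Sum.inl i)
      · subst hk
        rw [Function.update_self, Equiv.apply_symm_apply, Sum.elim_inl, Function.update_self,
          ph_apply', hE₁P, ph_apply', hE₁P, ← mulVec_mulVec, ← mulVec_mulVec]
        have h6 : cK ℂ F₁ *ᵥ ml E₁ (x i) = x i := hFE₁ _
        rw [h6]
        rfl
      · rw [Function.update_of_ne hk]
        rcases hk' : ε k with i' | j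
        · rw [Sum.elim_inl, Sum.elim_inl]
          have h6 : i' ≠ i := by
            rintro rfl
            apply hk
            rw [← hk', Equiv.symm_apply_apply]
          rw [Function.update_of_ne h6]
        · rfl
    have h4 := nq_pull h h₁ d.f₁ h3
    have h5 : ψy.toMultilinearMap.compLinearMap (fun _ => ml F₁) = Φ y := by
      refine MultilinearMap.ext fun x => ?_
      rw [MultilinearMap.compLinearMap_apply]
      change ψy _ = _
      rw [hψy, hΦ, hΦ]
      congr 1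
      funext k
      congr 1
      funext i
      rw [← hP₁F, hPP₁]
    rw [h5] at h4
    exact h4
  -- coordinates
  let S : Submodule ℂ (MultilinearMap ℂ (fun _ : α => Fin G ⊕ Fin G → ℂ) ℂ) := NQ Z B c α
  let bS := finBasis ℂ S
  obtain ⟨b, hb⟩ : ∃ b : Fin (finrank ℂ S) → MultilinearMap ℂ (fun _ : β => Fin G ⊕ Fin G → ℂ) ℂ,
      ∀ r y, b r y = bS.repr ⟨Φ y, hΦ1 y⟩ r :=
    ⟨fun r => (bS.coord r).compMultilinearMap (Φ.codRestrict S hΦ1), fun r y => rfl⟩
  have hbΦ : ∀ y x, Φ y x = ∑ r, b r y * (bS r : MultilinearMap ℂ _ ℂ) x := by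
    intro y x
    have h3 := congrArg Subtype.val (bS.sum_repr ⟨Φ y, hΦ1 y⟩)
    have h4 := congrArg (fun F : MultilinearMap ℂ (fun _ : α => Fin G ⊕ Fin G → ℂ) ℂ => F x) h3
    simp only at h4
    rw [← h4, AddSubmonoidClass.coe_finsetSum, _root_.sum_apply]
    refine Finset.sum_congr rfl fun r _ => ?_
    rw [hb]
    rfl
  have hbN : ∀ r, b r ∈ NQ Z B c β := by
    intro r
    have h3 : (b r).compLinearMap (fun _ => ml E₂) ∈ NQ Z₂ B c β := by
      refine hT β _ fun X hX y => ?_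
      have h4 : ∑ j, Φ (Function.update (fun j => ml E₂ (y j)) j
          (ml E₂ (ph (Fin a₂ ⊕ Fin a₂) X (y j)))) = 0 := by
        refine MultilinearMap.ext fun x => ?_
        rw [_root_.sum_apply]
        have h5 := hφ _ (d.sep2 hsp X hX) fun k =>
          Sum.elim (fun i => P₁ (x i)) (fun j => P₂ (ml E₂ (y j))) (ε k)
        rw [← ε.symm.sum_comp, Fintype.sum_sum_type] at h5
        have h6 : ∀ i : α, φ.toMultilinearMap (Function.update (fun k =>
            Sum.elim (fun i => P₁ (x i)) (fun j => P₂ (ml E₂ (y j))) (ε k)) (ε.symm (Sum.inl i))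
              (ph (Fin G ⊕ Fin G) (cK ℂ E₂ * X * cK ℂ F₂)
                (Sum.elim (fun i => P₁ (x i)) (fun j => P₂ (ml E₂ (y j)))
                  (ε (ε.symm (Sum.inl i)))))) = 0 := by
          intro i
          refine φ.toMultilinearMap.map_coord_zero (ε.symm (Sum.inl i)) ?_
          rw [Function.update_self, Equiv.apply_symm_apply, Sum.elim_inl, ph_apply', hP₁F,
            ← mulVec_mulVec]
          have h6 : cK ℂ F₂ *ᵥ ml E₁ (ml F₁ (x i)) = 0 := hFE₂₁ _
          rw [h6, mulVec_zero]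
        rw [Finset.sum_congr rfl fun j _ => h6 j, Finset.sum_const_zero, zero_add] at h5
        rw [_root_.zero_apply, ← h5]
        refine Finset.sum_congr rfl fun j _ => ?_
        change _ = φ _
        rw [hΦ]
        congr 1
        funext k
        rw [Equiv.apply_symm_apply, Sum.elim_inr]
        by_cases hk : k = ε.symm (Sum.inr j)
        · subst hk
          rw [Function.update_self, Equiv.apply_symm_apply, Sum.elim_inr, Function.update_self,
            ph_apply', hE₂P, ph_apply', hE₂P, ← mulVec_mulVec, ← mulVec_mulVec]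
          have h6 : cK ℂ F₂ *ᵥ ml E₂ (y j) = y j := hFE₂ _
          rw [h6]
          rfl
        · rw [Function.update_of_ne hk]
          rcases hk' : ε k with i | j'
          · rfl
          · rw [Sum.elim_inr, Sum.elim_inr]
            have h6 : j' ≠ j := by
              rintro rfl
              apply hk
              rw [← hk', Equiv.symm_apply_apply]
            rw [Function.update_of_ne h6]
      have h5 : ∑ j, (⟨Φ (Function.update (fun j => ml E₂ (y j)) j
          (ml E₂ (ph (Fin a₂ ⊕ Fin a₂) X (y j)))), hΦ1 _⟩ : S) = 0 := by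
        apply Subtype.ext
        rw [AddSubmonoidClass.coe_finsetSum]
        exact h4
      have h6 := congrArg (fun z => bS.repr z r) h5
      simp only [map_sum, map_zero, Finsupp.coe_zero, Pi.zero_apply, Finsupp.coe_finsetSum,
        Finset.sum_apply] at h6
      rw [← h6]
      refine Finset.sum_congr rfl fun j _ => ?_
      rw [MultilinearMap.compLinearMap_apply, ← hb]
      congr 1
      funext j'
      by_cases hj : j' = j
      · subst hj
        rw [Function.update_self, Function.update_self]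
      · rw [Function.update_of_ne hj, Function.update_of_ne hj]
    have h4 := nq_pull h h₂ d.f₂ h3
    have h5 : ((b r).compLinearMap (fun _ => ml E₂)).compLinearMap (fun _ => ml F₂) = b r := by
      refine MultilinearMap.ext fun y => ?_
      rw [MultilinearMap.compLinearMap_apply, MultilinearMap.compLinearMap_apply, hb, hb]
      congr 3
      refine MultilinearMap.ext fun x => ?_
      rw [hΦ, hΦ]
      congr 1
      funext k
      congr 1
      funext j
      rw [← hP₂F, hPP₂]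
    rw [h5] at h4
    exact h4
  -- the conclusion
  have h3 : ψ s = ∑ r, (prd (bS r : MultilinearMap ℂ (fun _ : α => Fin G ⊕ Fin G → ℂ) ℂ)
      (b r)).domDomCongr ε.symm := by
    refine MultilinearMap.ext fun v => ?_
    rw [hψΦ, hbΦ, _root_.sum_apply]
    refine Finset.sum_congr rfl fun r _ => ?_
    rw [MultilinearMap.domDomCongr_apply, prd_apply, mul_comm]
  rw [h3]
  refine Submodule.sum_mem _ fun r _ => ?_
  exact (clo_NQ Z B c).reindex ε.symm ((clo_NQ Z B c).prd_mem (bS r).2 (hbN r)) _ fun v => rfl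

end kunneth

theorem half_memq (h : PM Z) (f : (Fin G ⊕ Fin G → ℂ) →ₗ[ℂ] (Fin G ⊕ Fin G → ℂ) →ₗ[ℂ] ℂ)
    (hf : ∀ x y, f x y - f y x = -Pool.Agent.Y90.om G x y) : bil2 f ∈ NQ Z B c (Fin 2) := by
  have h1 : bil2 (Pool.Agent.Y90.om G) ∈ NQ Z B c (Fin 2) := bil_memq h _ fun X hX u v =>
    h.om_sp hX u v
  intro i1 i2
  have h2 := h1 i1 i2
  obtain rfl : i1 = Fin.fintype 2 := Subsingleton.elim _ _
  obtain rfl : i2 = instDecidableEqFin 2 := Subsingleton.elim _ _
  have h3 : altQ (bil2 f) = (-(1 / 2) : ℂ) • altQ (bil2 (Pool.Agent.Y90.om G)) := by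
    funext v
    have hex : ∀ F : MultilinearMap ℂ (fun _ : Fin 2 => Fin G ⊕ Fin G → ℂ) ℂ,
        altQ F v = F (fun k => cv (v k)) -
          F (fun k => cv (v (Equiv.swap (0 : Fin 2) 1 k))) := by
      intro F
      unfold altQ
      have h4 : (Finset.univ : Finset (Equiv.Perm (Fin 2))) = {1, Equiv.swap 0 1} := by decide
      rw [h4, Finset.sum_pair (by decide), Equiv.Perm.sign_one,
        Equiv.Perm.sign_swap (by decide)]
      simp only [Equiv.Perm.coe_one, id_eq]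
      push_cast
      ring
    rw [hex, Pi.smul_apply, hex, smul_eq_mul]
    have h5 : ∀ F : (Fin G ⊕ Fin G → ℂ) →ₗ[ℂ] (Fin G ⊕ Fin G → ℂ) →ₗ[ℂ] ℂ,
        bil2 F (fun k => cv (v k)) - bil2 F (fun k => cv (v (Equiv.swap (0 : Fin 2) 1 k))) =
          F (cv (v 0)) (cv (v 1)) - F (cv (v 1)) (cv (v 0)) := by
      intro F
      have e1 : Equiv.swap (0 : Fin 2) 1 0 = 1 := by decide
      have e2 : Equiv.swap (0 : Fin 2) 1 1 = 0 := by decide
      change F (cv (v 0)) (cv (v 1)) - F (cv (v (Equiv.swap (0 : Fin 2) 1 0)))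
        (cv (v (Equiv.swap (0 : Fin 2) 1 1))) = _
      rw [e1, e2]
    rw [h5, h5, hf, om_anti (cv (v 1))]
    ring
  rw [h3]
  exact Submodule.smul_mem _ _ h2

/-- **All invariant alternating forms belong to the system.** -/
theorem mum_altFoq (h : PM Z) (hM : MumM Z) : AltFoq Z B c := by
  obtain ⟨N, hN, M, hM', t, D₁, hD₁, N₁, hN₁, M₁, hM₁, t₁, D₂, hD₂, N₂, hN₂, M₂, hM₂, t₂, c1, c2,
    c3⟩ := hM.three h
  have hOm2 : Om G ℂ * Om G ℂ = -1 := Om_sq ℂ
  have hsk : ∀ y ∈ GG (LZ Z), Skw (Pool.Agent.Y90.om G) y := by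
    intro y hy x x'
    obtain ⟨X, hX, rfl⟩ := exists_GG hy
    exact eq_neg_of_add_eq_zero_left (h.om_sp hX x x')
  have htr : LinearMap.trace ℂ (Fin G ⊕ Fin G → ℂ) D₂ = 0 :=
    Pool.Agent.Y91.JP.trace_inv h.setup (Pool.Agent.Y91.JP.trSt hOm2) hD₂
  have d := dbl_of_trp (E := Pool.Agent.Y90.om G) om_anti om_nd t₂ (hsk _ hN₂) (hsk _ hM₂)
  have hw := three_wed (E := Pool.Agent.Y90.om G) om_anti om_nd hsk (hM.fr h) t t₁ t₂ htr
    (mem_GG.2 DZ_mem) hN hM' hD₁ hN₁ hM₁ hN₂ hM₂ c1 c2 c3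
  intro κ _ _ ψ hψ
  have hk : ∀ y ∈ GG (LZ Z), Kills y ψ.toMultilinearMap := by
    intro y hy
    obtain ⟨X, hX, rfl⟩ := exists_GG hy
    exact hψ X hX
  refine d.mem (clo_NQ Z B c) (half_memq h) (fun u v => hk _ (hw u v)) (Or.inr ⟨?_, ?_, hk _ hM₂⟩)
  · have h1 := rk_half t₂.dd htr (m := 4) (by rw [hM.fr h])
    change 0 < rk ((1 / 2 : ℂ) • (1 + D₂))
    rw [h1]
    norm_num
  · have h1 : (2 : ℂ) • ((1 / 2 : ℂ) • (1 + D₂)) - 1 = D₂ := by
      rw [smul_smul]
      norm_num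
    rw [h1]
    exact hk _ hD₂

end

end Pool.Agent.H926.C
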