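import Mathlib
import Pool.Agent.H926.B.Fac
import Pool.Agent.H926.C.Asm
import Pool.Agent.H926.C.Qkun

/-!
# Hodge classes: Weil classes of split type
-/

set_option linter.unusedSectionVars false

namespace Pool.Agent.H926.C

open Matrix Module Pool.Agent.Y90 Pool.Agent.W437.HC Pool.Agent.W437.HD
  Pool.Agent.TH504.CB Pool.Agent.W522.U
open Pool.Agent.W548.Odd hiding cv
open Pool.Agent.H204R3.CM (IsHodge)
open Pool.Agent.W437.HP (cK cK_mul cK_one)
open Pool.Agent.H926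
open Pool.Agent.H926.T
open Pool.Agent.H926.A
open Pool.Agent.H926.B (bnd Sm sm_self fac_move br_seven)
open Pool.Agent.R915 (IsFactor)

noncomputable section

section mono

variable {H T : Type} [AddCommGroup H] [Module ℚ H] [AddCommGroup T] [Module ℂ T] {per : H →+ T}
  {B B' : ℕ} {c : Prop}

theorem qr_mono (hB : B ≤ B') {κ : Type} {f : H [⋀^κ]→ₗ[ℚ] ℚ} (hf : QR per B c κ f) :
    QR per B' c κ f := by
  induction hf with
  | unit f => exact QR.unit f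
  | divisor hκ f hf => exact QR.divisor hκ f hf
  | weil hY hn f hf h hh => exact QR.weil hY (hn.trans hB) f hf h hh
  | zero κ => exact QR.zero κ
  | add f g _ _ hf hg => exact QR.add _ _ hf hg
  | smul a f _ hf => exact QR.smul a _ hf
  | reindex e f _ hf => exact QR.reindex e _ hf
  | cup f g _ _ h hh hf hg => exact QR.cup _ _ hf hg _ hh

theorem rcq_mono (hB : B ≤ B') (κ : Type) : RCq per B c κ ≤ RCq per B' c κ := by
  refine Submodule.span_mono ?_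
  rintro _ ⟨r, hr, rfl⟩
  exact ⟨r, qr_mono hB hr, rfl⟩

theorem nq_mono {G : ℕ} {Z : Matrix (Fin G) (Fin G) ℂ} (hB : B ≤ B') {κ : Type} [Finite κ]
    {F : MultilinearMap ℂ (fun _ : κ => Fin G ⊕ Fin G → ℂ) ℂ} (hF : F ∈ NQ Z B c κ) :
    F ∈ NQ Z B' c κ := fun i1 i2 => rcq_mono hB κ (hF i1 i2)

theorem allFq_mono {G : ℕ} {Z : Matrix (Fin G) (Fin G) ℂ} (hB : B ≤ B') (h : AllFq Z B c) :
    AllFq Z B' c := fun κ _ _ ψ hψ => nq_mono hB (h κ ψ hψ)

end mono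

variable {G g : ℕ} {c : Prop} {Z : Matrix (Fin G) (Fin G) ℂ}

/-- All invariant forms. -/
theorem all_small (h6W : S_Q6) (h : PM Z) (hq : QF Z) (hg : SmR Z g) (hg7 : c → g ≤ 7)
    (hb : BrH Z) : AllFq Z (min G (bnd g)) c :=
  allF_ofZ (s_det h6W h hq hg c hg7) (s_det1 h6W h hq hg c hg7) lem.formq lem.rk1 lem.twi lem.ort
    lem.o3 lem.lb h (s_qloc G Z h hq) hb

/-- **Dimension at most seven.** -/
theorem seven (h6W : S_Q6) (h : PM Z) (h7 : G ≤ 7) (hq : QF Z) : AltFoq Z G c := by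
  by_cases hb : ∃ (a : ℕ) (Z' : Matrix (Fin a) (Fin a) ℂ)
      (E : Matrix (Fin G ⊕ Fin G) (Fin a ⊕ Fin a) ℚ)
      (F : Matrix (Fin a ⊕ Fin a) (Fin G ⊕ Fin G) ℚ), Fac Z Z' E F ∧ PM Z' ∧ MumM Z'
  · obtain ⟨a, Z₁, E₁, F₁, hf, h₁, hM⟩ := hb
    obtain ⟨b, Z₂, E₂, F₂, h₂, D, hab⟩ := exists_compl h hf
    have ha := hM.four
    exact kunnethq D h h₁ h₂ (mum_hsp h₁ hM (by omega) D h h₂) (mum_altFoq h₁ hM)
      (allFq_mono (by omega) (all_small h6W h₂ (hq.fac D.f₂) (Sm.smr (sm_self Z₂)) (fun _ => by omega)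
        (s_gbr s_facp b Z₂ h₂ (good_three (by omega)))))
  · exact altFoq_of_all (allFq_mono (min_le_left _ _) (all_small h6W h hq (Sm.smr (sm_self Z))
      (fun _ => h7) (brh_seven (s_gbr s_facp) s_t3l s_brd h h7
        fun a Z' E F hf h' hM => hb ⟨a, Z', E, F, hf, h', hM⟩)))

/-- **Hodge classes on period matrices.** -/
theorem hodge_altq {B : ℕ} (h : PM Z) (hA : AltFoq Z B c) {κ : Type} [Finite κ]
    (f : (Fin G ⊕ Fin G → ℚ) [⋀^κ]→ₗ[ℚ] ℚ) (hf : IsHodge (perOne Z) f) :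
    QR (perOne Z) B c κ f := by
  classical
  let _ : Fintype κ := Fintype.ofFinite κ
  refine altQ_altq h f ?_
  have h1 : (extA f).toMultilinearMap ∈ NQ Z B c κ := hA κ (extA f) (Pool.Agent.H926.hodge_kills h hf)
  have h2 : evalM (cst ℂ (CF f.toMultilinearMap)) ∈ NQ Z B c κ := h1
  exact h2 _ _

section abs

variable {H T : Type} [AddCommGroup H] [Module ℚ H] [AddCommGroup T] [Module ℂ T] {per : H →+ T}

/-- Transport of the theorem. -/
theorem hodge_abs {B : ℕ} (h : PM Z) (A : H ≃ₗ[ℚ] (Fin G ⊕ Fin G → ℚ))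
    (hC : Cht (per.comp A.symm.toLinearMap.toAddMonoidHom) (JR Z)) {κ : Type} [Finite κ]
    (hA : ∀ f : (Fin G ⊕ Fin G → ℚ) [⋀^κ]→ₗ[ℚ] ℚ, IsHodge (perOne Z) f →
      QR (perOne Z) B c κ f) (f : H [⋀^κ]→ₗ[ℚ] ℚ) (hf : IsHodge per f) : QR per B c κ f := by
  obtain ⟨⟨Ψ₁, e₁⟩, ⟨Ψ₂, e₂⟩⟩ := iso_maps h A hC
  have h5 : IsHodge (perOne Z) (f.compLinearMap A.symm.toLinearMap) :=
    Pool.Agent.TH504.CB.isHodge_comp A.symm.toLinearMap Ψ₁ e₁ hf
  have h7 := pull_q (per := per) (hA _ h5) A.toLinearMap Ψ₂ e₂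
  have h8 : (f.compLinearMap A.symm.toLinearMap).compLinearMap A.toLinearMap = f := by
    ext v
    rw [AlternatingMap.compLinearMap_apply, AlternatingMap.compLinearMap_apply]
    congr 1
    funext k
    exact A.symm_apply_apply (v k)
  rwa [h8] at h7

end abs

/-- **Hodge classes on the abelian varieties built from factors of one of dimension at most seven.** -/
theorem fac_small (h6W : S_Q6) (A X : AV) (h7 : finrank ℂ A.T ≤ 7)
    (hq : ∀ U : Submodule ℚ A.H, St.IsSimpleSub A.per U → IsRQSub A.per U)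
    (hX : ∀ Y, IsFactor Y X → IsFactor Y A) (hM : ∀ Y, IsFactor Y X → ¬IsMumfordType Y.per)
    {κ : Type} [Finite κ] (f : X.H [⋀^κ]→ₗ[ℚ] ℚ) (hf : IsHodge X.per f) :
    QR X.per (min (finrank ℂ X.T) (bnd (finrank ℂ A.T))) c κ f := by
  have hAX : St.IsAV X.per := ⟨X.finH, X.finT, X.span, X.rank, X.pol⟩
  have hAA : St.IsAV A.per := ⟨A.finH, A.finT, A.span, A.rank, A.pol⟩
  obtain ⟨G, Z, h, e, hC⟩ := exists_ppav hAX
  obtain ⟨g, Z', h', e', hC'⟩ := exists_ppav hAA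
  obtain rfl : G = finrank ℂ X.T := by
    have h1 := e.finrank_eq
    rw [Module.finrank_fintype_fun_eq_card, Fintype.card_sum, Fintype.card_fin] at h1
    have h3 := X.rank
    omega
  obtain rfl : g = finrank ℂ A.T := by
    have h1 := e'.finrank_eq
    rw [Module.finrank_fintype_fun_eq_card, Fintype.card_sum, Fintype.card_fin] at h1
    have h3 := A.rank
    omega
  have hmv := fun a Z₁ E F hf h₁ hs ha => fac_move hX h e hC h' e' hC' a Z₁ E F hf h₁ hs ha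
  have hq' : QF Z' := s_qgood A.H A.T A.per _ Z' e' hC' hq
  have hqX : QF Z := by
    intro a Z₁ E F hf h₁ hs ha
    obtain ⟨E', F', hf''⟩ := hmv a Z₁ E F hf h₁ hs ha
    exact hq' a Z₁ E' F' hf'' h₁ hs ha
  have hSm : Sm Z (finrank ℂ A.T) := by
    constructor
    · intro a Z₁ E₁ F₁ hf h₁ hs ha
      obtain ⟨E', F', hf'⟩ := hmv a Z₁ E₁ F₁ hf h₁ hs ha
      exact (sm_self Z').1 a Z₁ E' F' hf' h₁ hs ha
    · intro a b Z₁ Z₂ E₁ F₁ E₂ F₂ hf₁ hf₂ h₁ h₂ hs₁ hs₂ ha hb hR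
      obtain ⟨E', F', hf₁'⟩ := hmv a Z₁ E₁ F₁ hf₁ h₁ hs₁ ha
      obtain ⟨E'', F'', hf₂'⟩ := hmv b Z₂ E₂ F₂ hf₂ h₂ hs₂ hb
      exact (sm_self Z').2 a b Z₁ Z₂ E' F' E'' F'' hf₁' hf₂' h₁ h₂ hs₁ hs₂ ha hb hR
  have hb : BrH Z := brh_of h e hC (br_seven A X h7 hX hM)
  exact hodge_abs h e hC (fun g hg => hodge_altq h (altFoq_of_all (all_small h6W h hqX (Sm.smr hSm)
    (fun _ => h7) hb)) g hg) f hf

/-- **The same in dimension at most seven**, with factors of Mumford's type allowed. -/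
theorem dim_small (h6W : S_Q6) (A X : AV) (hX7 : finrank ℂ X.T ≤ 7)
    (hq : ∀ U : Submodule ℚ A.H, St.IsSimpleSub A.per U → IsRQSub A.per U)
    (hX : ∀ Y, IsFactor Y X → IsFactor Y A)
    {κ : Type} [Finite κ] (f : X.H [⋀^κ]→ₗ[ℚ] ℚ) (hf : IsHodge X.per f) :
    QR X.per (finrank ℂ X.T) c κ f := by
  have hAX : St.IsAV X.per := ⟨X.finH, X.finT, X.span, X.rank, X.pol⟩
  have hAA : St.IsAV A.per := ⟨A.finH, A.finT, A.span, A.rank, A.pol⟩
  obtain ⟨G, Z, h, e, hC⟩ := exists_ppav hAX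
  obtain ⟨g, Z', h', e', hC'⟩ := exists_ppav hAA
  obtain rfl : G = finrank ℂ X.T := by
    have h1 := e.finrank_eq
    rw [Module.finrank_fintype_fun_eq_card, Fintype.card_sum, Fintype.card_fin] at h1
    have h3 := X.rank
    omega
  have hmv := fun a Z₁ E F hf h₁ hs ha => fac_move hX h e hC h' e' hC' a Z₁ E F hf h₁ hs ha
  have hq' : QF Z' := s_qgood A.H A.T A.per _ Z' e' hC' hq
  have hqX : QF Z := by
    intro a Z₁ E F hf h₁ hs ha
    obtain ⟨E', F', hf''⟩ := hmv a Z₁ E F hf h₁ hs ha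
    exact hq' a Z₁ E' F' hf'' h₁ hs ha
  exact hodge_abs h e hC (fun g hg => hodge_altq h (seven h6W h hX7 hqX) g hg) f hf

end

end Pool.Agent.H926.C
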