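import Mathlib
import Pool.Agent.H926.T.D0
import Pool.Agent.H926.C.Top
import Pool.Agent.H926.C.Q6

/-!
# Hodge classes on powers: factors with real multiplication, and factors of one abelian variety
-/

set_option linter.unusedSectionVars false

namespace Pool.Agent.H926.C

open Matrix Module Pool.Agent.Y90 Pool.Agent.W437.HC Pool.Agent.W437.HD
  Pool.Agent.TH504.CB Pool.Agent.W522.U
open Pool.Agent.W548.Odd hiding cv
open Pool.Agent.H204R3.CM (IsHodge)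
open Pool.Agent.W437.HP (cK cK_mul cK_one)
open Pool.Agent.H926
open Pool.Agent.H926.T
open Pool.Agent.H926.A
open Pool.Agent.H926.B (bnd Sm sm_self fac_move br_seven)
open Pool.Agent.R915 (IsFactor)
open TraL (opQ matQ_opQ)

noncomputable section

/-- The simple factors of `X` are simple factors of `A` or have real multiplication: period matrices. -/
theorem mix_move {A X : AV}
    (hX : ∀ Y, IsFactor Y X → HasRealMultiplication Y.per ∨ IsFactor Y A) {G g : ℕ}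
    {Z : Matrix (Fin G) (Fin G) ℂ} (h : PM Z) (e : X.H ≃ₗ[ℚ] (Fin G ⊕ Fin G → ℚ))
    (hC : Cht (X.per.comp e.symm.toLinearMap.toAddMonoidHom) (JR Z))
    {Z' : Matrix (Fin g) (Fin g) ℂ} (h' : PM Z') (e' : A.H ≃ₗ[ℚ] (Fin g ⊕ Fin g → ℚ))
    (hC' : Cht (A.per.comp e'.symm.toLinearMap.toAddMonoidHom) (JR Z')) (a : ℕ)
    (Z₁ : Matrix (Fin a) (Fin a) ℂ) (E : Matrix (Fin G ⊕ Fin G) (Fin a ⊕ Fin a) ℚ)
    (F : Matrix (Fin a ⊕ Fin a) (Fin G ⊕ Fin G) ℚ) (hf : Fac Z Z₁ E F) (h₁ : PM Z₁)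
    (hs : IsSimpleAV Z₁) (ha : 0 < a) : RMM Z₁ ∨ ∃ E' F', Fac Z' Z₁ E' F' := by
  obtain ⟨-, z2⟩ := s_fz X G Z h e hC
  obtain ⟨z1, -⟩ := s_fz A g Z' h' e' hC'
  rcases hX _ (z2 a Z₁ E F hf h₁ hs ha) with hr | hfa
  · exact Or.inl (rmm_of h₁ hr)
  right
  obtain ⟨-, i, ⟨Ψ, hΨ⟩, hinj⟩ := (z1 _).1 hfa
  let i' : (Fin a ⊕ Fin a → ℚ) →ₗ[ℚ] (Fin g ⊕ Fin g → ℚ) := i
  have hi' : ∀ v, LinearMap.toMatrix' i' *ᵥ v = i' v := fun v => by
    rw [LinearMap.toMatrix'_mulVec]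
  have h2 := FacL.mat_of_hom (R := LinearMap.toMatrix' i') h₁.cht h'.cht Ψ (fun v => by
    rw [hi' v]
    exact hΨ v)
  have h3 := FacL.cplx_of_real h2
  rw [DJ_JR, DJ_JR] at h3
  have h0 : LinearMap.toMatrix' i' ≠ 0 := by
    intro h0
    have h4 : i' (Pi.single (Sum.inl ⟨0, ha⟩) 1) = 0 := by
      rw [← hi', h0, zero_mulVec]
    have h5 : (Pi.single (Sum.inl ⟨0, ha⟩) 1 : Fin a ⊕ Fin a → ℚ) = 0 :=
      hinj (by rw [map_zero]; exact h4)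
    have h6 := congrFun h5 (Sum.inl ⟨0, ha⟩)
    rw [Pi.single_eq_same] at h6
    exact one_ne_zero h6
  obtain ⟨F', hF'⟩ := FacL.fac_of_hom h' h₁ hs h3.symm h0
  exact ⟨_, F', hF'⟩

/-- The conditions on the period matrix. -/
theorem mix_cond {A X : AV} (hq : ∀ U : Submodule ℚ A.H, St.IsSimpleSub A.per U → IsRQSub A.per U)
    (hX : ∀ Y, IsFactor Y X → HasRealMultiplication Y.per ∨ IsFactor Y A) {G : ℕ}
    {Z : Matrix (Fin G) (Fin G) ℂ} (h : PM Z) (e : X.H ≃ₗ[ℚ] (Fin G ⊕ Fin G → ℚ))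
    (hC : Cht (X.per.comp e.symm.toLinearMap.toAddMonoidHom) (JR Z)) :
    QF Z ∧ SmR Z (finrank ℂ A.T) := by
  have hAA : St.IsAV A.per := ⟨A.finH, A.finT, A.span, A.rank, A.pol⟩
  obtain ⟨g, Z', h', e', hC'⟩ := exists_ppav hAA
  obtain rfl : g = finrank ℂ A.T := by
    have h1 := e'.finrank_eq
    rw [Module.finrank_fintype_fun_eq_card, Fintype.card_sum, Fintype.card_fin] at h1
    have h3 := A.rank
    omega
  have hmv := fun a Z₁ E F hf h₁ hs ha => mix_move hX h e hC h' e' hC' a Z₁ E F hf h₁ hs ha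
  have hq' : QF Z' := s_qgood A.H A.T A.per _ Z' e' hC' hq
  refine ⟨?_, ?_, ?_⟩
  · intro a Z₁ E F hf h₁ hs ha
    rcases hmv a Z₁ E F hf h₁ hs ha with ⟨φ, hφ, hr⟩ | ⟨E', F', hf''⟩
    · exact ⟨φ, hφ, Or.inl hr⟩
    · exact hq' a Z₁ E' F' hf'' h₁ hs ha
  · intro a Z₁ E₁ F₁ hf h₁ hs ha hr
    obtain ⟨E', F', hf'⟩ := (hmv a Z₁ E₁ F₁ hf h₁ hs ha).resolve_left hr
    exact (sm_self Z').1 a Z₁ E' F' hf' h₁ hs ha
  · intro a b Z₁ Z₂ E₁ F₁ E₂ F₂ hf₁ hf₂ h₁ h₂ hs₁ hs₂ ha hb hr₁ hr₂ hR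
    obtain ⟨E', F', hf₁'⟩ := (hmv a Z₁ E₁ F₁ hf₁ h₁ hs₁ ha).resolve_left hr₁
    obtain ⟨E'', F'', hf₂'⟩ := (hmv b Z₂ E₂ F₂ hf₂ h₂ hs₂ hb).resolve_left hr₂
    exact (sm_self Z').2 a b Z₁ Z₂ E' F' E'' F'' hf₁' hf₂' h₁ h₂ hs₁ hs₂ ha hb hR

variable {G g : ℕ} {c : Prop} {Z : Matrix (Fin G) (Fin G) ℂ}

/-- The simple factors of powers. -/
theorem smr_pow (hg : SmR Z g) (h : PM Z) (n : ℕ) {G' : ℕ} {Z' : Matrix (Fin G') (Fin G') ℂ}
    (h' : PM Z') (A : (Fin n → (Fin G ⊕ Fin G → ℚ)) ≃ₗ[ℚ] (Fin G' ⊕ Fin G' → ℚ))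
    (hC : Cht ((powPer (perOne Z) n).comp A.symm.toLinearMap.toAddMonoidHom) (JR Z')) :
    SmR Z' g := by
  constructor
  · intro a Z₁ E₁ F₁ hf h₁ hs ha hr
    obtain ⟨E', F', hf'⟩ := s_facp G Z h n G' Z' h' A hC a Z₁ E₁ F₁ hf h₁ hs ha
    exact hg.1 a Z₁ E' F' hf' h₁ hs ha hr
  · intro a b Z₁ Z₂ E₁ F₁ E₂ F₂ hf₁ hf₂ h₁ h₂ hs₁ hs₂ ha hb hr₁ hr₂ hR
    obtain ⟨E', F', hf₁'⟩ := s_facp G Z h n G' Z' h' A hC a Z₁ E₁ F₁ hf₁ h₁ hs₁ ha
    obtain ⟨E'', F'', hf₂'⟩ := s_facp G Z h n G' Z' h' A hC b Z₂ E₂ F₂ hf₂ h₂ hs₂ hb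
    exact hg.2 a b Z₁ Z₂ E' F' E'' F'' hf₁' hf₂' h₁ h₂ hs₁ hs₂ ha hb hr₁ hr₂ hR

/-- **Hodge classes on powers: period matrices.** -/
theorem pow_mix (h : PM Z) (hq : QF Z) (hg : SmR Z g) (hg7 : c → g ≤ 7) (hb : BrH Z) (n : ℕ)
    {κ : Type} [Finite κ] (f : (Fin n → (Fin G ⊕ Fin G → ℚ)) [⋀^κ]→ₗ[ℚ] ℚ)
    (hf : IsHodge (powPer (perOne Z) n) f) :
    QR (powPer (perOne Z) n) (min (n * G) (bnd g)) c κ f := by
  have hX : St.IsAV (perOne Z) := h.isAV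
  have hXn : St.IsAV (powPer (perOne Z) n) := s_pav _ _ (perOne Z) hX n
  obtain ⟨G', Z', h', A', hC'⟩ := exists_ppav hXn
  have hG' : G' = n * G := by
    have h1 := A'.finrank_eq
    rw [Module.finrank_fintype_fun_eq_card, Module.finrank_pi_fintype] at h1
    simp only [Module.finrank_fintype_fun_eq_card, Fintype.card_sum, Fintype.card_fin,
      Finset.sum_const, Finset.card_univ, smul_eq_mul] at h1
    have h2 : n * (G + G) = 2 * (n * G) := by ring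
    omega
  have hq' : QF Z' := by
    intro a Z₁ E F hf' h₁ hs ha
    obtain ⟨E', F', hf''⟩ := s_facp G Z h n G' Z' h' A' hC' a Z₁ E F hf' h₁ hs ha
    exact hq a Z₁ E' F' hf'' h₁ hs ha
  have hC0 : Cht ((perOne Z).comp (LinearEquiv.refl ℚ (Fin G ⊕ Fin G → ℚ)).symm.toLinearMap.toAddMonoidHom)
      (JR Z) := h.cht
  obtain ⟨t1, t2⟩ := s_tra _ _ (perOne Z) G Z h (LinearEquiv.refl ℚ _) hC0
  have hbr : ∀ x y : (Fin G ⊕ Fin G → ℚ) →ₗ[ℚ] (Fin G ⊕ Fin G → ℚ), InLef (perOne Z) x →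
      InLef (perOne Z) y → InHdg (perOne Z) (x ∘ₗ y - y ∘ₗ x) := by
    intro x y hx hy
    refine (t2 _).2 ?_
    rw [matQ_br, qm_br]
    exact hb _ ((t1 x).1 hx) _ ((t1 y).1 hy)
  have hb' := brh_of h' A' hC' (hbr_pow hX hbr n)
  subst hG'
  exact hodge_abs h' A' hC' (fun g hg' => hodge_altq h' (altFoq_of_all
    (all_small s_q6 h' hq' (smr_pow hg h n h' A' hC') hg7 hb')) g hg') f hf

section abs

variable {H T : Type} [AddCommGroup H] [Module ℚ H] [AddCommGroup T] [Module ℂ T] {per : H →+ T}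

/-- Transport of a theorem on the powers. -/
theorem pow_transportq {B : ℕ} (h : PM Z)
    (A : H ≃ₗ[ℚ] (Fin G ⊕ Fin G → ℚ))
    (hC : Cht (per.comp A.symm.toLinearMap.toAddMonoidHom) (JR Z)) (n : ℕ) {κ : Type} [Finite κ]
    (hA : ∀ f : (Fin n → (Fin G ⊕ Fin G → ℚ)) [⋀^κ]→ₗ[ℚ] ℚ, IsHodge (powPer (perOne Z) n) f →
      QR (powPer (perOne Z) n) B c κ f)
    (f : (Fin n → H) [⋀^κ]→ₗ[ℚ] ℚ) (hf : IsHodge (powPer per n) f) :
    QR (powPer per n) B c κ f := by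
  obtain ⟨⟨Ψ₁, e₁⟩, ⟨Ψ₂, e₂⟩⟩ := iso_maps h A hC
  -- the maps of the powers
  let Φ₁ : (Fin n → (Fin G ⊕ Fin G → ℚ)) →ₗ[ℚ] (Fin n → H) :=
    LinearMap.pi fun i => A.symm.toLinearMap ∘ₗ LinearMap.proj i
  let Φ₂ : (Fin n → H) →ₗ[ℚ] (Fin n → (Fin G ⊕ Fin G → ℚ)) :=
    LinearMap.pi fun i => A.toLinearMap ∘ₗ LinearMap.proj i
  let Θ₁ : (Fin n → (Fin G → ℂ)) →ₗ[ℂ] (Fin n → T) :=
    LinearMap.pi fun i => Ψ₁ ∘ₗ LinearMap.proj i
  let Θ₂ : (Fin n → T) →ₗ[ℂ] (Fin n → (Fin G → ℂ)) :=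
    LinearMap.pi fun i => Ψ₂ ∘ₗ LinearMap.proj i
  have g₁ : ∀ w, Θ₁ (powPer (perOne Z) n w) = powPer per n (Φ₁ w) := fun w => by
    funext i
    exact e₁ (w i)
  have g₂ : ∀ w, Θ₂ (powPer per n w) = powPer (perOne Z) n (Φ₂ w) := fun w => by
    funext i
    exact e₂ (w i)
  have h5 : IsHodge (powPer (perOne Z) n) (f.compLinearMap Φ₁) :=
    Pool.Agent.TH504.CB.isHodge_comp Φ₁ Θ₁ g₁ hf
  have h7 := pull_q (per := powPer per n) (hA _ h5) Φ₂ Θ₂ g₂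
  have h8 : (f.compLinearMap Φ₁).compLinearMap Φ₂ = f := by
    ext v
    rw [AlternatingMap.compLinearMap_apply, AlternatingMap.compLinearMap_apply]
    congr 1
    funext k i
    exact A.symm_apply_apply (v k i)
  rw [h8] at h7
  exact h7

end abs

/-- **Hodge classes on powers, from the commutators.** -/
theorem crit_mix (A X : AV) (hg7 : c → finrank ℂ A.T ≤ 7)
    (hq : ∀ U : Submodule ℚ A.H, St.IsSimpleSub A.per U → IsRQSub A.per U)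
    (hX : ∀ Y, IsFactor Y X → HasRealMultiplication Y.per ∨ IsFactor Y A)
    (hbr : ∀ x y : X.H →ₗ[ℚ] X.H, InLef X.per x → InLef X.per y →
      InHdg X.per (x ∘ₗ y - y ∘ₗ x)) (n : ℕ)
    {κ : Type} [Finite κ] (f : (Fin n → X.H) [⋀^κ]→ₗ[ℚ] ℚ) (hf : IsHodge (powPer X.per n) f) :
    QR (powPer X.per n) (min (n * finrank ℂ X.T) (bnd (finrank ℂ A.T))) c κ f := by
  have hAX : St.IsAV X.per := ⟨X.finH, X.finT, X.span, X.rank, X.pol⟩
  obtain ⟨G, Z, h, e, hC⟩ := exists_ppav hAX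
  obtain rfl : G = finrank ℂ X.T := by
    have h1 := e.finrank_eq
    rw [Module.finrank_fintype_fun_eq_card, Fintype.card_sum, Fintype.card_fin] at h1
    have h3 := X.rank
    omega
  obtain ⟨hq', hg'⟩ := mix_cond hq hX h e hC
  exact pow_transportq h e hC n
    (fun g hg => pow_mix h hq' hg' hg7 (brh_of h e hC hbr) n g hg) f hf

/-- **Hodge classes in dimension at most seven**. -/
theorem dim_mix (A X : AV) (hX7 : finrank ℂ X.T ≤ 7)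
    (hq : ∀ U : Submodule ℚ A.H, St.IsSimpleSub A.per U → IsRQSub A.per U)
    (hX : ∀ Y, IsFactor Y X → HasRealMultiplication Y.per ∨ IsFactor Y A)
    {κ : Type} [Finite κ] (f : X.H [⋀^κ]→ₗ[ℚ] ℚ) (hf : IsHodge X.per f) :
    QR X.per (finrank ℂ X.T) c κ f := by
  have hAX : St.IsAV X.per := ⟨X.finH, X.finT, X.span, X.rank, X.pol⟩
  obtain ⟨G, Z, h, e, hC⟩ := exists_ppav hAX
  obtain rfl : G = finrank ℂ X.T := by
    have h1 := e.finrank_eq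
    rw [Module.finrank_fintype_fun_eq_card, Fintype.card_sum, Fintype.card_fin] at h1
    have h3 := X.rank
    omega
  exact hodge_abs h e hC (fun g hg => hodge_altq h (seven s_q6 h hX7
    (mix_cond hq hX h e hC).1) g hg) f hf

/-- A simple abelian variety without real multiplication which is a quotient of `X`. -/
theorem quot_mix {A X : AV} (hX : ∀ Y, IsFactor Y X → HasRealMultiplication Y.per ∨ IsFactor Y A)
    {H' T' : Type} [AddCommGroup H'] [Module ℚ H'] [AddCommGroup T'] [Module ℂ T']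
    {per' : H' →+ T'} (hY : St.IsAV per') (hs : St.IsSimpleSub per' ⊤)
    (hr : ¬HasRealMultiplication per') {h : X.H →ₗ[ℚ] H'} (hh : St.IsHom X.per per' h)
    (h0 : h ≠ 0) : finrank ℚ H' ≤ 2 * finrank ℂ A.T := by
  have hAX : St.IsAV X.per := ⟨X.finH, X.finT, X.span, X.rank, X.pol⟩
  have hsur := (Pool.Agent.H926.A.zero_or_surj hAX hh hs).resolve_left h0
  obtain ⟨s, hs1, hs2⟩ := Pool.Agent.H926.T.DzL.exists_section hAX hY h hh hsur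
  obtain ⟨f1, f2, f3, f4, f5⟩ := hY
  let Y : AV := @AV.mk H' T' _ _ f1 _ _ f2 per' f3 f4 f5
  have hYX : IsFactor Y X := by
    refine ⟨⟨?_, fun U hU => hs.2.2 U le_top hU⟩, s, hs1, fun v w hvw => ?_⟩
    · by_contra hcon
      push Not at hcon
      apply hs.2.1
      rw [eq_bot_iff]
      intro y _
      rw [Submodule.mem_bot]
      exact hcon y
    · rw [← hs2 v, ← hs2 w]
      exact congrArg h hvw
  obtain ⟨-, i, -, hi⟩ := (hX Y hYX).resolve_left hr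
  have h1 := LinearMap.finrank_le_finrank_of_injective hi
  rw [A.rank] at h1
  exact h1

end

end Pool.Agent.H926.C
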