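import Mathlib
import Pool.Agent.H926.B.Ring
import Pool.Agent.H926.C.Top
import Pool.Agent.H926.C.Q6
import Pool.Agent.H926.C.Mix

/-!
# The ring generated by divisors and small Weil classes of split type

A complex abelian variety `X` (up to isogeny) is given by `H = H_1(X, ℚ)`, the tangent space `T` and
the period map `per : H → T`; a class in `H^κ(X, ℚ)` is an alternating form on `H` in variables
indexed by the finite set `κ`. See `Pool.Agent.H204R3.CM.Defs` (`IsHodge`) and `Pool.Agent.Y90.Stm`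
(`IsAV`: polarizable; `IsHom`: homomorphisms; `IsSimpleSub`: simple abelian subvarieties).
-/

namespace Pool.Agent.H926.C.Ring

open Module
open Pool.Agent.H204R3.CM (IsHodge)
open Pool.Agent.Y90 (AV)
open Pool.Agent.Y90.St (IsAV IsHom IsSimpleSub)
open Pool.Agent.R915 (IsFactor)
open Pool.Agent.H926.A.Quad (RealOrQuadratic IsWeilClass)
open Pool.Agent.H926.C (HasSplitDisc SimpleNonSplit HasRealMultiplication)

/-- The smallest system of cohomology classes `f ∈ H^κ(X, ℚ)` of the abelian variety `X` which contains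
the classes of degree zero, the Hodge classes of degree two and the pull-backs along homomorphisms
`h : X → Y` of the Weil classes for imaginary quadratic fields `ℚ(√-D)` on abelian varieties `Y` of
dimension `n`, where
* `n` is `4` or `6`, or `n = 8` and `g ≥ 6`, or `n = 10` and `g ≥ 7`,
* `n` is at most the dimension of `X`,
* if `n > 4` then `Y` is of split Weil type for `ℚ(√-D)`, or `n = 6`, `g ≥ 6`, `h` is surjective and `Y` is
  a simple sixfold without real multiplication which is not of split Weil type for any imaginary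
  quadratic field,

and which is stable under linear combinations and cup products. -/
inductive SplitRing {H T : Type} [AddCommGroup H] [Module ℚ H] [AddCommGroup T] [Module ℂ T]
    (per : H →+ T) (g : ℕ) : (κ : Type) → (H [⋀^κ]→ₗ[ℚ] ℚ) → Prop
  /-- classes of degree zero -/
  | unit {κ : Type} [IsEmpty κ] (f : H [⋀^κ]→ₗ[ℚ] ℚ) : SplitRing per g κ f
  /-- Hodge classes of degree two -/
  | divisor {κ : Type} (hκ : Nat.card κ = 2) (f : H [⋀^κ]→ₗ[ℚ] ℚ)
      (hf : IsHodge per f) : SplitRing per g κ f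
  /-- pull-backs of Weil classes for imaginary quadratic fields -/
  | weil {H' T' : Type} [AddCommGroup H'] [Module ℚ H'] [AddCommGroup T'] [Module ℂ T']
      {per' : H' →+ T'} (hY : IsAV per') {n : ℕ}
      (hn : n = 4 ∨ n = 6 ∨ (n = 8 ∧ 6 ≤ g) ∨ (n = 10 ∧ 7 ≤ g)) (hnX : n ≤ finrank ℂ T) {D : ℚ}
      {j : H' →ₗ[ℚ] H'}
      (f : H' [⋀^Fin n]→ₗ[ℚ] ℚ) (hf : IsWeilClass per' n D j f) (h : H →ₗ[ℚ] H')
      (hh : IsHom per per' h)
      (hs : 4 < n → (∃ m, n = 2 * m ∧ HasSplitDisc per' m D j) ∨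
        (n = 6 ∧ 6 ≤ g ∧ Function.Surjective h ∧ SimpleNonSplit per')) :
      SplitRing per g (Fin n) (f.compLinearMap h)
  | zero (κ : Type) : SplitRing per g κ 0
  | add {κ : Type} (f f' : H [⋀^κ]→ₗ[ℚ] ℚ) (hf : SplitRing per g κ f)
      (hf' : SplitRing per g κ f') : SplitRing per g κ (f + f')
  | smul {κ : Type} (a : ℚ) (f : H [⋀^κ]→ₗ[ℚ] ℚ) (hf : SplitRing per g κ f) :
      SplitRing per g κ (a • f)
  /-- renaming of the variables -/
  | reindex {κ κ' : Type} (e : κ ≃ κ') (f : H [⋀^κ]→ₗ[ℚ] ℚ) (hf : SplitRing per g κ f) :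
      SplitRing per g κ' (f.domDomCongr e)
  /-- cup products (up to a factor) -/
  | cup {κ κ' : Type} [Fintype κ] [DecidableEq κ] [Fintype κ'] [DecidableEq κ']
      (f : H [⋀^κ]→ₗ[ℚ] ℚ) (f' : H [⋀^κ']→ₗ[ℚ] ℚ) (hf : SplitRing per g κ f)
      (hf' : SplitRing per g κ' f') (h : H [⋀^κ ⊕ κ']→ₗ[ℚ] ℚ)
      (hh : ∀ v : κ ⊕ κ' → H, h v = ∑ σ : Equiv.Perm (κ ⊕ κ'), ((Equiv.Perm.sign σ : ℤ) : ℚ) *
        (f (fun k => v (σ (Sum.inl k))) * f' (fun k => v (σ (Sum.inr k))))) :
      SplitRing per g (κ ⊕ κ') h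

section aux

variable {H T : Type} [AddCommGroup H] [Module ℚ H] [AddCommGroup T] [Module ℂ T] {per : H →+ T}
  {g : ℕ}

theorem of_ring (hX : IsAV per) {B : ℕ}
    (hB : ∀ n, n ≤ B → 4 ≤ n → Even n →
      (n = 4 ∨ n = 6 ∨ (n = 8 ∧ 6 ≤ g) ∨ (n = 10 ∧ 7 ≤ g)) ∧ n ≤ finrank ℂ T)
    (hS : ∀ (H' T' : Type) [AddCommGroup H'] [Module ℚ H'] [AddCommGroup T'] [Module ℂ T']
      (per' : H' →+ T') (h : H →ₗ[ℚ] H'), IsAV per' → IsHom per per' h → Function.Surjective h →
        IsSimpleSub per' ⊤ → ¬HasRealMultiplication per' → finrank ℚ H' = 12 → 6 ≤ g)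
    {κ : Type} {f : H [⋀^κ]→ₗ[ℚ] ℚ}
    (hf : Pool.Agent.H926.C.QR per B True κ f) : SplitRing per g κ f := by
  induction hf with
  | unit f => exact SplitRing.unit f
  | divisor hκ f hf => exact SplitRing.divisor hκ f hf
  | @weil H' T' _ _ _ _ per' hY n hn f hf h hh =>
    by_cases ho : Odd n
    · have h0 : f = 0 := Pool.Agent.H926.A.hodge_odd ho hf.1
      have h1 : f.compLinearMap h = 0 := by
        rw [h0]
        rfl
      rw [h1]
      exact SplitRing.zero _
    · rw [Nat.not_odd_iff_even] at ho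
      obtain ⟨hf1, D, j, hD, hj, hjj, hdim, hmv, h6⟩ := hf
      by_cases h4 : 4 ≤ n
      · obtain ⟨b1, b2⟩ := hB n hn h4 ho
        by_cases h5 : 4 < n
        · rcases h6 trivial h5 with h7 | ⟨rfl, h7⟩
          · exact SplitRing.weil hY b1 b2 f ⟨hD, hj, hjj, hdim, hf1, hmv⟩ h hh
              (fun _ => Or.inl h7)
          · rcases Pool.Agent.H926.A.zero_or_surj hX hh h7.1 with h8 | h8
            · have h1 : f.compLinearMap h = 0 := by
                ext v
                rw [AlternatingMap.compLinearMap_apply, h8, AlternatingMap.zero_apply]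
                exact f.map_coord_zero (0 : Fin 6) rfl
              rw [h1]
              exact SplitRing.zero _
            · exact SplitRing.weil hY b1 b2 f ⟨hD, hj, hjj, hdim, hf1, hmv⟩ h hh
                (fun _ => Or.inr ⟨rfl, hS _ _ _ h hY hh h8 h7.1 h7.2.1 (by rw [hdim]), h8, h7⟩)
        · exact SplitRing.weil hY b1 b2 f ⟨hD, hj, hjj, hdim, hf1, hmv⟩ h hh
            (fun h => absurd h h5)
      · obtain ⟨m, hm⟩ := ho
        have hm2 : m = 0 ∨ m = 1 := by omega
        rcases hm2 with rfl | rfl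
        · obtain rfl : n = 0 := by omega
          exact SplitRing.unit _
        · obtain rfl : n = 2 := by omega
          obtain ⟨Ψ, hΨ⟩ := hh
          exact SplitRing.divisor (Nat.card_fin 2) _
            (Pool.Agent.TH504.CB.isHodge_comp h Ψ hΨ hf1)
  | zero κ => exact SplitRing.zero κ
  | add f g _ _ hf hg => exact SplitRing.add _ _ hf hg
  | smul a f _ hf => exact SplitRing.smul a _ hf
  | reindex e f _ hf => exact SplitRing.reindex e _ hf
  | cup f g _ _ h hh hf hg => exact SplitRing.cup _ _ hf hg _ hh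

theorem to_ring {κ : Type} {f : H [⋀^κ]→ₗ[ℚ] ℚ} (hf : SplitRing per g κ f) :
    Pool.Agent.H926.A.QR per 10 False κ f := by
  induction hf with
  | unit f => exact Pool.Agent.H926.A.QR.unit f
  | divisor hκ f hf => exact Pool.Agent.H926.A.QR.divisor hκ f hf
  | weil hY hn _ f hf h hh _ =>
    exact Pool.Agent.H926.A.QR.weil hY (by omega) f ⟨hf.hodge, _, _, hf.pos, hf.hom, hf.sq, hf.dim,
      hf.move, fun h => h.elim⟩ h hh
  | zero κ => exact Pool.Agent.H926.A.QR.zero κ
  | add f g _ _ hf hg => exact Pool.Agent.H926.A.QR.add _ _ hf hg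
  | smul a f _ hf => exact Pool.Agent.H926.A.QR.smul a _ hf
  | reindex e f _ hf => exact Pool.Agent.H926.A.QR.reindex e _ hf
  | cup f g _ _ h hh hf hg => exact Pool.Agent.H926.A.QR.cup _ _ hf hg _ hh

theorem isHodge {κ : Type} {f : H [⋀^κ]→ₗ[ℚ] ℚ} (hf : SplitRing per g κ f) : IsHodge per f :=
  Pool.Agent.H926.A.qr_isHodge (to_ring hf)

end aux

open Pool.Agent.H926.T (IsMumfordType)
open Pool.Agent.H926.B.Ring (simple_quot)

/-- **Hodge classes on the abelian varieties built from factors of one of dimension at most seven.** -/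
theorem hodge_small (A X : AV) (h7 : finrank ℂ A.T ≤ 7) (hA : RealOrQuadratic A.per)
    (hX : ∀ Y, IsFactor Y X → IsFactor Y A)
    (hM : finrank ℂ X.T ≤ 7 ∨ ∀ Y, IsFactor Y X → ¬IsMumfordType Y.per)
    {κ : Type} [Finite κ] {f : X.H [⋀^κ]→ₗ[ℚ] ℚ} (hf : IsHodge X.per f) :
    SplitRing X.per (finrank ℂ A.T) κ f := by
  have hAX : IsAV X.per := ⟨X.finH, X.finT, X.span, X.rank, X.pol⟩
  have hS : ∀ (H' T' : Type) [AddCommGroup H'] [Module ℚ H'] [AddCommGroup T'] [Module ℂ T']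
      (per' : H' →+ T') (h : X.H →ₗ[ℚ] H'), IsAV per' → IsHom X.per per' h →
        Function.Surjective h → IsSimpleSub per' ⊤ → ¬HasRealMultiplication per' →
          finrank ℚ H' = 12 → 6 ≤ finrank ℂ A.T := by
    intro H' T' _ _ _ _ per' h _ hh hs hsim _ h12
    have h1 := simple_quot hX H' T' per' h hh hs hsim
    omega
  by_cases hM' : ∀ Y, IsFactor Y X → ¬IsMumfordType Y.per
  · refine of_ring hAX ?_ hS (Pool.Agent.H926.C.fac_small Pool.Agent.H926.C.s_q6 A X h7 hA hX hM' f hf)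
    intro n hn h4 ho
    obtain ⟨m, rfl⟩ := ho
    have h1 := hn.trans (min_le_left _ _)
    have h2 := hn.trans (min_le_right _ _)
    refine ⟨?_, h1⟩
    unfold Pool.Agent.H926.B.bnd at h2
    obtain ⟨g, hg⟩ : ∃ g, g = finrank ℂ A.T := ⟨_, rfl⟩
    rw [← hg] at h2 h7 ⊢
    interval_cases g <;> norm_num at h2 ⊢ <;> omega
  · have h7' : finrank ℂ X.T ≤ 7 := hM.resolve_right hM'
    refine of_ring hAX ?_ hS (Pool.Agent.H926.C.dim_small Pool.Agent.H926.C.s_q6 A X h7' hA hX f hf)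
    intro n hn h4 ho
    obtain ⟨m, rfl⟩ := ho
    refine ⟨?_, hn⟩
    omega

/-- The dimensions of the Weil classes. -/
theorem bnd_cases {g n : ℕ} (h7 : g ≤ 7) (h4 : 4 ≤ n) (ho : Even n) (h2 : n ≤ Pool.Agent.H926.B.bnd g) :
    n = 4 ∨ n = 6 ∨ (n = 8 ∧ 6 ≤ g) ∨ (n = 10 ∧ 7 ≤ g) := by
  obtain ⟨m, rfl⟩ := ho
  unfold Pool.Agent.H926.B.bnd at h2
  interval_cases g <;> norm_num at h2 ⊢ <;> omega

section mix

open Pool.Agent.H926.T (powPer)

variable {A X : AV}

theorem pow_quot (hX : ∀ Y, IsFactor Y X → HasRealMultiplication Y.per ∨ IsFactor Y A) (n : ℕ)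
    {H' T' : Type} [AddCommGroup H'] [Module ℚ H'] [AddCommGroup T'] [Module ℂ T']
    {per' : H' →+ T'} (hY : IsAV per') (hs : IsSimpleSub per' ⊤)
    (hr : ¬HasRealMultiplication per') {h : (Fin n → X.H) →ₗ[ℚ] H'}
    (hh : IsHom (powPer X.per n) per' h) (hsur : Function.Surjective h) :
    finrank ℚ H' ≤ 2 * finrank ℂ A.T := by
  obtain ⟨i, hi⟩ : ∃ i, h ∘ₗ LinearMap.single ℚ (fun _ => X.H) i ≠ 0 := by
    by_contra hcon
    push Not at hcon
    have h0 : h = 0 := by
      apply LinearMap.pi_ext'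
      intro i
      rw [hcon i, LinearMap.zero_comp]
    apply hs.2.1
    rw [eq_bot_iff]
    intro y _
    obtain ⟨x, rfl⟩ := hsur y
    rw [h0]
    exact Submodule.zero_mem _
  obtain ⟨Ψ, hΨ⟩ := hh
  refine Pool.Agent.H926.C.quot_mix hX hY hs hr
    ⟨Ψ ∘ₗ LinearMap.single ℂ (fun _ => X.T) i, fun v => ?_⟩ hi
  rw [LinearMap.comp_apply, LinearMap.comp_apply, ← hΨ]
  congr 1
  funext k
  by_cases hk : k = i
  · subst hk
    simp [powPer]
  · simp [powPer, hk]

/-- **Powers of abelian varieties with simple factors with real multiplication and factors of `A`.** -/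
theorem hodge_pow (h7 : finrank ℂ A.T ≤ 7) (hA : RealOrQuadratic A.per)
    (hX : ∀ Y, IsFactor Y X → HasRealMultiplication Y.per ∨ IsFactor Y A)
    (hbr : ∀ x y : X.H →ₗ[ℚ] X.H, Pool.Agent.H926.T.InLef X.per x → Pool.Agent.H926.T.InLef X.per y →
      Pool.Agent.H926.T.InHdg X.per (x ∘ₗ y - y ∘ₗ x)) (n : ℕ)
    {κ : Type} [Finite κ] {f : (Fin n → X.H) [⋀^κ]→ₗ[ℚ] ℚ} (hf : IsHodge (powPer X.per n) f) :
    SplitRing (powPer X.per n) (finrank ℂ A.T) κ f := by
  have hAX : IsAV X.per := ⟨X.finH, X.finT, X.span, X.rank, X.pol⟩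
  refine of_ring (Pool.Agent.H926.T.s_pav _ _ X.per hAX n) ?_ ?_
    (Pool.Agent.H926.C.crit_mix A X (fun _ => h7) hA hX hbr n f hf)
  · intro m hm h4 ho
    refine ⟨bnd_cases h7 h4 ho (hm.trans (min_le_right _ _)), ?_⟩
    have := X.finT
    rw [Module.finrank_pi_fintype, Finset.sum_const, Finset.card_univ, Fintype.card_fin,
      smul_eq_mul]
    exact hm.trans (min_le_left _ _)
  · intro H' T' _ _ _ _ per' h hY hh hs hsim hr h12
    have h1 := pow_quot hX n hY hsim hr hh hs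
    omega

/-- **Dimension at most seven.** -/
theorem hodge_dim (hA : RealOrQuadratic A.per)
    (hX : ∀ Y, IsFactor Y X → HasRealMultiplication Y.per ∨ IsFactor Y A)
    (h7 : finrank ℂ X.T ≤ 7) {κ : Type} [Finite κ] {f : X.H [⋀^κ]→ₗ[ℚ] ℚ}
    (hf : IsHodge X.per f) : SplitRing X.per (finrank ℂ A.T) κ f := by
  have hAX : IsAV X.per := ⟨X.finH, X.finT, X.span, X.rank, X.pol⟩
  refine of_ring hAX ?_ ?_ (Pool.Agent.H926.C.dim_mix A X h7 hA hX f hf)
  · intro n hn h4 ho
    obtain ⟨m, rfl⟩ := ho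
    refine ⟨?_, hn⟩
    omega
  · intro H' T' _ _ _ _ per' h hY hh hs hsim hr h12
    have h1 := Pool.Agent.H926.C.quot_mix hX hY hsim hr hh (fun h0 => by
      rw [h0] at hs
      apply hsim.2.1
      rw [eq_bot_iff]
      intro y _
      obtain ⟨x, rfl⟩ := hs y
      exact Submodule.zero_mem _)
    omega

end mix

end Pool.Agent.H926.C.Ring
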