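import Mathlib
import Pool.Agent.H926.C.Ring

/-!
# The ring without the Weil classes which are not known to be algebraic

The ring of `Pool.Agent.H926.C.Ring` is compared with the ring generated by the classes of divisors and
by the Weil classes on abelian fourfolds and on abelian sixfolds of discriminant `-1`
(`Pool.Agent.Y90.St.WeilRing`), which are algebraic by theorems of Lefschetz and Markman (2025).
-/

namespace Pool.Agent.H926.C

open Module
open Pool.Agent.Y90 (AV)
open Pool.Agent.Y90.St (IsAV IsHom HasTrivialDisc WeilRing IsSimpleSub)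
open Pool.Agent.R915 (IsFactor)
open Pool.Agent.H926.A.Quad (RealOrQuadratic IsWeilClass)
open Pool.Agent.H926.C.Ring (SplitRing)

/-- `Y` is a **non-split sixfold**: a simple abelian variety of dimension six without real multiplication
which has a non-zero Weil class for some imaginary quadratic field, but which is not of split Weil type
for any imaginary quadratic field. -/
def IsNonSplitSixfold {H T : Type} [AddCommGroup H] [Module ℚ H] [AddCommGroup T] [Module ℂ T]
    (per : H →+ T) : Prop :=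
  SimpleNonSplit per ∧ ∃ (D : ℚ) (j : H →ₗ[ℚ] H) (f : H [⋀^Fin 6]→ₗ[ℚ] ℚ),
    IsWeilClass per 6 D j f ∧ f ≠ 0

section aux

variable {H T : Type} [AddCommGroup H] [Module ℚ H] [AddCommGroup T] [Module ℂ T] {per : H →+ T}

/-- Sixfolds of split Weil type have discriminant `-1`. -/
theorem trivial_of_split {D : ℚ} {j : H →ₗ[ℚ] H} (h : HasSplitDisc per 3 D j) :
    HasTrivialDisc per D j := by
  obtain ⟨s, E, v, x, y, h1, h2, h3, h4, h5⟩ := h
  refine ⟨s, E, v, x, y, h1, h2, h3, h4, ?_⟩
  refine h5.trans ?_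
  norm_num

/-- The ring without the Weil classes which are not known to be algebraic. -/
theorem to_markman {g : ℕ}
    (hg : g ≤ 5 ∨ (finrank ℂ T ≤ 7 ∧ ∀ (H' T' : Type) [AddCommGroup H'] [Module ℚ H']
      [AddCommGroup T'] [Module ℂ T'] (per' : H' →+ T') (h : H →ₗ[ℚ] H'), IsAV per' →
        IsHom per per' h → Function.Surjective h → ¬IsNonSplitSixfold per'))
    {κ : Type} {f : H [⋀^κ]→ₗ[ℚ] ℚ} (hf : SplitRing per g κ f) : WeilRing per κ f := by
  induction hf with
  | unit f => exact WeilRing.unit f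
  | divisor hκ f hf => exact WeilRing.divisor hκ f hf
  | @weil H' T' _ _ _ _ per' hY n hn hnX D j f hf h hh hs =>
    rcases hn with rfl | rfl | ⟨rfl, h6⟩ | ⟨rfl, h6⟩
    · exact WeilRing.weil hY (Or.inl rfl) f ⟨hf.dim, hf.hodge, D, j, hf.pos, hf.hom, hf.sq, hf.move,
        fun h => absurd h (by norm_num)⟩ h hh
    · rcases hs (by norm_num) with ⟨m, hm, h7⟩ | ⟨-, h7, h8, h9⟩
      · obtain rfl : m = 3 := by omega
        exact WeilRing.weil hY (Or.inr rfl) f ⟨hf.dim, hf.hodge, D, j, hf.pos, hf.hom, hf.sq,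
          hf.move, fun _ => trivial_of_split h7⟩ h hh
      · rcases hg with hg | ⟨-, hg⟩
        · omega
        · by_cases h0 : f = 0
          · have h1 : f.compLinearMap h = 0 := by
              rw [h0]
              rfl
            rw [h1]
            exact WeilRing.zero _
          · exact absurd ⟨h9, D, j, f, hf, h0⟩ (hg H' T' per' h hY hh h8)
    · omega
    · omega
  | zero κ => exact WeilRing.zero κ
  | add f g _ _ hf hg => exact WeilRing.add _ _ hf hg
  | smul a f _ hf => exact WeilRing.smul a _ hf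
  | reindex e f _ hf => exact WeilRing.reindex e _ hf
  | cup f g _ _ h hh hf hg => exact WeilRing.cup _ _ hf hg _ hh

theorem markman_ring {κ : Type} {f : H [⋀^κ]→ₗ[ℚ] ℚ} (hf : WeilRing per κ f) :
    Pool.Agent.H926.A.QR per 10 False κ f := by
  induction hf with
  | unit f => exact Pool.Agent.H926.A.QR.unit f
  | divisor hκ f hf => exact Pool.Agent.H926.A.QR.divisor hκ f hf
  | weil hY hn f hf h hh =>
    obtain ⟨h1, h2, d, j, h3, h4, h5, h6, -⟩ := hf
    exact Pool.Agent.H926.A.QR.weil hY (by omega) f ⟨h2, d, j, h3, h4, h5, h1, h6,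
      fun h => h.elim⟩ h hh
  | zero κ => exact Pool.Agent.H926.A.QR.zero κ
  | add f g _ _ hf hg => exact Pool.Agent.H926.A.QR.add _ _ hf hg
  | smul a f _ hf => exact Pool.Agent.H926.A.QR.smul a _ hf
  | reindex e f _ hf => exact Pool.Agent.H926.A.QR.reindex e _ hf
  | cup f g _ _ h hh hf hg => exact Pool.Agent.H926.A.QR.cup _ _ hf hg _ hh

/-- The classes in the ring are Hodge classes. -/
theorem hodge_of_markman {κ : Type} {f : H [⋀^κ]→ₗ[ℚ] ℚ} (hf : WeilRing per κ f) :
    Pool.Agent.H204R3.CM.IsHodge per f :=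
  Pool.Agent.H926.A.qr_isHodge (markman_ring hf)

end aux

/-- A simple quotient of `X` is a factor of `X`. -/
theorem factor_of_quot (X : AV) {H' T' : Type} [AddCommGroup H'] [Module ℚ H'] [AddCommGroup T']
    [Module ℂ T'] {per' : H' →+ T'} (hY : IsAV per') (hs : IsSimpleSub per' ⊤)
    {h : X.H →ₗ[ℚ] H'} (hh : IsHom X.per per' h) (hsur : Function.Surjective h) :
    ∃ Y : AV, IsFactor Y X ∧ ∀ P : (∀ (H T : Type) [AddCommGroup H] [Module ℚ H] [AddCommGroup T]
      [Module ℂ T] (_ : H →+ T), Prop), P Y.H Y.T Y.per → P H' T' per' := by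
  have hAX : IsAV X.per := ⟨X.finH, X.finT, X.span, X.rank, X.pol⟩
  obtain ⟨s, hs1, hs2⟩ := Pool.Agent.H926.T.DzL.exists_section hAX hY h hh hsur
  obtain ⟨f1, f2, f3, f4, f5⟩ := hY
  let Y : AV := @AV.mk H' T' _ _ f1 _ _ f2 per' f3 f4 f5
  refine ⟨Y, ?_, fun P hP => hP⟩
  refine ⟨⟨?_, fun U hU => hs.2.2 U le_top hU⟩, s, hs1, fun v w hvw => ?_⟩
  · by_contra hcon
    push Not at hcon
    apply hs.2.1
    rw [eq_bot_iff]
    intro y _
    rw [Submodule.mem_bot]
    exact hcon y
  · rw [← hs2 v, ← hs2 w]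
    exact congrArg h hvw

/-- The ring without the Weil classes which are not known to be algebraic. -/
theorem markman_of (X : AV) {g : ℕ}
    (hg : g ≤ 5 ∨ (finrank ℂ X.T ≤ 7 ∧ ∀ Y, IsFactor Y X → ¬IsNonSplitSixfold Y.per))
    {κ : Type} {f : X.H [⋀^κ]→ₗ[ℚ] ℚ} (hf : SplitRing X.per g κ f) : WeilRing X.per κ f := by
  refine to_markman (hg.imp id fun h => ⟨h.1, ?_⟩) hf
  intro H' T' _ _ _ _ per' q hY hq hs hn
  obtain ⟨Y, h1, h2⟩ := factor_of_quot X hY hn.1.1 hq hs
  exact h2 (fun _ _ _ _ _ _ per => ¬IsNonSplitSixfold per) (h.2 Y h1) hn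

end Pool.Agent.H926.C
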